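import Mathlib

/-!
# Elementary facts on integer polynomials (for job 2924, RQ-D2)
-/

set_option autoImplicit false

namespace Pool.Agent.TH359.RQPoly

open Finset Filter Topology Polynomial

/-- number of roots of `g(x) = k` modulo a prime not dividing the leading coefficient -/
theorem roots_mod (g : ℤ[X]) (hd : 1 ≤ g.natDegree) {p : ℕ} (hp : p.Prime)
    (hl : ¬ (p : ℤ) ∣ g.leadingCoeff) (k : ℤ) :
    ((range p).filter (fun r : ℕ => (p : ℤ) ∣ g.eval (r : ℤ) - k)).card ≤ g.natDegree := by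
  classical
  have : Fact p.Prime := ⟨hp⟩
  set Q : (ZMod p)[X] := (g - C k).map (Int.castRingHom (ZMod p)) with hQ
  have hcoeff : Q.coeff g.natDegree = ((g.leadingCoeff : ℤ) : ZMod p) := by
    rw [hQ, coeff_map, coeff_sub, coeff_C, if_neg (by omega), sub_zero]
    rfl
  have hne : Q ≠ 0 := by
    intro h0
    rw [h0, coeff_zero] at hcoeff
    exact hl ((ZMod.intCast_zmod_eq_zero_iff_dvd _ _).1 hcoeff.symm)
  have hdeg : Q.natDegree ≤ g.natDegree := by
    rw [hQ]
    refine natDegree_map_le.trans ?_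
    exact (natDegree_sub_le g (C k)).trans (max_le le_rfl (by rw [natDegree_C]; exact Nat.zero_le _))
  refine le_trans ?_ hdeg
  refine le_trans ?_ (Polynomial.card_roots' Q)
  refine le_trans ?_ (Multiset.toFinset_card_le _)
  apply card_le_card_of_injOn (fun r : ℕ => (r : ZMod p))
  · intro r hr
    have hr' := mem_filter.1 (mem_coe.1 hr)
    rw [mem_coe, Multiset.mem_toFinset, mem_roots hne, IsRoot.def, hQ]
    have e : ((r : ℕ) : ZMod p) = ((r : ℤ) : ZMod p) := by push_cast; rfl
    simp only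
    rw [e, eval_intCast_map, eval_sub, eval_C, eq_intCast]
    exact (ZMod.intCast_zmod_eq_zero_iff_dvd _ _).2 hr'.2
  · intro r hr r' hr' h
    have h1 := mem_range.1 (mem_filter.1 (mem_coe.1 hr)).1
    have h2 := mem_range.1 (mem_filter.1 (mem_coe.1 hr')).1
    simp only at h
    have h3 := (ZMod.natCast_eq_natCast_iff' r r' p).1 h
    rwa [Nat.mod_eq_of_lt h1, Nat.mod_eq_of_lt h2] at h3

/-- number of roots modulo a squarefree number -/
theorem roots_sqf (g : ℤ[X]) (hd : 1 ≤ g.natDegree) (S : Finset ℕ) (hS : ∀ p ∈ S, p.Prime)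
    (hl : ∀ p ∈ S, ¬ (p : ℤ) ∣ g.leadingCoeff) (k : ℤ) :
    ((range (∏ p ∈ S, p)).filter
      (fun r : ℕ => ((∏ p ∈ S, p : ℕ) : ℤ) ∣ g.eval (r : ℤ) - k)).card ≤ g.natDegree ^ S.card := by
  classical
  have hcard : (S.pi (fun p => (range p).filter (fun r : ℕ => (p : ℤ) ∣ g.eval (r : ℤ) - k))).card ≤
      g.natDegree ^ S.card := by
    rw [Finset.card_pi, ← Finset.prod_const]
    exact Finset.prod_le_prod' fun p hp => roots_mod g hd (hS p hp) (hl p hp) k
  refine le_trans ?_ hcard
  apply card_le_card_of_injOn (fun r : ℕ => fun p (_ : p ∈ S) => r % p)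
  · intro r hr
    have hr' := mem_filter.1 (mem_coe.1 hr)
    rw [mem_coe, Finset.mem_pi]
    intro p hp
    rw [mem_filter, mem_range]
    refine ⟨Nat.mod_lt _ (hS p hp).pos, ?_⟩
    have h1 : (p : ℤ) ∣ ((∏ p ∈ S, p : ℕ) : ℤ) := Int.natCast_dvd_natCast.2 (dvd_prod_of_mem _ hp)
    have h2 := h1.trans hr'.2
    have h3 : (p : ℤ) ∣ ((r % p : ℕ) : ℤ) - (r : ℤ) := by
      rw [Int.natCast_mod]
      have := Int.emod_add_mul_ediv (r : ℤ) p
      exact ⟨-((r : ℤ) / p), by linarith⟩
    have h4 := h3.trans (sub_dvd_eval_sub ((r % p : ℕ) : ℤ) (r : ℤ) g)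
    have h5 := dvd_add h4 h2
    have e : eval (((r % p : ℕ) : ℤ)) g - eval (r : ℤ) g + (eval (r : ℤ) g - k) =
        eval (((r % p : ℕ) : ℤ)) g - k := by ring
    rw [e] at h5
    exact h5
  · intro r hr r' hr' h
    have h1 := mem_range.1 (mem_filter.1 (mem_coe.1 hr)).1
    have h2 := mem_range.1 (mem_filter.1 (mem_coe.1 hr')).1
    have h3 : ∀ p ∈ S, r % p = r' % p := by
      intro p hp
      have := congrFun (congrFun h p) hp
      exact this
    have h4 : (r : ℤ) ≡ r' [ZMOD ((∏ p ∈ S, p : ℕ) : ℤ)] := by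
      rw [Int.modEq_iff_dvd]
      push_cast
      apply Finset.prod_dvd_of_coprime
      · intro p hp q hq hpq
        have hp' := hS p (mem_coe.1 hp)
        have hq' := hS q (mem_coe.1 hq)
        have := (Nat.coprime_primes hp' hq').2 hpq
        exact Nat.isCoprime_iff_coprime.2 this
      · intro p hp
        have h5 : (r : ℤ) ≡ r' [ZMOD p] := by
          have := h3 p hp
          exact_mod_cast (this : r ≡ r' [MOD p])
        exact (Int.modEq_iff_dvd.1 h5)
    have h5 : r ≡ r' [MOD (∏ p ∈ S, p)] := by exact_mod_cast h4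
    have h6 : r % (∏ p ∈ S, p) = r' % (∏ p ∈ S, p) := h5
    rwa [Nat.mod_eq_of_lt h1, Nat.mod_eq_of_lt h2] at h6

/-- a polynomial with positive leading coefficient is eventually positive -/
theorem evpos (Q : ℝ[X]) (h : 0 < Q.leadingCoeff) : ∀ᶠ x in atTop, 0 < Q.eval x := by
  by_cases hd : 0 < Q.degree
  · exact (Q.tendsto_atTop_of_leadingCoeff_nonneg hd h.le).eventually_gt_atTop 0
  · have h1 : Q = C (Q.coeff 0) := eq_C_of_degree_le_zero (not_lt.1 hd)
    have h2 : 0 < Q.coeff 0 := by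
      rw [h1, leadingCoeff_C] at h
      exact h
    refine Eventually.of_forall fun x => ?_
    rw [h1, eval_C]
    exact h2

/-- eventual strict monotonicity -/
theorem eval_mono (g : ℤ[X]) (hd : 1 ≤ g.natDegree) (hl : 0 < g.leadingCoeff) :
    ∃ B : ℕ, ∀ m n : ℕ, B ≤ m → m < n → g.eval (m : ℤ) < g.eval (n : ℤ) := by
  set P : ℝ[X] := g.map (Int.castRingHom ℝ) with hP
  have hPd : P.natDegree = g.natDegree := natDegree_map_eq_of_injective Int.cast_injective g
  have hPl : P.coeff g.natDegree = (g.leadingCoeff : ℝ) := by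
    rw [hP, coeff_map]
    rfl
  have hlr : (0 : ℝ) < (g.leadingCoeff : ℝ) := by exact_mod_cast hl
  have hder : P.derivative.coeff (g.natDegree - 1) = g.leadingCoeff * g.natDegree := by
    rw [coeff_derivative, show g.natDegree - 1 + 1 = g.natDegree by omega, hPl]
    have : ((g.natDegree - 1 : ℕ) : ℝ) + 1 = g.natDegree := by
      rw [Nat.cast_sub hd]
      push_cast
      ring
    rw [this]
  have hpos : 0 < P.derivative.coeff (g.natDegree - 1) := by
    rw [hder]
    have : (0 : ℝ) < g.natDegree := by exact_mod_cast hd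
    positivity
  have hnd : P.derivative.natDegree = g.natDegree - 1 := by
    apply le_antisymm
    · have := natDegree_derivative_le P
      rw [hPd] at this
      exact this
    · exact le_natDegree_of_ne_zero hpos.ne'
  have hlead : 0 < P.derivative.leadingCoeff := by
    unfold leadingCoeff
    rw [hnd]
    exact hpos
  obtain ⟨B, hB⟩ := eventually_atTop.1 (evpos _ hlead)
  refine ⟨⌈B⌉₊, fun m n hm hmn => ?_⟩
  have hmono : StrictMonoOn (fun x : ℝ => P.eval x) (Set.Ici B) := by
    refine strictMonoOn_of_deriv_pos (convex_Ici B) P.continuous.continuousOn fun x hx => ?_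
    rw [interior_Ici, Set.mem_Ioi] at hx
    rw [Polynomial.deriv]
    exact hB x hx.le
  have hm' : B ≤ (m : ℝ) := (Nat.le_ceil B).trans (by exact_mod_cast hm)
  have hmn' : (m : ℝ) < n := by exact_mod_cast hmn
  have h := hmono (Set.mem_Ici.2 hm') (Set.mem_Ici.2 (hm'.trans hmn'.le)) hmn'
  simp only at h
  have e : ∀ j : ℕ, P.eval (j : ℝ) = ((g.eval (j : ℤ) : ℤ) : ℝ) := by
    intro j
    have := eval_intCast_map (Int.castRingHom ℝ) g (j : ℤ)
    rw [hP]
    simpa using this
  rw [e, e] at h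
  exact_mod_cast h

/-- growth -/
theorem eval_growth (g : ℤ[X]) : ∃ C : ℕ, ∀ n : ℕ, 1 ≤ n →
    (g.eval (n : ℤ)).natAbs ≤ C * n ^ g.natDegree := by
  refine ⟨∑ i ∈ range (g.natDegree + 1), (g.coeff i).natAbs, fun n hn => ?_⟩
  rw [eval_eq_sum_range, Finset.sum_mul]
  refine (Int.natAbs_sum_le _ _).trans (Finset.sum_le_sum fun i hi => ?_)
  rw [Int.natAbs_mul, Int.natAbs_pow, Int.natAbs_natCast]
  exact Nat.mul_le_mul_left _ (Nat.pow_le_pow_right hn (by
    have := mem_range.1 hi
    omega))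

end Pool.Agent.TH359.RQPoly
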