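import Mathlib
import Pool.Agent.TH881.RQ.Defs2
import Pool.Agent.TH159.J1235
import Pool.Agent.TH359.RQPoly

/-! Job 2924 (helper881, MP_7169d5_nt), RQ-D2: moments of the local factors of `g(b') - g(b)` over
the primes `b'` of a residue class. -/

set_option autoImplicit false

namespace Pool.Agent.TH359.J2924

open Finset Filter Topology Polynomial
open Pool.Agent.TH881
open Pool.Agent.TH881.RG
open Pool.Agent.TH881.RQ
open Pool.Agent.H373R2.T7
open Pool.Agent.TH359.RQPoly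

lemma card_AA (w : ℕ) : (AA true w).card = Nat.totient (Wp w) := by
  classical
  rw [← ZMod.card_units_eq_totient, ← Finset.card_univ]
  symm
  apply Finset.card_bij (fun (u : (ZMod (Wp w))ˣ) _ => (u : ZMod (Wp w)))
  · intro u _
    unfold AA
    rw [mem_filter]
    exact ⟨mem_univ _, fun _ => u.isUnit⟩
  · intro u _ v _ h
    exact Units.ext h
  · intro a ha
    unfold AA at ha
    rw [mem_filter] at ha
    obtain ⟨u, hu⟩ := ha.2 rfl
    exact ⟨u, mem_univ _, hu⟩

/-- the Euler product -/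
lemma euler (J D w L : ℕ) (hw : 4 * J * D ≤ w) (hwJ' : 4 * J ≤ w) (hw1 : 1 ≤ w) :
    ∏ p ∈ pT w L, (1 + D * (((1 - 1 / (p : ℝ))⁻¹ ^ J - 1) / (p - 1))) ≤ Real.exp 1 := by
  have hw0 : (0 : ℝ) < w := by exact_mod_cast hw1
  have hwJ : 4 * (J : ℝ) * D ≤ w := by exact_mod_cast hw
  have hwJ2 : 4 * (J : ℝ) ≤ w := by exact_mod_cast hwJ'
  have hD0 : (0 : ℝ) ≤ D := Nat.cast_nonneg D
  have h3 : ∀ p ∈ pT w L, 1 + D * (((1 - 1 / (p : ℝ))⁻¹ ^ J - 1) / (p - 1)) ≤
      Real.exp (4 * J * D * (1 / ((p : ℝ) * (p - 1)))) := by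
    intro p hp
    have hp' := mem_pT.1 hp
    have hp2 : (2 : ℝ) ≤ p := by exact_mod_cast hp'.2.2.two_le
    have hpy : (w : ℝ) + 1 ≤ p := by exact_mod_cast hp'.1
    have hp1 : (0 : ℝ) < p - 1 := by linarith
    have e3 : (1 - 1 / (p : ℝ))⁻¹ ^ J ≤ Real.exp (J / (p - 1)) := by
      calc (1 - 1 / (p : ℝ))⁻¹ ^ J ≤ Real.exp (1 / (p - 1)) ^ J :=
            pow_le_pow_left₀ (inv_nonneg.2 (fac_pos hp'.2.2).le)
              (Pool.Agent.TH159.J1235.fac_inv_le_exp hp'.2.2) J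
        _ = _ := by
            rw [← Real.exp_nat_mul]
            congr 1
            ring
    have hJ0 : (0 : ℝ) ≤ J := Nat.cast_nonneg J
    have e4 : (J : ℝ) / (p - 1) ≤ 1 := by
      rw [div_le_one hp1]
      linarith
    have e5 := exp_le_lin ((J : ℝ) / (p - 1)) (by positivity) e4
    have e7 : ((1 - 1 / (p : ℝ))⁻¹ ^ J - 1) / (p - 1) ≤ (2 * (J / (p - 1))) / (p - 1) := by
      apply div_le_div_of_nonneg_right _ hp1.le
      linarith
    have e8 : (2 * ((J : ℝ) / (p - 1))) / (p - 1) ≤ 4 * J * (1 / ((p : ℝ) * (p - 1))) := by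
      have e9 : 4 * (J : ℝ) * (1 / ((p : ℝ) * (p - 1))) = (4 * J / p) / (p - 1) := by
        field_simp
      rw [e9]
      apply div_le_div_of_nonneg_right _ hp1.le
      rw [← mul_div_assoc, div_le_div_iff₀ hp1 (by linarith)]
      nlinarith
    have e10 : (D : ℝ) * (((1 - 1 / (p : ℝ))⁻¹ ^ J - 1) / (p - 1)) ≤
        D * (4 * J * (1 / ((p : ℝ) * (p - 1)))) := mul_le_mul_of_nonneg_left (e7.trans e8) hD0
    calc 1 + D * (((1 - 1 / (p : ℝ))⁻¹ ^ J - 1) / (p - 1)) ≤
          4 * J * D * (1 / ((p : ℝ) * (p - 1))) + 1 := by linarith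
      _ ≤ _ := Real.add_one_le_exp _
  calc ∏ p ∈ pT w L, (1 + D * (((1 - 1 / (p : ℝ))⁻¹ ^ J - 1) / (p - 1)))
      ≤ ∏ p ∈ pT w L, Real.exp (4 * J * D * (1 / ((p : ℝ) * (p - 1)))) := by
        apply prod_le_prod _ h3
        intro p hp
        have hp' := mem_pT.1 hp
        have hp2 : (2 : ℝ) ≤ p := by exact_mod_cast hp'.2.2.two_le
        have h4 := one_le_pow₀ (n := J) (one_le_fac_inv hp'.2.2)
        have h5 : 0 ≤ (D : ℝ) * (((1 - 1 / (p : ℝ))⁻¹ ^ J - 1) / (p - 1)) :=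
          mul_nonneg hD0 (div_nonneg (by linarith) (by linarith))
        linarith
    _ = Real.exp (∑ p ∈ pT w L, 4 * J * D * (1 / ((p : ℝ) * (p - 1)))) := by rw [Real.exp_sum]
    _ ≤ Real.exp 1 := by
        apply Real.exp_le_exp.2
        rw [← mul_sum]
        calc 4 * (J : ℝ) * D * ∑ p ∈ pT w L, 1 / ((p : ℝ) * (p - 1)) ≤ 4 * J * D * (1 / w) :=
              mul_le_mul_of_nonneg_left (sum_telescope w L hw1) (by positivity)
          _ ≤ 1 := by
            rw [mul_one_div, div_le_one hw0]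
            exact hwJ

lemma dvd_dist {d r x : ℕ} (h : x ≡ r [MOD d]) : d ∣ Nat.dist r x := by
  rcases le_total r x with hrx | hrx
  · have e : Nat.dist r x = x - r := by simp only [Nat.dist]; omega
    rw [e]
    exact (Nat.modEq_iff_dvd' hrx).1 h.symm
  · have e : Nat.dist r x = r - x := by simp only [Nat.dist]; omega
    rw [e]
    exact (Nat.modEq_iff_dvd' hrx).1 h

open Classical in
/-- splitting into the classes of roots -/
lemma split (g : ℤ[X]) (F : Finset ℕ) (d : ℕ) (hd : 0 < d) (k : ℤ) :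
    (F.filter (fun x : ℕ => d ∣ (g.eval (x : ℤ) - k).natAbs)).card ≤
      ∑ r ∈ (range d).filter (fun r : ℕ => (d : ℤ) ∣ g.eval (r : ℤ) - k),
        (F.filter (fun x => d ∣ Nat.dist r x)).card := by
  refine le_trans (card_le_card ?_) card_biUnion_le
  intro x hx
  rw [mem_filter] at hx
  rw [mem_biUnion]
  have h1 : (d : ℤ) ∣ g.eval (x : ℤ) - k := by
    rw [Int.natCast_dvd]
    exact hx.2
  have h2 : x ≡ x % d [MOD d] := (Nat.mod_modEq x d).symm
  refine ⟨x % d, ?_, ?_⟩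
  · rw [mem_filter, mem_range]
    refine ⟨Nat.mod_lt _ hd, ?_⟩
    have h3 : (d : ℤ) ∣ ((x % d : ℕ) : ℤ) - (x : ℤ) := by
      rw [Int.natCast_mod]
      have := Int.emod_add_mul_ediv (x : ℤ) d
      exact ⟨-((x : ℤ) / d), by linarith⟩
    have h4 := h3.trans (sub_dvd_eval_sub ((x % d : ℕ) : ℤ) (x : ℤ) g)
    have h5 := dvd_add h4 h1
    have e : eval (((x % d : ℕ) : ℤ)) g - eval (x : ℤ) g + (eval (x : ℤ) g - k) =
        eval (((x % d : ℕ) : ℤ)) g - k := by ring
    rw [e] at h5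
    exact h5
  · rw [mem_filter]
    exact ⟨hx.1, dvd_dist h2⟩

theorem stPMq_prime (g : ℤ[X]) (hd : 1 ≤ g.natDegree) (hl : 0 < g.leadingCoeff) : StPMq true g := by
  classical
  intro J E
  obtain ⟨N₀, hN₀3, hbt'⟩ := Pool.Agent.H617R3.BT.bt2 1 one_pos
  have hbt : ∀ a q N : ℕ, 1 ≤ q → N₀ ≤ N →
      (((range N).filter (fun t => (a + t * q).Prime)).card : ℝ) ≤
      3 * ((q : ℝ) / Nat.totient q) * N / Real.log N := by
    intro a q N h1 h2
    have := hbt' a q N h1 h2
    norm_num at this ⊢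
    exact this
  obtain ⟨D, hD⟩ : ∃ D, D = g.natDegree := ⟨_, rfl⟩
  obtain ⟨B, hB⟩ := eval_mono g hd hl
  obtain ⟨C, hC⟩ := eval_growth g
  rw [← hD] at hC
  refine ⟨4 * J * D + 4 * J + 1 + g.leadingCoeff.natAbs, fun w hw => ?_⟩
  obtain ⟨W, hWdef⟩ : ∃ W, W = Wp w := ⟨_, rfl⟩
  have hW : 0 < W := by rw [hWdef]; exact Wp_pos w
  have hWr : (0 : ℝ) < W := by exact_mod_cast hW
  have hW1 : (1 : ℝ) ≤ W := by exact_mod_cast hW
  have hlW : 0 ≤ Real.log W := Real.log_nonneg hW1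
  have hN₀r : (3 : ℝ) ≤ N₀ := by exact_mod_cast hN₀3
  have hlN₀ : 0 < Real.log N₀ := Real.log_pos (by linarith)
  have hlC : 0 ≤ Real.log (2 * C + 1) := Real.log_nonneg (by
    have : (0 : ℝ) ≤ C := Nat.cast_nonneg _
    linarith)
  have hlB : 0 ≤ Real.log (B + 1) := Real.log_nonneg (by
    have : (0 : ℝ) ≤ B := Nat.cast_nonneg _
    linarith)
  refine ⟨⌈Real.exp (32 * Real.exp (32 * ((J + 1) * (D + 1))) + 64 + 14 * Real.log W +
    4 * Real.log N₀ + Real.log (2 * C + 1) + 2 * Real.log (B + 1))⌉₊, ?_⟩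
  intro M hM' z _ a b hbM' hbM
  have hN' := Nat.ceil_le.1 hM'
  have hM0 : (0 : ℝ) < M := lt_of_lt_of_le (Real.exp_pos _) hN'
  have hJ0 : (0 : ℝ) ≤ J := Nat.cast_nonneg J
  have hD0 : (0 : ℝ) ≤ D := Nat.cast_nonneg D
  obtain ⟨x, hx⟩ : ∃ x : ℝ, x = Real.log M := ⟨_, rfl⟩
  have hxA : 32 * Real.exp (32 * ((J + 1) * (D + 1))) + 64 + 14 * Real.log W +
      4 * Real.log N₀ + Real.log (2 * C + 1) + 2 * Real.log (B + 1) ≤ x := by
    rw [hx, Real.le_log_iff_exp_le hM0]
    exact hN'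
  have hexp0 := Real.exp_pos (32 * (((J : ℝ) + 1) * (D + 1)))
  have hx64 : 64 ≤ x := by linarith
  have hM1 : 1 < M := by
    have h1 : (1 : ℝ) < M := by
      by_contra hcon
      have := Real.log_nonpos hM0.le (not_lt.1 hcon)
      linarith
    exact_mod_cast h1
  -- size of the values
  have h2C : 2 * C ≤ M := by
    have h1 : Real.log (2 * C + 1) ≤ Real.log M := by rw [← hx]; linarith
    have h2 : (0 : ℝ) < 2 * C + 1 := by
      have : (0 : ℝ) ≤ C := Nat.cast_nonneg _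
      linarith
    have h3 := (Real.log_le_log_iff h2 hM0).1 h1
    have h4 : 2 * C + 1 ≤ M := by exact_mod_cast h3
    omega
  have hBM : ∀ n : ℕ, √(M : ℝ) < n → B ≤ n := by
    intro n hn
    have h1 : Real.log (B + 1) ≤ Real.log (√(M : ℝ)) := by
      rw [Real.log_sqrt hM0.le, ← hx]
      linarith
    have h2 : (0 : ℝ) < B + 1 := by
      have : (0 : ℝ) ≤ B := Nat.cast_nonneg _
      linarith
    have h3 := (Real.log_le_log_iff h2 (Real.sqrt_pos.2 hM0)).1 h1
    have h4 : (B : ℝ) ≤ n := by linarith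
    exact_mod_cast h4
  have hval : ∀ n : ℕ, 1 ≤ n → n ≤ M →
      (g.eval (n : ℤ) - g.eval (b : ℤ)).natAbs ≤ M ^ (D + 1) := by
    intro n h1 h2
    have hb1 : 1 ≤ b := by
      have : (0 : ℝ) < b := lt_of_le_of_lt (Real.sqrt_nonneg _) hbM'
      exact_mod_cast this
    have h3 := hC n h1
    have h4 := hC b hb1
    have h5 : n ^ D ≤ M ^ D := Nat.pow_le_pow_left h2 D
    have h6 : b ^ D ≤ M ^ D := Nat.pow_le_pow_left hbM D
    calc (g.eval (n : ℤ) - g.eval (b : ℤ)).natAbs ≤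
          (g.eval (n : ℤ)).natAbs + (g.eval (b : ℤ)).natAbs := Int.natAbs_sub_le _ _
      _ ≤ C * M ^ D + C * M ^ D :=
          Nat.add_le_add (h3.trans (Nat.mul_le_mul_left C h5)) (h4.trans (Nat.mul_le_mul_left C h6))
      _ = (2 * C) * M ^ D := by ring
      _ ≤ M * M ^ D := Nat.mul_le_mul_right _ h2C
      _ = M ^ (D + 1) := by ring
  have hne : ∀ n : ℕ, √(M : ℝ) < n → n ≠ b → 0 < (g.eval (n : ℤ) - g.eval (b : ℤ)).natAbs := by
    intro n hn hnb
    rw [Int.natAbs_pos, sub_ne_zero]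
    rcases Nat.lt_or_gt_of_ne hnb with h | h
    · exact (hB n b (hBM n hn) h).ne
    · exact (hB b n (hBM b hbM') h).ne'
  -- the level
  obtain ⟨L, hL⟩ : ∃ L : ℕ, L = ⌊x / 16⌋₊ := ⟨_, rfl⟩
  have hL2 : (L : ℝ) ≤ x / 16 := by
    rw [hL]
    exact Nat.floor_le (by linarith)
  have hL1 : x / 32 ≤ L := by
    have := Nat.lt_floor_add_one (x / 16)
    rw [← hL] at this
    linarith
  have hL0 : (0 : ℝ) < L := by linarith
  have hLlog : 32 * (((J : ℝ) + 1) * (D + 1)) ≤ Real.log L := by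
    rw [Real.le_log_iff_exp_le hL0]
    linarith
  have hJD : 0 < 32 * (((J : ℝ) + 1) * (D + 1)) := by positivity
  have hLlog0 : 0 < Real.log L := by linarith
  have hL22 : 2 ≤ L := by
    have : (2 : ℝ) ≤ L := by linarith
    exact_mod_cast this
  -- the tail
  have htail : ∀ h : ℕ, 0 < h → h ≤ M ^ (D + 1) → gw L z h ^ J ≤ Real.exp 1 := by
    intro h h0 hhN
    have h1 := Pool.Agent.TH159.J1235.gw_tail L z h (M ^ (D + 1)) hL22 h0 hhN
    calc gw L z h ^ J ≤ Real.exp (Real.log ((M ^ (D + 1) : ℕ) : ℝ) / Real.log L / L) ^ J :=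
          pow_le_pow_left₀ (zero_le_one.trans (one_le_gw L z h)) h1 J
      _ = Real.exp (J * (Real.log ((M ^ (D + 1) : ℕ) : ℝ) / Real.log L / L)) := by
          rw [← Real.exp_nat_mul]
      _ ≤ Real.exp 1 := by
        apply Real.exp_le_exp.2
        rw [Nat.cast_pow, Real.log_pow, ← hx, div_div, ← mul_div_assoc, div_le_one (by positivity)]
        calc (J : ℝ) * (((D + 1 : ℕ) : ℝ) * x) ≤ (32 * ((J + 1) * (D + 1))) * (x / 32) := by
              push_cast
              have : 0 ≤ ((D : ℝ) + 1) * x := by positivity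
              nlinarith
          _ ≤ Real.log L * L := mul_le_mul hLlog hL1 (by linarith) hLlog0.le
  -- the classes
  set F0 := (Icc 1 M).filter (fun b' => b'.Prime ∧ b' ≡ a [MOD W]) with hF0
  have hφW : (0 : ℝ) < Nat.totient W := by exact_mod_cast Nat.totient_pos.2 hW
  have hx0 : 0 < x := by linarith
  have hclass : ∀ S ∈ (pT w L).powerset, ∀ r : ℕ,
      ((F0.filter (fun b' => (∏ p ∈ S, p) ∣ Nat.dist r b')).card : ℝ) ≤
      10 * (M / (Nat.totient W * Real.log M)) * ∏ p ∈ S, (1 / ((p : ℝ) - 1)) := by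
    intro S hS r0
    rw [mem_powerset] at hS
    have hSp : ∀ p ∈ S, p.Prime := fun p hp => (mem_pT.1 (hS hp)).2.2
    have hd0 : 0 < ∏ p ∈ S, p := prod_pos fun p hp => (hSp p hp).pos
    have hcop := Pool.Agent.TH159.J1235.coprime_W w L S hS
    rw [← hWdef] at hcop
    have hd4 := Pool.Agent.TH159.J1235.prod_le_four_pow w L S hS
    have hφd := Pool.Agent.TH159.J1235.totient_prod_primes S hSp
    set d := ∏ p ∈ S, p with hd
    have hdr : (0 : ℝ) < d := by exact_mod_cast hd0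
    have hq0 : 0 < d * W := Nat.mul_pos hd0 hW
    have hq0r : (0 : ℝ) < ((d * W : ℕ) : ℝ) := by exact_mod_cast hq0
    obtain ⟨r, hr⟩ := Pool.Agent.TH159.J1235.count_le W d (d * W) M a r0 rfl hcop
    have hlogd : Real.log d ≤ x / 8 := by
      have h1 : Real.log d ≤ Real.log ((4 : ℝ) ^ L) := by
        apply Real.log_le_log hdr
        exact_mod_cast hd4
      rw [Real.log_pow] at h1
      have h2 : Real.log 4 ≤ 2 := by
        have h3 : (4 : ℝ) = 2 ^ 2 := by norm_num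
        rw [h3, Real.log_pow]
        have := Real.log_two_lt_d9
        push_cast
        linarith
      have h3 : (L : ℝ) * Real.log 4 ≤ L * 2 := mul_le_mul_of_nonneg_left h2 hL0.le
      linarith
    have hlogW : Real.log W ≤ x * (3 / 40) := by linarith
    have hlogq : Real.log ((d * W : ℕ) : ℝ) ≤ 2 / 5 * x := by
      push_cast
      rw [Real.log_mul hdr.ne' hWr.ne']
      linarith
    have hlogMq : 3 / 5 * Real.log M ≤ Real.log ((M : ℝ) / ((d * W : ℕ) : ℝ)) := by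
      rw [Real.log_div hM0.ne' hq0r.ne', ← hx]
      linarith
    have hN₀M : (N₀ : ℝ) ≤ (M : ℝ) / ((d * W : ℕ) : ℝ) := by
      have h1 : Real.log N₀ ≤ Real.log ((M : ℝ) / ((d * W : ℕ) : ℝ)) := by
        refine le_trans ?_ hlogMq
        rw [← hx]
        linarith
      exact (Real.log_le_log_iff (by linarith) (by positivity)).1 h1
    have hqM : d * W ≤ M := by
      have h1 : Real.log ((d * W : ℕ) : ℝ) ≤ Real.log M := by
        rw [← hx]
        linarith
      have h2 := (Real.log_le_log_iff hq0r hM0).1 h1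
      exact_mod_cast h2
    have h1 := Pool.Agent.TH159.J1235.count_bound N₀ hbt (d * W) M r hq0 hM1 hN₀M hlogMq hqM
    have h2 : ((F0.filter (fun b' => d ∣ Nat.dist r0 b')).card : ℝ) ≤
        (((range (M / (d * W) + 1)).filter (fun t => (r + t * (d * W)).Prime)).card : ℝ) := by
      exact_mod_cast hr
    refine (h2.trans h1).trans (le_of_eq ?_)
    rw [Nat.totient_mul hcop, hφd]
    have h3 : ∏ p ∈ S, (1 / ((p : ℝ) - 1)) = 1 / ((∏ p ∈ S, (p - 1) : ℕ) : ℝ) := by
      rw [prod_div_distrib, prod_const_one]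
      congr 1
      push_cast
      apply prod_congr rfl
      intro p hp
      rw [Nat.cast_sub (hSp p hp).one_le, Nat.cast_one]
    rw [h3]
    push_cast
    have h4 : (0 : ℝ) < ∏ p ∈ S, ((p - 1 : ℕ) : ℝ) := prod_pos fun p hp => by
      have := (hSp p hp).two_le
      exact_mod_cast (by omega : 0 < p - 1)
    rw [← hx]
    field_simp
  have hcount : ∀ S ∈ (pT w L).powerset,
      ((F0.filter (fun b' : ℕ => (∏ p ∈ S, p) ∣
        (g.eval (b' : ℤ) - g.eval (b : ℤ)).natAbs)).card : ℝ) ≤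
      10 * (M / (Nat.totient W * Real.log M)) * ∏ p ∈ S, ((D : ℝ) * (1 / ((p : ℝ) - 1))) := by
    intro S hS
    have hS' := mem_powerset.1 hS
    have hSp : ∀ p ∈ S, p.Prime := fun p hp => (mem_pT.1 (hS' hp)).2.2
    have hd0 : 0 < ∏ p ∈ S, p := prod_pos fun p hp => (hSp p hp).pos
    have hSl : ∀ p ∈ S, ¬ (p : ℤ) ∣ g.leadingCoeff := by
      intro p hp hdvd
      have h1 : p ∣ g.leadingCoeff.natAbs := Int.natCast_dvd.1 hdvd
      have h2 : 0 < g.leadingCoeff.natAbs := Int.natAbs_pos.2 hl.ne'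
      have h3 := Nat.le_of_dvd h2 h1
      have h4 := (mem_pT.1 (hS' hp)).1
      omega
    have h1 := split g F0 (∏ p ∈ S, p) hd0 (g.eval (b : ℤ))
    have h2 := roots_sqf g hd S hSp hSl (g.eval (b : ℤ))
    rw [← hD] at h2
    have hnn : 0 ≤ 10 * ((M : ℝ) / (Nat.totient W * Real.log M)) *
        ∏ p ∈ S, (1 / ((p : ℝ) - 1)) := by
      rw [← hx]
      apply mul_nonneg (by positivity)
      apply prod_nonneg
      intro p hp
      have : (2 : ℝ) ≤ p := by exact_mod_cast (hSp p hp).two_le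
      apply one_div_nonneg.2
      linarith
    calc ((F0.filter (fun b' : ℕ => (∏ p ∈ S, p) ∣
          (g.eval (b' : ℤ) - g.eval (b : ℤ)).natAbs)).card : ℝ)
        ≤ ∑ r ∈ (range (∏ p ∈ S, p)).filter (fun r : ℕ => ((∏ p ∈ S, p : ℕ) : ℤ) ∣
            g.eval (r : ℤ) - g.eval (b : ℤ)),
            ((F0.filter (fun b' => (∏ p ∈ S, p) ∣ Nat.dist r b')).card : ℝ) := by
          exact_mod_cast h1
      _ ≤ ∑ _r ∈ (range (∏ p ∈ S, p)).filter (fun r : ℕ => ((∏ p ∈ S, p : ℕ) : ℤ) ∣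
            g.eval (r : ℤ) - g.eval (b : ℤ)),
            10 * ((M : ℝ) / (Nat.totient W * Real.log M)) * ∏ p ∈ S, (1 / ((p : ℝ) - 1)) :=
          sum_le_sum fun r _ => hclass S hS r
      _ = (((range (∏ p ∈ S, p)).filter (fun r : ℕ => ((∏ p ∈ S, p : ℕ) : ℤ) ∣
            g.eval (r : ℤ) - g.eval (b : ℤ))).card : ℝ) *
            (10 * ((M : ℝ) / (Nat.totient W * Real.log M)) * ∏ p ∈ S, (1 / ((p : ℝ) - 1))) := by
          rw [sum_const, nsmul_eq_mul]
      _ ≤ ((D : ℝ) ^ S.card) *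
            (10 * ((M : ℝ) / (Nat.totient W * Real.log M)) * ∏ p ∈ S, (1 / ((p : ℝ) - 1))) := by
          apply mul_le_mul_of_nonneg_right _ hnn
          exact_mod_cast h2
      _ = _ := by
          rw [prod_mul_distrib, prod_const]
          ring
  -- the sum over the classes
  obtain ⟨c, hc⟩ : ∃ c : ℕ → ℝ, c = fun p : ℕ => (1 - 1 / (p : ℝ))⁻¹ ^ J - 1 := ⟨_, rfl⟩
  have hc0 : ∀ p ∈ pT w L, 0 ≤ c p := by
    intro p hp
    have := one_le_pow₀ (n := J) (one_le_fac_inv (mem_pT.1 hp).2.2)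
    rw [hc]
    simp only
    linarith
  have hgwJ : ∀ h, gw w L h ^ J = ∏ p ∈ (pT w L).filter (fun p => p ∣ h), (1 + c p) := by
    intro h
    unfold gw
    rw [← prod_pow]
    apply prod_congr rfl
    intro p _
    rw [hc]
    ring
  have hmain : ∑ b' ∈ F0, gw w L (g.eval (b' : ℤ) - g.eval (b : ℤ)).natAbs ^ J ≤
      10 * (M / (Nat.totient W * Real.log M)) * Real.exp 1 := by
    have hK : 0 ≤ 10 * ((M : ℝ) / (Nat.totient W * Real.log M)) := by
      rw [← hx]
      positivity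
    calc ∑ b' ∈ F0, gw w L (g.eval (b' : ℤ) - g.eval (b : ℤ)).natAbs ^ J
        = ∑ b' ∈ F0, ∑ S ∈ (pT w L).powerset,
          if (∏ p ∈ S, p) ∣ (g.eval (b' : ℤ) - g.eval (b : ℤ)).natAbs then ∏ p ∈ S, c p else 0 :=
          sum_congr rfl fun b' _ => by
            rw [hgwJ, Pool.Agent.TH159.J1235.expand _ (fun p hp => (mem_pT.1 hp).2.2)]
      _ = ∑ S ∈ (pT w L).powerset, ∑ b' ∈ F0,
          if (∏ p ∈ S, p) ∣ (g.eval (b' : ℤ) - g.eval (b : ℤ)).natAbs then ∏ p ∈ S, c p else 0 :=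
          sum_comm
      _ = ∑ S ∈ (pT w L).powerset, (∏ p ∈ S, c p) *
          ((F0.filter (fun b' : ℕ => (∏ p ∈ S, p) ∣
            (g.eval (b' : ℤ) - g.eval (b : ℤ)).natAbs)).card : ℝ) := by
          apply sum_congr rfl
          intro S _
          rw [← sum_filter, sum_const, nsmul_eq_mul, mul_comm]
      _ ≤ ∑ S ∈ (pT w L).powerset, (∏ p ∈ S, c p) *
          (10 * (M / (Nat.totient W * Real.log M)) *
            ∏ p ∈ S, ((D : ℝ) * (1 / ((p : ℝ) - 1)))) := by
          apply sum_le_sum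
          intro S hS
          apply mul_le_mul_of_nonneg_left (hcount S hS)
          exact prod_nonneg fun p hp => hc0 p (mem_powerset.1 hS hp)
      _ = 10 * (M / (Nat.totient W * Real.log M)) *
          ∑ S ∈ (pT w L).powerset, ∏ p ∈ S, ((D : ℝ) * (c p / ((p : ℝ) - 1))) := by
          rw [mul_sum]
          apply sum_congr rfl
          intro S _
          have : ∏ p ∈ S, ((D : ℝ) * (c p / ((p : ℝ) - 1))) =
              (∏ p ∈ S, c p) * ∏ p ∈ S, ((D : ℝ) * (1 / ((p : ℝ) - 1))) := by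
            rw [← prod_mul_distrib]
            apply prod_congr rfl
            intro p _
            ring
          rw [this]
          ring
      _ = 10 * (M / (Nat.totient W * Real.log M)) *
          ∏ p ∈ pT w L, (1 + (D : ℝ) * (c p / ((p : ℝ) - 1))) := by rw [prod_one_add]
      _ ≤ _ := by
          apply mul_le_mul_of_nonneg_left _ hK
          rw [hc]
          exact euler J D w L (by omega) (by omega) (by omega)
  -- conclusion
  have hpp : ppq true w M = (M : ℝ) / (Nat.totient W * Real.log M) := by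
    unfold ppq
    rw [card_AA, if_pos rfl, hWdef]
  rw [hpp]
  calc ∑ b' ∈ (Icc 1 M).filter (fun b' => isArg true b' ∧ √(M : ℝ) < b' ∧
          b' ≡ a [MOD Wp w] ∧ b' ≠ b),
        gw w z (g.eval (b' : ℤ) - g.eval (b : ℤ)).natAbs ^ J
      ≤ ∑ b' ∈ (Icc 1 M).filter (fun b' => isArg true b' ∧ √(M : ℝ) < b' ∧
          b' ≡ a [MOD Wp w] ∧ b' ≠ b),
        gw w L (g.eval (b' : ℤ) - g.eval (b : ℤ)).natAbs ^ J * Real.exp 1 := by
        apply sum_le_sum
        intro b' hb'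
        rw [mem_filter, mem_Icc] at hb'
        have h0 := hne b' hb'.2.2.1 hb'.2.2.2.2
        have hle := hval b' hb'.1.1 hb'.1.2
        obtain ⟨h, hh⟩ : ∃ h, h = (g.eval (b' : ℤ) - g.eval (b : ℤ)).natAbs := ⟨_, rfl⟩
        rw [← hh] at h0 hle ⊢
        calc gw w z h ^ J ≤ (gw w L h * gw L z h) ^ J :=
              pow_le_pow_left₀ (zero_le_one.trans (one_le_gw _ _ _))
                (Pool.Agent.TH159.J1235.gw_le_mul _ _ _ _) J
          _ = gw w L h ^ J * gw L z h ^ J := mul_pow _ _ _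
          _ ≤ _ := mul_le_mul_of_nonneg_left (htail _ h0 hle)
              (pow_nonneg (zero_le_one.trans (one_le_gw _ _ _)) J)
    _ ≤ ∑ b' ∈ F0, gw w L (g.eval (b' : ℤ) - g.eval (b : ℤ)).natAbs ^ J * Real.exp 1 := by
        apply sum_le_sum_of_subset_of_nonneg
        · intro b' hb'
          rw [mem_filter] at hb' ⊢
          exact ⟨hb'.1, hb'.2.1 rfl, by rw [hWdef]; exact hb'.2.2.2.1⟩
        · intro b' _ _
          exact mul_nonneg (pow_nonneg (zero_le_one.trans (one_le_gw _ _ _)) J)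
            (Real.exp_pos 1).le
    _ = (∑ b' ∈ F0, gw w L (g.eval (b' : ℤ) - g.eval (b : ℤ)).natAbs ^ J) * Real.exp 1 := by
        rw [sum_mul]
    _ ≤ (10 * (M / (Nat.totient W * Real.log M)) * Real.exp 1) * Real.exp 1 :=
        mul_le_mul_of_nonneg_right hmain (Real.exp_pos 1).le
    _ = (10 * (Real.exp 1 * Real.exp 1)) * (M / (Nat.totient W * Real.log M)) := by ring
    _ ≤ 100 * (M / (Nat.totient W * Real.log M)) := by
        apply mul_le_mul_of_nonneg_right _ (by rw [← hx]; positivity)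
        have h1 := Real.exp_one_lt_d9
        have h2 := Real.exp_pos 1
        nlinarith

end Pool.Agent.TH359.J2924
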