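import Mathlib
import Pool.Agent.TH974.IH.Box
import Pool.Agent.TH731.J2146
import Pool.Agent.TH731.J2148
import Pool.Agent.TH558.J2147
import Pool.Agent.TH558.J2150
import Pool.Agent.TH731.J2332
import Pool.Agent.TH731.J2340

/-! IH-P6: the planar gadget. -/

set_option autoImplicit false

open Finset MeasureTheory ProbabilityTheory Filter Topology
open scoped ENNReal NNReal

namespace Pool.Agent.TH359.J2341

open Pool.Agent.TH974.IH Pool.Agent.TH731.IHN1 Pool.Agent.TH731.IHN3 Pool.Agent.TH558.IH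
  Pool.Agent.TH731.IHP

theorem gadget2 (n J C q : ℕ) (hn : 1 ≤ n) (hC : 1 ≤ C) (hJC : n + 2 ≤ J * C) (hq : q.Prime)
    (h1 : c0 < q) (h2 : q ≤ 4 ^ n) :
    ∃ S E, GD adj2 S E (1, 0) (0, 0) (c0 + 9) q ∧
      ∀ v ∈ S, 0 ≤ v.2 ∧ v.2 < J * 163800 ∧ -((C : ℤ) * 327600 + 4) ≤ v.1 ∧
        v.1 ≤ (C : ℤ) * 327600 + 5 := by
  obtain ⟨l₁, l₂, β₁, β₂, hl₁, hl₂, hok₁, hok₂, hβ₁, hβ₂, hsum, hp₁, hp₂, A, D, hAD, hqD, hqA⟩ :=
    digits n hn q hq h1 h2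
  obtain ⟨S₁, E₁, hO₁, hS₁⟩ := ladder2 P0 J C hC l₁ β₁ hok₁ hβ₁ (by omega)
  obtain ⟨S₂, E₂, hO₂, hS₂⟩ := ladder2 P0 J C hC l₂ β₂ hok₂ hβ₂ (by omega)
  -- the two shifted ladders
  have hA1 := OP_map (adj' := adj2) (fun v : ℤ × ℤ => (v.1 + 3, v.2)) hO₁
    (by rintro ⟨a, b⟩ _ ⟨c, d⟩ _ h; simp only [Prod.mk.injEq] at h ⊢; omega)
    (by
      intro x _ y _ h
      unfold adj2 at h ⊢
      simpa using h)
  have hA2 := OP_map (adj' := adj2) (fun v : ℤ × ℤ => (-2 - v.1, v.2)) hO₂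
    (by rintro ⟨a, b⟩ _ ⟨c, d⟩ _ h; simp only [Prod.mk.injEq] at h ⊢; omega)
    (by
      intro x _ y _ h
      unfold adj2 at h ⊢
      have : (-2 - x.1 - (-2 - y.1)) = -(x.1 - y.1) := by ring
      rw [this, abs_neg]
      exact h)
  have hG1 := OP_GD hA1 hq A D hAD hqD hqA
  have hmH : (2 : ℤ) * (P0.mH : ℤ) = 109200 := by norm_num [P0]
  have hR1 : ∀ v ∈ (fun v : ℤ × ℤ => (v.1 + 3, v.2)) '' S₁, 0 ≤ v.2 ∧ v.2 < J * 163800 ∧
      1 ≤ v.1 ∧ v.1 ≤ (C : ℤ) * 327600 + 5 ∧ (v.2 < 163800 → 3 ≤ v.1) := by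
    rintro _ ⟨⟨a, b⟩, hv, rfl⟩
    have := hS₁ hv
    simp only [Par.Reg, P0, Set.mem_ofPred_eq] at this
    push_cast at this
    simp only
    omega
  have hR2 : ∀ v ∈ (fun v : ℤ × ℤ => (-2 - v.1, v.2)) '' S₂, 0 ≤ v.2 ∧ v.2 < J * 163800 ∧
      -((C : ℤ) * 327600 + 4) ≤ v.1 ∧ v.1 ≤ 0 ∧ (v.2 < 163800 → v.1 ≤ -2) := by
    rintro _ ⟨⟨a, b⟩, hv, rfl⟩
    have := hS₂ hv
    simp only [Par.Reg, P0, Set.mem_ofPred_eq] at this
    push_cast at this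
    simp only
    omega
  simp only [hmH] at hG1 hA2
  norm_num only at hG1 hA2
  obtain ⟨EA, hEA⟩ := horz2 1 0 2 (by norm_num)
  obtain ⟨EB, hEB⟩ := horz2 (-2) 0 2 (by norm_num)
  obtain ⟨ET, hET⟩ := horz2 (-2) 109200 5 (by norm_num)
  norm_num only at hEA hEB hET
  have hJ : 1 ≤ (J : ℤ) := by
    rcases Nat.eq_zero_or_pos J with h | h
    · subst h; omega
    · exact_mod_cast h
  have r1 := OP_series adj2_irr (OP_symm hET) (OP_symm hA2) (by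
    rintro ⟨a, b⟩ hv hv'
    have := hR2 _ hv'
    simp only [Set.mem_ofPred_eq, Prod.mk.injEq] at hv this ⊢
    omega)
  have r2 := OP_series adj2_irr r1 hEB (by
    rintro ⟨a, b⟩ (hv | hv) hv'
    · simp only [Set.mem_ofPred_eq, Prod.mk.injEq] at hv hv' ⊢
      omega
    · have := hR2 _ hv
      simp only [Set.mem_ofPred_eq, Prod.mk.injEq] at hv' this ⊢
      omega)
  have r3 := GD_series_left adj2_irr hG1 r2 (by
    rintro ⟨a, b⟩ hv hv'
    have h3 := hR1 _ hv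
    rcases hv' with (hv' | hv') | hv'
    · simp only [Set.mem_ofPred_eq, Prod.mk.injEq] at hv' h3 ⊢
      omega
    · have := hR2 _ hv'
      simp only [Set.mem_ofPred_eq, Prod.mk.injEq] at h3 this ⊢
      omega
    · simp only [Set.mem_ofPred_eq, Prod.mk.injEq] at hv' h3 ⊢
      omega)
  have r4 := GD_series_right adj2_irr hEA r3 (by
    rintro ⟨a, b⟩ hv hv'
    rcases hv' with hv' | (hv' | hv') | hv'
    · have h3 := hR1 _ hv'
      simp only [Set.mem_ofPred_eq, Prod.mk.injEq] at hv h3 ⊢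
      omega
    · simp only [Set.mem_ofPred_eq, Prod.mk.injEq] at hv hv' ⊢
      omega
    · have := hR2 _ hv'
      simp only [Set.mem_ofPred_eq, Prod.mk.injEq] at hv this ⊢
      omega
    · simp only [Set.mem_ofPred_eq, Prod.mk.injEq] at hv hv' ⊢
      omega)
  have hr : (2 : ℚ) + (lad l₁ β₁ + (5 + lad l₂ β₂ + 2)) = c0 + 9 := by
    rw [← hsum]
    ring
  refine ⟨_, _, hr ▸ r4, ?_⟩
  have hJ2 : (163800 : ℤ) ≤ J * 163800 := by omega
  rintro ⟨a, b⟩ (hv | hv | (hv | hv) | hv)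
  · simp only [Set.mem_ofPred_eq] at hv ⊢
    omega
  · have h3 := hR1 _ hv
    simp only at h3 ⊢
    omega
  · simp only [Set.mem_ofPred_eq] at hv ⊢
    omega
  · have h3 := hR2 _ hv
    simp only at h3 ⊢
    omega
  · simp only [Set.mem_ofPred_eq] at hv ⊢
    omega

end Pool.Agent.TH359.J2341
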