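import Mathlib
import Pool.Agent.TH974.IH.Box
import Pool.Agent.TH558.J2147
import Pool.Agent.TH209.J2152
import Pool.Agent.TH999.J2151
import Pool.Agent.TH359.J2341

/-! IH-G6: the gadget and the path inside the inner cube. -/

set_option autoImplicit false

open Finset MeasureTheory ProbabilityTheory Filter Topology
open scoped ENNReal NNReal

namespace Pool.Agent.TH359.J2342

open Pool.Agent.TH974.IH Pool.Agent.TH558.IH Pool.Agent.TH209.IH1 Pool.Agent.TH999.J2151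
  Pool.Agent.TH359.J2341

/-- the chart -/
def ch {D : ℕ} (γ : ℕ → Zd D) (tb : ℤ) (v : ℤ × ℤ) : Zd (D + 1) :=
  Fin.cons (3 + v.2) (fun k => 3 + γ (tb + v.1).toNat k)

theorem adjd_shift {D : ℕ} {x y : Zd D} (h : adjd x y) :
    adjd (fun k => 3 + x k) (fun k => 3 + y k) := by
  obtain ⟨i, h | h⟩ := h
  · refine ⟨i, Or.inl ?_⟩
    funext k
    rw [h]
    simp only [Pi.add_apply]
    ring
  · refine ⟨i, Or.inr ?_⟩
    funext k
    rw [h]
    simp only [Pi.add_apply]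
    ring

theorem adj2_cases {x y : ℤ × ℤ} (h : adj2 x y) :
    (x.1 = y.1 ∧ x.2 = y.2 + 1) ∨ (x.1 = y.1 ∧ y.2 = x.2 + 1) ∨
      (x.2 = y.2 ∧ x.1 = y.1 + 1) ∨ (x.2 = y.2 ∧ y.1 = x.1 + 1) := by
  unfold adj2 at h
  rcases abs_cases (x.1 - y.1) with ⟨h1, h2⟩ | ⟨h1, h2⟩ <;>
    rcases abs_cases (x.2 - y.2) with ⟨h3, h4⟩ | ⟨h3, h4⟩ <;> omega

/-- the region of the chart -/
def Rg (N K : ℕ) (tb : ℤ) : Set (ℤ × ℤ) :=
  {v | -tb ≤ v.1 ∧ v.1 < N - tb ∧ 0 ≤ v.2 ∧ v.2 < K}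

theorem ch_inj {D K : ℕ} {γ : ℕ → Zd D} {tb : ℤ}
    (h2 : ∀ i < K ^ D, ∀ j < K ^ D, γ i = γ j → i = j) :
    Set.InjOn (ch γ tb) (Rg (K ^ D) K tb) := by
  rintro ⟨x, y⟩ ⟨a1, a2, a3, a4⟩ ⟨x', y'⟩ ⟨b1, b2, b3, b4⟩ h
  simp only at a1 a2 a3 a4 b1 b2 b3 b4
  have h0 := congrFun h 0
  simp only [ch, Fin.cons_zero] at h0
  have h3 : γ (tb + x).toNat = γ (tb + x').toNat := by
    funext k
    have := congrFun h k.succ
    simp only [ch, Fin.cons_succ] at this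
    linarith
  have h4 := h2 _ (by omega) _ (by omega) h3
  simp only [Prod.mk.injEq]
  omega

theorem ch_adj {D K : ℕ} {γ : ℕ → Zd D} {tb : ℤ}
    (h3 : ∀ i, i + 1 < K ^ D → adjd (γ i) (γ (i + 1))) (x y : ℤ × ℤ)
    (hx : x ∈ Rg (K ^ D) K tb) (hy : y ∈ Rg (K ^ D) K tb) (h : adj2 x y) :
    adjd (ch γ tb x) (ch γ tb y) := by
  obtain ⟨x1, x2⟩ := x
  obtain ⟨y1, y2⟩ := y
  obtain ⟨a1, a2, a3, a4⟩ := hx
  obtain ⟨b1, b2, b3, b4⟩ := hy
  simp only at a1 a2 a3 a4 b1 b2 b3 b4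
  rcases adj2_cases h with ⟨e1, e2⟩ | ⟨e1, e2⟩ | ⟨e1, e2⟩ | ⟨e1, e2⟩
  · simp only at e1 e2
    subst e1 e2
    apply adjd_symm
    unfold ch
    simp only
    rw [← add_assoc]
    exact adjd_cons_head _ _
  · simp only at e1 e2
    subst e1 e2
    unfold ch
    simp only
    rw [← add_assoc]
    exact adjd_cons_head _ _
  · simp only at e1 e2
    subst e1 e2
    apply adjd_symm
    unfold ch
    apply adjd_cons
    apply adjd_shift
    have : (tb + (y1 + 1)).toNat = (tb + y1).toNat + 1 := by omega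
    simp only [this]
    exact h3 _ (by omega)
  · simp only at e1 e2
    subst e1 e2
    unfold ch
    apply adjd_cons
    apply adjd_shift
    have : (tb + (x1 + 1)).toNat = (tb + x1).toNat + 1 := by omega
    simp only [this]
    exact h3 _ (by omega)

theorem ch_mem {D K : ℕ} {γ : ℕ → Zd D} {tb : ℤ}
    (h1 : ∀ i < K ^ D, ∀ k, 0 ≤ γ i k ∧ γ i k < K) (x : ℤ × ℤ) (hx : x ∈ Rg (K ^ D) K tb) :
    ch γ tb x ∈ cube (D + 1) 3 (K + 2) := by
  obtain ⟨a1, a2, a3, a4⟩ := hx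
  unfold cube
  rw [Fintype.mem_piFinset]
  intro k
  rw [Finset.mem_Icc]
  refine Fin.cases ?_ (fun k => ?_) k
  · simp only [ch, Fin.cons_zero]
    omega
  · simp only [ch, Fin.cons_succ]
    have := h1 (tb + x.1).toNat (by omega) k
    omega

theorem inner (D m : ℕ) (hD : 1 ≤ D) (hm : 4 ≤ m) :
    ∃ a b : Zd (D + 1), a 0 = 3 ∧ b 0 = 3 ∧
      (∃ p : List (Zd (D + 1)), p.Nodup ∧ List.IsChain adjd p ∧ p.head? = some a ∧
        p.getLast? = some b ∧ p.length = c0 + 10 ∧ ∀ v ∈ p, v ∈ cube (D + 1) 3 (KK m + 2)) ∧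
      ∀ q : ℕ, q.Prime → c0 < q → q ≤ 4 ^ (m ^ (D + 1)) →
        ∃ S E, GD adjd S E a b (c0 + 9) q ∧ ∀ v ∈ S, v ∈ cube (D + 1) 3 (KK m + 2) := by
  obtain ⟨γ, h1, h2, h3⟩ := ham D (KK m)
  obtain ⟨D, rfl⟩ : ∃ D', D = D' + 1 := ⟨D - 1, by omega⟩
  obtain ⟨C, hC⟩ : ∃ C, C = 1310400 ^ D * m ^ (D + 1) := ⟨_, rfl⟩
  have hK : KK m = 1310400 * m := rfl
  have hKD : KK m ^ (D + 1) = 1310400 * C := by
    rw [hC, hK, mul_pow, pow_succ 1310400 D]
    ring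
  have hC1 : 1 ≤ C := by
    rw [hC]
    exact Nat.one_le_iff_ne_zero.mpr (by positivity)
  obtain ⟨K, hKe⟩ : ∃ K, K = KK m := ⟨_, rfl⟩
  rw [← hKe] at h1 h2 h3 hK hKD ⊢
  set tb : ℤ := 655200 * C with htb
  refine ⟨ch γ tb (1, 0), ch γ tb (0, 0), rfl, rfl, ?_, ?_⟩
  · obtain ⟨p, hp1, hp2, hp3, hp4, hp5, hp6⟩ := apath2
    have hc0 : c0 = 9172800 := rfl
    have hpR : ∀ v ∈ p, v ∈ Rg (K ^ (D + 1)) K tb := by
      intro v hv
      have h := hp6 v hv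
      rw [hc0] at h
      unfold Rg
      simp only [Set.mem_ofPred_eq]
      have h7 : ((K ^ (D + 1) : ℕ) : ℤ) = 1310400 * C := by rw [hKD]; push_cast; ring
      rw [h7]
      push_cast at h
      omega
    refine ⟨p.map (ch γ tb), ?_, ?_, ?_, ?_, ?_, ?_⟩
    · refine List.Nodup.map_on ?_ hp1
      intro x hx y hy h
      exact ch_inj h2 (hpR x hx) (hpR y hy) h
    · rw [List.isChain_map]
      exact hp2.imp_of_mem_imp fun x y hx hy h => ch_adj h3 x y (hpR x hx) (hpR y hy) h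
    · rw [List.head?_map, hp3]
      rfl
    · rw [List.getLast?_map, hp4]
      rfl
    · rw [List.length_map, hp5]
    · intro v hv
      obtain ⟨x, hx, rfl⟩ := List.mem_map.mp hv
      exact ch_mem h1 x (hpR x hx)
  · intro q hq hq1 hq2
    have hmD : 1 ≤ m ^ (D + 1 + 1) := Nat.one_le_iff_ne_zero.mpr (by positivity)
    obtain ⟨S, E, hG, hS⟩ := gadget2 (m ^ (D + 1 + 1)) (8 * m) C q hmD hC1 (by
      have h9 : 8 * m * C = 8 * 1310400 ^ D * m ^ (D + 1 + 1) := by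
        rw [hC]; ring
      rw [h9]
      have h10 : 1 ≤ 1310400 ^ D := Nat.one_le_iff_ne_zero.mpr (by positivity)
      nlinarith) hq hq1 hq2
    have hSR : ∀ v ∈ S, v ∈ Rg (K ^ (D + 1)) K tb := by
      intro v hv
      have h := hS v hv
      unfold Rg
      simp only [Set.mem_ofPred_eq]
      have h7 : ((K ^ (D + 1) : ℕ) : ℤ) = 1310400 * C := by rw [hKD]; push_cast; ring
      rw [h7]
      push_cast at h
      omega
    refine ⟨_, _, GD_map (adj' := adjd) (ch γ tb) hG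
      (fun x hx y hy h => ch_inj h2 (hSR x hx) (hSR y hy) h)
      (fun x hx y hy h => ch_adj h3 x y (hSR x hx) (hSR y hy) h), ?_⟩
    rintro _ ⟨x, hx, rfl⟩
    exact ch_mem h1 x (hSR x hx)

end Pool.Agent.TH359.J2342
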