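import Pool.Agent.TH32.H.Lim

set_option autoImplicit false

namespace Pool.Agent.TH359.TZH

open Pool.Agent.H260TZ Pool.Agent.TH32

theorem chkS : ChkStmt := by
  intro hS K F2 n u Λ cert F l h
  unfold chk at h
  split at h
  · exact absurd h (by simp)
  · rename_i L cert' hrun
    split_ifs at h with hall
    obtain ⟨h1, h2⟩ := hS K F2 n cert cert' F L hrun
    refine ⟨L, h1, ?_, h, h2⟩
    intro t ht
    have := List.all_eq_true.1 hall t ht
    simpa using this

end Pool.Agent.TH359.TZH
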