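import Pool.Agent.TH32.H.Tool

set_option autoImplicit false

namespace Pool.Agent.TH359.TZH

open Pool.Agent.H260TZ Pool.Agent.TH32

lemma getD_addF (f g : Fm) (i : ℕ) : (addF f g).getD i 0 = f.getD i 0 + g.getD i 0 := by
  induction f generalizing g i with
  | nil => simp [addF]
  | cons a f ih =>
    cases g with
    | nil => simp [addF]
    | cons b g =>
      cases i with
      | zero => simp [addF]
      | succ i => simpa [addF] using ih g i

lemma getD_negF (f : Fm) (i : ℕ) : (negF f).getD i 0 = -f.getD i 0 := by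
  induction f generalizing i with
  | nil => simp [negF]
  | cons a f ih =>
    cases i with
    | zero => simp [negF]
    | succ i => simpa [negF] using ih i

section
variable {K : ℕ} (v : Fin K → ℕ)

lemma ev_addF (f g : Fm) : ev (addF f g) v = ev f v + ev g v := by
  unfold ev
  simp only [getD_addF, add_mul, Finset.sum_add_distrib]
  ring

lemma ev_negF (f : Fm) : ev (negF f) v = -ev f v := by
  unfold ev
  simp only [getD_negF, neg_mul, Finset.sum_neg_distrib]
  ring

lemma ev_subF (f g : Fm) : ev (subF f g) v = ev f v - ev g v := by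
  unfold subF
  rw [ev_addF, ev_negF, sub_eq_add_neg]

lemma ev_nil : ev [] v = 0 := by
  unfold ev
  simp

lemma ev_one : ev [1] v = 1 := by
  unfold ev
  simp

end

noncomputable def rqV (a b : ℤ) (t : ℝ) : ℝ := if a ≤ b then t else 0
noncomputable def mnV (a b : ℤ) (g : ℤ → ℝ) : ℝ := g (min a b)
noncomputable def mxV (a b : ℤ) (g : ℤ → ℝ) : ℝ := g (max a b)

section
variable {K : ℕ} {v : Fin K → ℕ} {q x : ℝ}

lemma val_rq {a b : Fm} {a' b' : ℤ} {t : Fac} {t' : ℝ} (ha : ev a v = a') (hb : ev b v = b')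
    (ht : t.val q x v = t') : (rq a b t).val q x v = rqV a' b' t' := by
  unfold rq rqV
  rw [Fac.val, ev_subF, ha, hb, ht]
  congr 1
  exact propext sub_nonneg

lemma val_mn {a b : Fm} {a' b' : ℤ} {k : Fm → Fac} {g : ℤ → ℝ} (ha : ev a v = a')
    (hb : ev b v = b') (hk : ∀ c, (k c).val q x v = g (ev c v)) :
    (mnK a b k).val q x v = mnV a' b' g := by
  unfold mnK mnV
  rw [Fac.val, ev_subF, hk, hk, ha, hb]
  split_ifs with h
  · rw [min_eq_left (sub_nonneg.1 h)]
  · rw [min_eq_right (by omega)]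

lemma val_mx {a b : Fm} {a' b' : ℤ} {k : Fm → Fac} {g : ℤ → ℝ} (ha : ev a v = a')
    (hb : ev b v = b') (hk : ∀ c, (k c).val q x v = g (ev c v)) :
    (mxK a b k).val q x v = mxV a' b' g := by
  unfold mxK mxV
  rw [Fac.val, ev_subF, hk, hk, ha, hb]
  split_ifs with h
  · rw [max_eq_right (sub_nonneg.1 h)]
  · rw [max_eq_left (by omega)]

end

noncomputable def FFcV (b n mc md Mc Md Je s₀ c₀ d₀ e₀ E : ℤ)
    (g : ℤ → ℤ → ℤ → ℤ → ℤ → ℤ → ℝ) : ℝ :=
  rqV n (mc + md) <|
  mnV s₀ n fun s =>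
  rqV Mc (b + s) <| rqV Md (b + s) <|
  mnV c₀ n fun c => mnV d₀ n fun d =>
  rqV (n + Mc) (b + (c + d)) <| rqV (n + Md) (b + (c + d)) <|
  mnV mc n fun x => rqV x ((b + s) + c - Mc) <|
  mnV md n fun y => rqV y ((b + s) + d - Md) <|
  mnV e₀ n fun e =>
  mxV (b - Je) 0 fun bJ =>
  mnV n (e + bJ) fun T =>
  mxV (n - md) 0 fun G => mxV (n - mc) 0 fun H =>
  g ((b + s) + d - Md) ((b + s) + c - Mc) T G H (E + ((T - n) + ((b - Je) - bJ)))

lemma val_FFc {K : ℕ} {v : Fin K → ℕ} {q x : ℝ} (b n mc md Mc Md Je s₀ c₀ d₀ e₀ E : Fm)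
    (k : Fm → Fm → Fm → Fm → Fm → Fm → Fac) (g : ℤ → ℤ → ℤ → ℤ → ℤ → ℤ → ℝ)
    (hk : ∀ rg rh T G H base, (k rg rh T G H base).val q x v =
      g (ev rg v) (ev rh v) (ev T v) (ev G v) (ev H v) (ev base v)) :
    (FFc b n mc md Mc Md Je s₀ c₀ d₀ e₀ E k).val q x v =
      FFcV (ev b v) (ev n v) (ev mc v) (ev md v) (ev Mc v) (ev Md v) (ev Je v) (ev s₀ v)
        (ev c₀ v) (ev d₀ v) (ev e₀ v) (ev E v) g := by
  unfold FFc FFcV
  refine val_rq rfl (ev_addF _ _ _) ?_
  refine val_mn rfl rfl fun s => ?_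
  refine val_rq rfl (ev_addF _ _ _) ?_
  refine val_rq rfl (ev_addF _ _ _) ?_
  refine val_mn rfl rfl fun c => ?_
  refine val_mn rfl rfl fun d => ?_
  refine val_rq (ev_addF _ _ _) (by rw [ev_addF, ev_addF]) ?_
  refine val_rq (ev_addF _ _ _) (by rw [ev_addF, ev_addF]) ?_
  refine val_mn rfl rfl fun x => ?_
  refine val_rq rfl (by rw [ev_subF, ev_addF, ev_addF]) ?_
  refine val_mn rfl rfl fun y => ?_
  refine val_rq rfl (by rw [ev_subF, ev_addF, ev_addF]) ?_
  refine val_mn rfl rfl fun e => ?_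
  refine val_mx (ev_subF _ _ _) (ev_nil _) fun bJ => ?_
  refine val_mn rfl (ev_addF _ _ _) fun T => ?_
  refine val_mx (ev_subF _ _ _) (ev_nil _) fun G => ?_
  refine val_mx (ev_subF _ _ _) (ev_nil _) fun H => ?_
  rw [hk]
  simp only [ev_addF, ev_subF]

lemma val_lf1 {K : ℕ} {v : Fin K → ℕ} {q x : ℝ} (e f : Fm) :
    (Fac.lf [1] e f).val q x v = q ^ ev e v * x ^ ev f v := by
  rw [Fac.val, ev_one]
  push_cast
  ring

noncomputable def g1 (q : ℝ) (xX : ℝ) (n mc md : ℤ) (rg rh T G H base : ℤ) : ℝ :=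
  if n ≤ rg then
    if n ≤ rh then
      if T ≤ G + H then q ^ (base - (G + H)) * xX else q ^ (base - T) * xX
    else q ^ (base - (max G (T - (rh - mc)) + H)) * xX
  else
    if n ≤ rh then q ^ (base - (max H (T - (rg - md)) + G)) * xX
    else if T ≤ (rg - md) + (rh - mc) then q ^ (base - (G + H)) * xX else 0

noncomputable def g2 (q : ℝ) (xX : ℝ) (n : ℤ) (rg rh T G H base : ℤ) : ℝ :=
  if n ≤ rg then if n ≤ rh then if 1 + (G + H) ≤ T then
    ((T - (G + H) : ℤ) : ℝ) * q ^ (base - T) * xX else 0 else 0 else 0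

lemma zq {q : ℝ} (hq : 0 < q) {a c d E : ℤ} (X : ℝ) (h : a = E + c + d) :
    q ^ a * X = q ^ E * X * (q ^ c * q ^ d) := by
  rw [h, zpow_add₀ hq.ne', zpow_add₀ hq.ne']
  ring

lemma zq2 {q : ℝ} (hq : 0 < q) {a c d E t t' : ℤ} {X : ℝ} (h : a = E + c + d) (ht : t = t') :
    (t : ℝ) * q ^ a * X = q ^ E * X * (q ^ c * ((t' : ℝ) * q ^ d)) := by
  rw [h, ht, zpow_add₀ hq.ne', zpow_add₀ hq.ne']
  ring

lemma FFcV_eq (b n mc md Mc Md Je s₀ c₀ d₀ e₀ E : ℤ) (g : ℤ → ℤ → ℤ → ℤ → ℤ → ℤ → ℝ) :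
    FFcV b n mc md Mc Md Je s₀ c₀ d₀ e₀ E g =
      let s := min s₀ n; let c := min c₀ n; let d := min d₀ n; let e := min e₀ n
      let T := min n (e + max (b - Je) 0)
      let G := max (n - md) 0
      let H := max (n - mc) 0
      if n ≤ mc + md ∧ Mc ≤ b + s ∧ Md ≤ b + s ∧ n + Mc ≤ b + c + d ∧ n + Md ≤ b + c + d ∧
        min mc n + Mc ≤ b + s + c ∧ min md n + Md ≤ b + s + d then
      g (b + s + d - Md) (b + s + c - Mc) T G H
        (E + ((T - n) + ((b - Je) - max (b - Je) 0)))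
      else 0 := by
  unfold FFcV rqV mnV mxV
  dsimp only
  by_cases h1 : n ≤ mc + md
  swap
  · rw [if_neg h1, if_neg (fun h => h1 h.1)]
  rw [if_pos h1]
  by_cases h2 : Mc ≤ b + min s₀ n
  swap
  · rw [if_neg h2, if_neg (fun h => h2 h.2.1)]
  rw [if_pos h2]
  by_cases h3 : Md ≤ b + min s₀ n
  swap
  · rw [if_neg h3, if_neg (fun h => h3 h.2.2.1)]
  rw [if_pos h3]
  by_cases h4 : n + Mc ≤ b + (min c₀ n + min d₀ n)
  swap
  · rw [if_neg h4, if_neg (fun h => h4 (by have := h.2.2.2.1; omega))]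
  rw [if_pos h4]
  by_cases h5 : n + Md ≤ b + (min c₀ n + min d₀ n)
  swap
  · rw [if_neg h5, if_neg (fun h => h5 (by have := h.2.2.2.2.1; omega))]
  rw [if_pos h5]
  by_cases h6 : min mc n ≤ b + min s₀ n + min c₀ n - Mc
  swap
  · rw [if_neg h6, if_neg (fun h => h6 (by have := h.2.2.2.2.2.1; omega))]
  rw [if_pos h6]
  by_cases h7 : min md n ≤ b + min s₀ n + min d₀ n - Md
  swap
  · rw [if_neg h7, if_neg (fun h => h7 (by have := h.2.2.2.2.2.2; omega))]
  rw [if_pos h7, if_pos ⟨h1, h2, h3, by omega, by omega, by omega, by omega⟩]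

theorem ffval : FFvalStmt := by
  intro K v q x hq hx b n mc md Mc Md Je s c d e E X
  constructor
  · unfold FF1
    rw [val_FFc (g := g1 q (x ^ ev X v) (ev n v) (ev mc v) (ev md v)), FFcV_eq]
    · unfold F1 g1
      dsimp only
      split_ifs <;> first
        | exact zq hq _ (by omega)
        | (exfalso; omega)
        | (rw [mul_zero, mul_zero])
        | (rw [mul_zero])
    · intro rg rh T G H base
      unfold g1
      rw [Fac.val, ev_subF]
      simp only [sub_nonneg]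
      congr 1
      · rw [Fac.val, ev_subF]
        simp only [sub_nonneg]
        congr 1
        · rw [Fac.val, ev_subF, ev_addF]
          simp only [sub_nonneg]
          rw [val_lf1, val_lf1, ev_subF, ev_subF, ev_addF]
        · rw [val_mx (g := fun m => q ^ (ev base v - (m + ev H v)) * x ^ ev X v) rfl rfl]
          · unfold mxV
            rw [ev_subF, ev_subF]
          · intro g
            rw [val_lf1, ev_subF, ev_addF]
      · rw [Fac.val, ev_subF]
        simp only [sub_nonneg]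
        congr 1
        · rw [val_mx (g := fun m => q ^ (ev base v - (m + ev G v)) * x ^ ev X v) rfl rfl]
          · unfold mxV
            rw [ev_subF, ev_subF]
          · intro g
            rw [val_lf1, ev_subF, ev_addF]
        · rw [val_rq rfl rfl rfl]
          unfold rqV
          rw [ev_addF, ev_subF, ev_subF, val_lf1, ev_subF, ev_addF]
  · unfold FF2
    rw [val_FFc (g := g2 q (x ^ ev X v) (ev n v)), FFcV_eq]
    · unfold F2 g2
      dsimp only
      split_ifs <;> first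
        | (exfalso; omega)
        | (exact zq2 hq (by omega) (by omega))
        | (rw [mul_zero, mul_zero])
        | (rw [mul_zero])
    · intro rg rh T G H base
      unfold g2
      rw [val_rq rfl rfl rfl, val_rq rfl rfl rfl, val_rq rfl rfl rfl]
      unfold rqV
      rw [ev_addF, ev_addF, ev_one, Fac.val, ev_subF, ev_subF, ev_addF]

end Pool.Agent.TH359.TZH
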