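import Pool.Agent.TH359.TZH_Base

set_option autoImplicit false

namespace Pool.Agent.TH359.TZH

open Pool.Agent.H260TZ Pool.Agent.TH32

theorem lp2 : LP2Stmt := by
  intro R _ _ D b m k z n τ₁ τ₂ l z₁ hl hz hu s c d hs hc hd
  set dd : R := D.t ^ (k - l) * τ₁ + z₁ * τ₂ with hdd
  set M : ℕ := m + k with hM
  set A : ℕ := D.lev n τ₁ with hA
  have hsA : s = min A c := by rw [hs, hc]
  have hAn : A ≤ n := D.lev_le n τ₁
  have hcn : c ≤ n := hc ▸ D.lev_le n τ₂
  have hdn : d ≤ n := hd ▸ D.lev_le n _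
  have hsd : s ≤ d := by
    rw [← lev_iff D hd (by omega), hdd]
    have h1 : D.t ^ s ∣ τ₁ := (lev_iff D hA (by omega)).2 (by omega)
    have h2 : D.t ^ s ∣ τ₂ := (lev_iff D hc (by omega)).2 (by omega)
    exact dvd_add (h1.mul_left _) (h2.mul_left _)
  have ek : D.t ^ M = D.t ^ (k - l) * (D.t ^ m * D.t ^ l) := by
    rw [← pow_add, ← pow_add]
    congr 1
    omega
  have hnn : n = D.lev n (D.t ^ n) := by
    symm
    apply lev_unique D le_rfl
    intro j hj
    rw [tp_dvd_tp]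
  -- description of the condition
  have key : ∀ w, C2 D b (NN D m k z n τ₁ τ₂) w ↔
      (M ≤ b + s ∧ n + M ≤ b + c + d ∧
        ∃ e e', D.t ^ b * τ₁ = D.t ^ M * e ∧ D.t ^ b * τ₂ = D.t ^ M * e' ∧
          D.t ^ n ∣ D.t ^ (m + l) * z₁ * w + e * τ₂ ∧ D.t ^ n ∣ D.t ^ M * w - e' * τ₂) := by
    intro w
    constructor
    · intro h
      have h1 := h _ (n1_mem D m k n z τ₁ τ₂)
      have h2 := h _ (n2_mem D m k n z τ₁ τ₂)
      have h3 := h _ (n3_mem D m k n z τ₁ τ₂)
      rw [mem_c] at h1 h2 h3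
      simp only at h1 h2 h3
      obtain ⟨e, h11, h12⟩ := h1
      obtain ⟨e', h21, h22⟩ := h2
      obtain ⟨e'', h31, h32⟩ := h3
      rw [← hM] at h11 h21 h31
      have hbn : M ≤ b + n := by
        rw [← tp_dvd_tp D, pow_add D.t b n]
        exact ⟨e'', h31⟩
      have hMA : M ≤ b + A := (dvd_tb D hA hbn).1 ⟨e, h11⟩
      have hMc : M ≤ b + c := (dvd_tb D hc hbn).1 ⟨e', h21⟩
      have hMs : M ≤ b + s := by omega
      have hI : D.t ^ n ∣ D.t ^ (m + l) * z₁ * w + e * τ₂ := by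
        have e1 : D.t ^ (m + l) * z₁ * w + e * τ₂ = -(-(D.t ^ m * z) * w - e * τ₂) := by
          rw [hz, pow_add]
          ring
        rw [e1, dvd_neg]
        exact h12
      have hE : D.t ^ b * dd = D.t ^ M * (D.t ^ (k - l) * e + z₁ * e') := by
        rw [hdd]
        linear_combination D.t ^ (k - l) * h11 + z₁ * h21
      have hIII : D.t ^ n ∣ (D.t ^ (k - l) * e + z₁ * e') * τ₂ := by
        have e1 : (D.t ^ (k - l) * e + z₁ * e') * τ₂ =
            D.t ^ (k - l) * (D.t ^ (m + l) * z₁ * w + e * τ₂) -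
              z₁ * (D.t ^ M * w - e' * τ₂) := by
          rw [ek, pow_add D.t m l]
          ring
        rw [e1]
        exact dvd_sub (hI.mul_left _) (h22.mul_left _)
      rw [L1 D hd hc hE (by omega) hMc le_rfl] at hIII
      exact ⟨hMs, by omega, e, e', h11, h21, hI, h22⟩
    · rintro ⟨hMs, hcd, e, e', h11, h21, hI, hII⟩ ⟨⟨x, y⟩, a⟩ hu'
      rw [mem_NN] at hu'
      obtain ⟨e1, e2, e3, g1, g2, g3⟩ := hu'
      obtain ⟨e'', h31⟩ := (dvd_tb D hnn (by omega : M ≤ b + n)).2 (by omega)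
      have h32 : D.t ^ n ∣ e'' * τ₂ := (L1 D hnn hc h31 (by omega) (by omega) le_rfl).2 (by omega)
      rw [mem_c]
      simp only
      refine ⟨e1 * e + e2 * e' + e3 * e'', ?_, ?_⟩
      · rw [g3, ← hM]
        linear_combination e1 * h11 + e2 * h21 + e3 * h31
      · rw [g1, hz]
        have e4 : (-(D.t ^ m * (D.t ^ l * z₁)) * e1 + D.t ^ (m + k) * e2) * w -
            (e1 * e + e2 * e' + e3 * e'') * τ₂ =
            e2 * (D.t ^ M * w - e' * τ₂) - e1 * (D.t ^ (m + l) * z₁ * w + e * τ₂) -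
              e3 * (e'' * τ₂) := by
          rw [pow_add D.t m l, hM]
          ring
        rw [e4]
        exact dvd_sub (dvd_sub (hII.mul_left _) (hI.mul_left _)) (h32.mul_left _)
  by_cases hMs : M ≤ b + s
  swap
  · refine ⟨⟨?_, fun h => absurd h.1 hMs⟩, fun w₀ h0 => absurd ((key w₀).1 h0).1 hMs⟩
    rintro ⟨w, hw⟩
    exact absurd ((key w).1 hw).1 hMs
  by_cases hcd : n + M ≤ b + c + d
  swap
  · refine ⟨⟨?_, fun h => absurd h.2.1 hcd⟩, fun w₀ h0 => absurd ((key w₀).1 h0).2.1 hcd⟩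
    rintro ⟨w, hw⟩
    exact absurd ((key w).1 hw).2.1 hcd
  obtain ⟨e, he⟩ := (dvd_tb D hA (by omega : M ≤ b + n)).2 (by omega)
  obtain ⟨e', he'⟩ := (dvd_tb D hc (by omega : M ≤ b + n)).2 (by omega)
  have hE : D.t ^ b * dd = D.t ^ M * (D.t ^ (k - l) * e + z₁ * e') := by
    rw [hdd]
    linear_combination D.t ^ (k - l) * he + z₁ * he'
  have hIII : D.t ^ n ∣ (D.t ^ (k - l) * e + z₁ * e') * τ₂ :=
    (L1 D hd hc hE (by omega) (by omega) le_rfl).2 (by omega)
  have key2 : ∀ w, C2 D b (NN D m k z n τ₁ τ₂) w ↔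
      (D.t ^ n ∣ D.t ^ (m + l) * z₁ * w + e * τ₂ ∧ D.t ^ n ∣ D.t ^ M * w - e' * τ₂) := by
    intro w
    rw [key]
    constructor
    · rintro ⟨_, _, f, f', h1, h1', h2, h3⟩
      have ef : f = e := mul_left_cancel₀ (D.tpow_ne M) (h1.symm.trans he)
      have ef' : f' = e' := mul_left_cancel₀ (D.tpow_ne M) (h1'.symm.trans he')
      rw [← ef, ← ef']
      exact ⟨h2, h3⟩
    · rintro ⟨h2, h3⟩
      exact ⟨hMs, hcd, e, e', he, he', h2, h3⟩
  have rel : ∀ w, z₁ * (D.t ^ M * w - e' * τ₂) =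
      D.t ^ (k - l) * (D.t ^ (m + l) * z₁ * w + e * τ₂) -
        (D.t ^ (k - l) * e + z₁ * e') * τ₂ := by
    intro w
    rw [ek, pow_add D.t m l]
    ring
  rcases Nat.lt_or_ge l k with hlk | hlk
  · -- z₁ is a unit
    have hz1 := hu hlk
    have key3 : ∀ w, C2 D b (NN D m k z n τ₁ τ₂) w ↔
        D.t ^ n ∣ D.t ^ (m + l) * z₁ * w - (-(e * τ₂)) := by
      intro w
      rw [key2, sub_neg_eq_add]
      constructor
      · exact fun h => h.1
      · intro h
        refine ⟨h, ?_⟩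
        rw [← hz1.dvd_mul_left, rel]
        exact dvd_sub (h.mul_left _) hIII
    have K : ∀ μ ≤ n, (D.t ^ μ ∣ -(e * τ₂) ↔ μ + M ≤ b + s + c) := by
      intro μ hμ
      rw [dvd_neg, L1 D hA hc he (by omega) (by omega) hμ]
      rcases Nat.lt_or_ge c A with hcA | hcA
      · have hdc : d ≤ c := by
          by_contra hcon
          push Not at hcon
          have h1 : D.t ^ (c + 1) ∣ dd := (lev_iff D hd (by omega)).2 (by omega)
          have h2 : D.t ^ (c + 1) ∣ τ₁ := (lev_iff D hA (by omega)).2 (by omega)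
          have h3 : D.t ^ (c + 1) ∣ z₁ * τ₂ := by
            have := dvd_sub h1 (h2.mul_left (D.t ^ (k - l)))
            rwa [hdd, add_sub_cancel_left] at this
          rw [hz1.dvd_mul_left, lev_iff D hc (by omega)] at h3
          omega
        omega
      · omega
    have hfin := FL D (mc := m + l) hz1 K
    refine ⟨?_, fun w₀ h0 => ?_⟩
    · simp only [key3]
      rw [hfin.1]
      exact ⟨fun h => ⟨hMs, hcd, h⟩, fun h => h.2.2⟩
    · simp only [key3] at h0 ⊢
      exact hfin.2 w₀ h0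
  · -- l = k
    have hkl : k - l = 0 := by omega
    have hml : M = m + l := by omega
    have key3 : ∀ w, C2 D b (NN D m k z n τ₁ τ₂) w ↔
        D.t ^ n ∣ D.t ^ (m + l) * 1 * w - e' * τ₂ := by
      intro w
      rw [key2, mul_one, ← hml]
      constructor
      · exact fun h => h.2
      · intro h
        refine ⟨?_, h⟩
        have e4 : D.t ^ M * z₁ * w + e * τ₂ = z₁ * (D.t ^ M * w - e' * τ₂) +
            (D.t ^ (k - l) * e + z₁ * e') * τ₂ := by
          rw [hkl, pow_zero]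
          ring
        rw [e4]
        exact dvd_add (h.mul_left _) hIII
    have K : ∀ μ ≤ n, (D.t ^ μ ∣ e' * τ₂ ↔ μ + M ≤ b + s + c) := by
      intro μ hμ
      rw [L1 D hc hc he' (by omega) (by omega) hμ]
      rcases Nat.lt_or_ge A c with hcA | hcA
      · have hdA : d ≤ A := by
          by_contra hcon
          push Not at hcon
          have h1 : D.t ^ (A + 1) ∣ dd := (lev_iff D hd (by omega)).2 (by omega)
          have h2 : D.t ^ (A + 1) ∣ τ₂ := (lev_iff D hc (by omega)).2 (by omega)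
          have h3 : D.t ^ (A + 1) ∣ τ₁ := by
            have := dvd_sub h1 (h2.mul_left z₁)
            rwa [hdd, hkl, pow_zero, one_mul, add_sub_cancel_right] at this
          rw [lev_iff D hA (by omega)] at h3
          omega
        omega
      · omega
    have hfin := FL D (mc := m + l) isUnit_one K
    refine ⟨?_, fun w₀ h0 => ?_⟩
    · simp only [key3]
      rw [hfin.1]
      exact ⟨fun h => ⟨hMs, hcd, h⟩, fun h => h.2.2⟩
    · simp only [key3] at h0 ⊢
      exact hfin.2 w₀ h0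

end Pool.Agent.TH359.TZH
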