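import Pool.Agent.TH359.TZH_Base

set_option autoImplicit false

namespace Pool.Agent.TH359.TZH

open Pool.Agent.H260TZ Pool.Agent.TH32

theorem lp3 : LP3Stmt := by
  intro R _ _ D b m k z n τ₁ τ₂ l z₁ hl hz hu s c d hs hc hd
  set dd : R := D.t ^ (k - l) * τ₁ + z₁ * τ₂ with hdd
  set M : ℕ := m + k - l with hM
  set A : ℕ := D.lev n τ₁ with hA
  have hsA : s = min A c := by rw [hs, hc]
  have hAn : A ≤ n := D.lev_le n τ₁
  have hcn : c ≤ n := hc ▸ D.lev_le n τ₂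
  have hdn : d ≤ n := hd ▸ D.lev_le n _
  have hsd : s ≤ d := by
    rw [← lev_iff D hd (by omega), hdd]
    have h1 : D.t ^ s ∣ τ₁ := (lev_iff D hA (by omega)).2 (by omega)
    have h2 : D.t ^ s ∣ τ₂ := (lev_iff D hc (by omega)).2 (by omega)
    exact dvd_add (h1.mul_left _) (h2.mul_left _)
  -- description of the condition
  have key : ∀ w, C3 D b (NN D m k z n τ₁ τ₂) w ↔
      (M ≤ b + s ∧ n + M ≤ b + c + d ∧
        ∃ f, D.t ^ b * τ₁ = D.t ^ M * f ∧ D.t ^ n ∣ D.t ^ m * 1 * w - f * dd) := by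
    intro w
    constructor
    · intro h
      have h1 := h _ (n1_mem D m k n z τ₁ τ₂)
      have h2 := h _ (n2_mem D m k n z τ₁ τ₂)
      have h3 := h _ (n3_mem D m k n z τ₁ τ₂)
      rw [mem_d D hl hz hu] at h1 h2 h3
      simp only at h1 h2 h3
      obtain ⟨f1, h11, h12⟩ := h1
      obtain ⟨f2, h21, h22⟩ := h2
      obtain ⟨f3, h31, h32⟩ := h3
      rw [← hM] at h11 h21 h31
      have hbn : M ≤ b + n := by
        rw [← tp_dvd_tp D, pow_add]
        exact ⟨f3, h31⟩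
      have hMA : M ≤ b + A := (dvd_tb D hA hbn).1 ⟨f1, h11⟩
      have hMc : M ≤ b + c := (dvd_tb D hc hbn).1 ⟨f2, h21⟩
      have hMs : M ≤ b + s := by omega
      refine ⟨hMs, ?_, f1, h11, ?_⟩
      · rw [mul_zero, zero_sub, dvd_neg, L1 D hc hd h21 hMc (by omega) le_rfl] at h22
        exact h22
      · have e : D.t ^ m * 1 * w - f1 * dd = w * D.t ^ m - f1 * dd := by ring
        rw [e]
        exact h12
    · rintro ⟨hMs, hcd, f1, h11, h12⟩ ⟨⟨x, y⟩, a⟩ hu'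
      rw [mem_NN] at hu'
      obtain ⟨e1, e2, e3, g1, g2, g3⟩ := hu'
      obtain ⟨f2, h21⟩ := (dvd_tb D hc (by omega : M ≤ b + n)).2 (by omega)
      have h22 : D.t ^ n ∣ f2 * dd := (L1 D hc hd h21 (by omega) (by omega) le_rfl).2 hcd
      have hnn : n = D.lev n (D.t ^ n) := by
        symm
        apply lev_unique D le_rfl
        intro j hj
        rw [tp_dvd_tp]
      obtain ⟨f3, h31⟩ := (dvd_tb D hnn (by omega : M ≤ b + n)).2 (by omega)
      have h32 : D.t ^ n ∣ f3 * dd := (L1 D hnn hd h31 (by omega) (by omega) le_rfl).2 (by omega)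
      rw [mem_d D hl hz hu]
      simp only
      refine ⟨e1 * f1 + e2 * f2 + e3 * f3, ?_, ?_⟩
      · rw [g3]
        linear_combination e1 * h11 + e2 * h21 + e3 * h31
      · rw [g2]
        have e : w * (D.t ^ m * e1) - (e1 * f1 + e2 * f2 + e3 * f3) * dd =
            e1 * (D.t ^ m * 1 * w - f1 * dd) - e2 * (f2 * dd) - e3 * (f3 * dd) := by ring
        rw [e]
        exact dvd_sub (dvd_sub (h12.mul_left _) (h22.mul_left _)) (h32.mul_left _)
  by_cases hMs : M ≤ b + s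
  swap
  · refine ⟨⟨?_, fun h => absurd h.1 hMs⟩, fun w₀ h0 => absurd ((key w₀).1 h0).1 hMs⟩
    rintro ⟨w, hw⟩
    exact absurd ((key w).1 hw).1 hMs
  by_cases hcd : n + M ≤ b + c + d
  swap
  · refine ⟨⟨?_, fun h => absurd h.2.1 hcd⟩, fun w₀ h0 => absurd ((key w₀).1 h0).2.1 hcd⟩
    rintro ⟨w, hw⟩
    exact absurd ((key w).1 hw).2.1 hcd
  obtain ⟨f, hf⟩ := (dvd_tb D hA (by omega : M ≤ b + n)).2 (by omega)
  have key2 : ∀ w, C3 D b (NN D m k z n τ₁ τ₂) w ↔ D.t ^ n ∣ D.t ^ m * 1 * w - f * dd := by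
    intro w
    rw [key]
    constructor
    · rintro ⟨_, _, f', h1, h2⟩
      have : f' = f := mul_left_cancel₀ (D.tpow_ne M) (h1.symm.trans hf)
      rw [← this]
      exact h2
    · intro h
      exact ⟨hMs, hcd, f, hf, h⟩
  have K : ∀ μ ≤ n, (D.t ^ μ ∣ f * dd ↔ μ + M ≤ b + s + d) := by
    intro μ hμ
    rw [L1 D hA hd hf (by omega) (by omega) hμ]
    omega
  have hfin := FL D (mc := m) isUnit_one K
  refine ⟨?_, fun w₀ h0 => ?_⟩
  · simp only [key2]
    rw [hfin.1]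
    exact ⟨fun h => ⟨hMs, hcd, h⟩, fun h => h.2.2⟩
  · simp only [key2] at h0 ⊢
    exact hfin.2 w₀ h0

end Pool.Agent.TH359.TZH
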