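import Pool.Agent.TH359.TZH_Base

set_option autoImplicit false

namespace Pool.Agent.TH359.TZH

open Pool.Agent.H260TZ Pool.Agent.TH32

/-- the preimage of a set under a surjection of finite groups -/
lemma fiber_card {G H : Type} [AddCommGroup G] [AddCommGroup H] (f : G →+ H)
    (hf : Function.Surjective f) (S : H → Prop) :
    Nat.card {p // S (f p)} = Nat.card {w // S w} * Nat.card f.ker := by
  rw [← Nat.card_prod]
  choose s hs using hf
  refine Nat.card_congr
    { toFun := fun p => (⟨f p.1, p.2⟩, ⟨p.1 - s (f p.1), ?_⟩)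
      invFun := fun x => ⟨s x.1.1 + x.2.1, ?_⟩
      left_inv := ?_
      right_inv := ?_ }
  · rw [AddMonoidHom.mem_ker, map_sub, hs, sub_self]
  · have h1 : f x.2.1 = 0 := x.2.2
    rw [map_add, hs, h1, add_zero]
    exact x.1.2
  · rintro ⟨p, hp⟩
    apply Subtype.ext
    simp
  · rintro ⟨⟨w, hw⟩, ⟨k, hk⟩⟩
    have h1 : f k = 0 := hk
    have h2 : f (s w + k) = w := by rw [map_add, hs, h1, add_zero]
    refine Prod.ext (Subtype.ext ?_) (Subtype.ext ?_)
    · exact h2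
    · simp only [h2]
      rw [add_sub_cancel_left]

variable {R : Type} [CommRing R] [IsDomain R] (D : DV R)

lemma clos_add {b : ℕ} {N : Submodule R (MR R)} {v u : MR R} (hu : u ∈ N)
    (h : Clos D b N v) : Clos D b N (v + u) := by
  obtain ⟨h1, h2, h3, h4⟩ := h
  refine ⟨h1, ?_, ?_, ?_⟩
  · intro u' hu'
    have := N.add_mem (h2 u' hu') (h1 u' hu' u hu)
    refine (congrArg (· ∈ N) ?_).mp this
    refine Prod.ext (Prod.ext ?_ ?_) ?_
    · simp
    · simp
    · simp
      ring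
  · intro u' hu'
    have := N.add_mem (h3 u' hu') (h1 u hu u' hu')
    refine (congrArg (· ∈ N) ?_).mp this
    refine Prod.ext (Prod.ext ?_ ?_) ?_
    · simp
    · simp
    · simp
      ring
  · have := N.add_mem (N.add_mem h4 (h2 u hu)) (N.add_mem (h3 u hu) (h1 u hu u hu))
    unfold C4
    refine (congrArg (· ∈ N) ?_).mp this
    refine Prod.ext (Prod.ext ?_ ?_) ?_
    · simp
      ring
    · simp
      ring
    · simp
      ring

lemma clos_iff {b : ℕ} {N : Submodule R (MR R)} {v v' : MR R} (hu : v' - v ∈ N) :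
    Clos D b N v ↔ Clos D b N v' := by
  constructor
  · intro h
    have := clos_add D hu h
    rwa [add_sub_cancel] at this
  · intro h
    have h2 : v - v' ∈ N := by
      have := N.neg_mem hu
      rwa [neg_sub] at this
    have := clos_add D h2 h
    rwa [add_sub_cancel] at this

lemma idx_NN (m k : ℕ) (z : R) (n : ℕ) (τ₁ τ₂ : R) :
    idx (NN D m k z n τ₁ τ₂) = D.q ^ (2 * m + k + n) := by
  rw [idx_fst, idx_snd]
  have e1 : (NN D m k z n τ₁ τ₂).comap (LinearMap.inr R (R × R) R) = Ideal.span {D.t ^ n} := by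
    ext a
    rw [Submodule.mem_comap, Ideal.mem_span_singleton, ← mem_0 D (m := m) (k := k) (z := z)
      (τ₁ := τ₁) (τ₂ := τ₂)]
    rfl
  have e2 : ((NN D m k z n τ₁ τ₂).map (LinearMap.fst R (R × R) R)).map (LinearMap.snd R R R) =
      Ideal.span {D.t ^ m} := by
    ext a
    rw [Ideal.mem_span_singleton]
    constructor
    · rintro ⟨_, ⟨⟨⟨x, y⟩, c⟩, hv, rfl⟩, rfl⟩
      rw [SetLike.mem_coe, mem_NN] at hv
      obtain ⟨e1, e2, e3, h1, h2, h3⟩ := hv
      exact ⟨e1, h2⟩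
    · rintro ⟨e, rfl⟩
      refine ⟨(-(D.t ^ m * z) * e, D.t ^ m * e), ⟨((-(D.t ^ m * z) * e, D.t ^ m * e), e * τ₁),
        ?_, rfl⟩, rfl⟩
      rw [SetLike.mem_coe, mem_NN]
      exact ⟨e, 0, 0, by ring, rfl, by ring⟩
  have e3 : ((NN D m k z n τ₁ τ₂).map (LinearMap.fst R (R × R) R)).comap (LinearMap.inl R R R) =
      Ideal.span {D.t ^ (m + k)} := by
    ext a
    rw [Ideal.mem_span_singleton, Submodule.mem_comap]
    constructor
    · rintro ⟨⟨⟨x, y⟩, c⟩, hv, h⟩
      have hx : x = a := congrArg Prod.fst h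
      have hy : y = 0 := congrArg Prod.snd h
      subst hx
      subst hy
      rw [SetLike.mem_coe, mem_c] at hv
      obtain ⟨e, h1, _⟩ := hv
      exact ⟨e, h1⟩
    · rintro ⟨e, rfl⟩
      refine ⟨((D.t ^ (m + k) * e, 0), e * τ₂), ?_, rfl⟩
      rw [SetLike.mem_coe, mem_c]
      exact ⟨e, rfl, by simp⟩
  rw [e1, e2, e3, D.idx_span, D.idx_span, D.idx_span, ← pow_add, ← pow_add]
  congr 1
  omega

/-- large multiples are in the lattice -/
lemma big_mem {m k n L : ℕ} (hL : m + k + n ≤ L) (z τ₁ τ₂ x y a : R) :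
    (((D.t ^ L * x, D.t ^ L * y), D.t ^ L * a) : MR R) ∈ NN D m k z n τ₁ τ₂ := by
  rw [mem_NN]
  obtain ⟨r, rfl⟩ : ∃ r, L = m + k + n + r := ⟨L - (m + k + n), by omega⟩
  refine ⟨D.t ^ (k + n + r) * y, D.t ^ (n + r) * (x + z * y),
    D.t ^ (m + k + r) * a - D.t ^ (k + r) * y * τ₁ - D.t ^ r * (x + z * y) * τ₂, ?_, ?_, ?_⟩
  · simp only [pow_add]
    ring
  · simp only [pow_add]
    ring
  · simp only [pow_add]
    ring

theorem lp6 : LP6Stmt := by
  intro R _ _ D b m k z n τ₁ τ₂ L hL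
  set N := NN D m k z n τ₁ τ₂ with hN
  -- the homomorphism
  have k1 : Ideal.span {D.t ^ L} ≤ LinearMap.ker
      (N.mkQ ∘ₗ (LinearMap.inl R (R × R) R ∘ₗ LinearMap.inl R R R)) := by
    intro x hx
    obtain ⟨c, rfl⟩ := Ideal.mem_span_singleton.1 hx
    rw [LinearMap.mem_ker, LinearMap.comp_apply, Submodule.mkQ_apply,
      Submodule.Quotient.mk_eq_zero]
    have := big_mem D hL z τ₁ τ₂ c 0 0
    simpa using this
  have k2 : Ideal.span {D.t ^ L} ≤ LinearMap.ker
      (N.mkQ ∘ₗ (LinearMap.inl R (R × R) R ∘ₗ LinearMap.inr R R R)) := by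
    intro x hx
    obtain ⟨c, rfl⟩ := Ideal.mem_span_singleton.1 hx
    rw [LinearMap.mem_ker, LinearMap.comp_apply, Submodule.mkQ_apply,
      Submodule.Quotient.mk_eq_zero]
    have := big_mem D hL z τ₁ τ₂ 0 c 0
    simpa using this
  have k3 : Ideal.span {D.t ^ L} ≤ LinearMap.ker (N.mkQ ∘ₗ LinearMap.inr R (R × R) R) := by
    intro x hx
    obtain ⟨c, rfl⟩ := Ideal.mem_span_singleton.1 hx
    rw [LinearMap.mem_ker, LinearMap.comp_apply, Submodule.mkQ_apply,
      Submodule.Quotient.mk_eq_zero]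
    have := big_mem D hL z τ₁ τ₂ 0 0 c
    rw [mul_zero] at this
    exact this
  let f1 : D.Q L →ₗ[R] (MR R ⧸ N) := Submodule.liftQ (Ideal.span {D.t ^ L}) _ k1
  let f2 : D.Q L →ₗ[R] (MR R ⧸ N) := Submodule.liftQ (Ideal.span {D.t ^ L}) _ k2
  let f3 : D.Q L →ₗ[R] (MR R ⧸ N) := Submodule.liftQ (Ideal.span {D.t ^ L}) _ k3
  let f : (D.Q L × D.Q L × D.Q L) →ₗ[R] (MR R ⧸ N) := f1.coprod (f2.coprod f3)
  have hf1 : ∀ a : R, f1 (D.red L a) = N.mkQ ((a, 0), 0) := fun a => rfl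
  have hf2 : ∀ a : R, f2 (D.red L a) = N.mkQ ((0, a), 0) := fun a => rfl
  have hf3 : ∀ a : R, f3 (D.red L a) = N.mkQ ((0, 0), a) := fun a => rfl
  have hfr : ∀ x y a : R, f (D.red L x, D.red L y, D.red L a) = N.mkQ ((x, y), a) := by
    intro x y a
    show f1 (D.red L x) + (f2 (D.red L y) + f3 (D.red L a)) = _
    rw [hf1, hf2, hf3, ← map_add, ← map_add]
    congr 1
    refine Prod.ext (Prod.ext ?_ ?_) ?_ <;> simp
  have hfl : ∀ p : D.Q L × D.Q L × D.Q L,
      f p = N.mkQ ((D.lift p.1, D.lift p.2.1), D.lift p.2.2) := by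
    intro p
    rw [← hfr, D.red_lift, D.red_lift, D.red_lift]
  have hsurj : Function.Surjective f := by
    intro w
    obtain ⟨⟨⟨x, y⟩, a⟩, rfl⟩ := N.mkQ_surjective w
    exact ⟨_, hfr x y a⟩
  set P : (MR R ⧸ N) → Prop := fun w => ∃ v, Submodule.Quotient.mk v = w ∧ Clos D b N v with hP
  have hPiff : ∀ v, P (N.mkQ v) ↔ Clos D b N v := by
    intro v
    rw [hP]
    constructor
    · rintro ⟨v', h1, h2⟩
      rw [Submodule.mkQ_apply] at h1
      rw [clos_iff D (v := v) (v' := v')]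
      · exact h2
      · exact (Submodule.Quotient.eq N).1 h1
    · intro h
      exact ⟨v, rfl, h⟩
  have hc1 := fiber_card f.toAddMonoidHom hsurj P
  have hc2 := fiber_card f.toAddMonoidHom hsurj (fun _ => True)
  have hcG : Nat.card {p : D.Q L × D.Q L × D.Q L // True} = D.q ^ (3 * L) := by
    rw [Nat.card_congr (Equiv.subtypeUnivEquiv (fun _ => trivial)), Nat.card_prod, Nat.card_prod,
      D.card L, ← pow_add, ← pow_add]
    congr 1
    ring
  have hcH : Nat.card {w : MR R ⧸ N // True} = D.q ^ (2 * m + k + n) := by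
    rw [Nat.card_congr (Equiv.subtypeUnivEquiv (fun _ => trivial)), ← idx_NN D m k z n τ₁ τ₂]
    rfl
  have hset : Nat.card {p : D.Q L × D.Q L × D.Q L // P (f.toAddMonoidHom p)} =
      Nat.card {p : D.Q L × D.Q L × D.Q L //
        Clos D b N ((D.lift p.1, D.lift p.2.1), D.lift p.2.2)} := by
    refine Nat.card_congr (Equiv.subtypeEquivRight fun p => ?_)
    rw [← hPiff, ← hfl]
    rfl
  rw [← hset, hc1]
  have hc3 : D.q ^ (3 * L) = D.q ^ (2 * m + k + n) * Nat.card f.toAddMonoidHom.ker := by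
    rw [← hcG, ← hcH, ← hc2]
  have hcnt : cntC D b N = Nat.card {w // P w} := rfl
  rw [hcnt, hc3]
  ring

end Pool.Agent.TH359.TZH
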