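import Pool.Agent.TH32.H.Lim
import Pool.Agent.H260TZ.Lim

set_option autoImplicit false

namespace Pool.Agent.TH359.TZH

open Polynomial Filter Topology Pool.Agent.H260TZ Pool.Agent.TH32

lemma sum_filter {F : Type} [AddCommMonoid F] (L : List Tm) (n : ℕ) (g : Tm → F) :
    (L.map (fun t => if t.ds.length == n then g t else 0)).sum =
      ((L.filter (fun t => t.ds.length == n)).map g).sum := by
  induction L with
  | nil => simp
  | cons t L ih =>
    rw [List.map_cons, List.sum_cons, ih]
    by_cases h : (t.ds.length == n) = true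
    · rw [if_pos h, List.filter_cons_of_pos (p := fun t : Tm => t.ds.length == n) h,
        List.map_cons, List.sum_cons]
    · rw [if_neg h, List.filter_cons_of_neg (p := fun t : Tm => t.ds.length == n) h, zero_add]

lemma inner_lim (hT : TmLimStmt) (F : Type) [NontriviallyNormedField F] [CharZero F] (s : ℤ)
    (n : ℕ) (L : List Tm) (hlen : ∀ t ∈ L, t.ds.length ≤ n) (hreg : ∀ t ∈ L, t.reg s) :
    Tendsto (fun q : F => (1 - q⁻¹) ^ n * (L.map (fun t => t.val q (q ^ (-s)))).sum) (𝓝[≠] 1)
      (𝓝 (((((L.filter (fun t => t.ds.length == n)).map (Tm.lim s)).sum : ℚ)) : F)) := by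
  have h1 : ∀ t ∈ L, Tendsto (fun q : F => (1 - q⁻¹) ^ n * t.val q (q ^ (-s))) (𝓝[≠] 1)
      (𝓝 (if t.ds.length == n then ((t.lim s : ℚ) : F) else 0)) := by
    intro t ht
    have h2 := hT F s t (hreg t ht)
    by_cases h : (t.ds.length == n) = true
    · rw [if_pos h]
      have h3 : t.ds.length = n := by simpa using h
      rw [h3] at h2
      exact h2
    · rw [if_neg h]
      have h3 : t.ds.length ≠ n := by simpa using h
      have h4 : t.ds.length < n := lt_of_le_of_ne (hlen t ht) h3
      have h5 : Tendsto (fun q : F => (1 - q⁻¹) ^ (n - t.ds.length)) (𝓝[≠] 1) (𝓝 0) := by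
        have a1 := tend_pow (K := F) (-1)
        have a2 := ((tendsto_const_nhds (x := (1 : F))).sub a1).pow (n - t.ds.length)
        rw [sub_self, zero_pow (by omega)] at a2
        refine a2.congr fun q => ?_
        rw [zpow_neg_one]
      have h6 := h5.mul h2
      rw [zero_mul] at h6
      refine h6.congr fun q => ?_
      rw [← mul_assoc, ← pow_add]
      congr 2
      omega
  have h2 := tendsto_list_sum L h1
  rw [sum_filter] at h2
  have e : ((L.filter (fun t => t.ds.length == n)).map (fun t => ((t.lim s : ℚ) : F))).sum =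
      (((((L.filter (fun t => t.ds.length == n)).map (Tm.lim s)).sum : ℚ)) : F) := by
    have := map_list_sum (Rat.castHom F) ((L.filter (fun t => t.ds.length == n)).map (Tm.lim s))
    rw [List.map_map] at this
    exact this.symm
  rw [e] at h2
  refine h2.congr fun q => ?_
  rw [List.sum_map_mul_left]

theorem pbLim : PBLimAsm := by
  intro hT F _ _ s L hL
  have h1 : ∀ p ∈ L, Tendsto (fun q : F => (1 - q⁻¹) ^ 4 * ((p.m : F) * (1 - q⁻¹) ^ p.u *
      (1 - 2 * q⁻¹) ^ p.u2 * (1 - 3 * q⁻¹) ^ p.u3 *
        (p.L.map (fun t => t.val q (q ^ (-s)))).sum)) (𝓝[≠] 1) (𝓝 ((p.lim s : ℚ) : F)) := by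
    intro p hp
    have h2 := inner_lim hT F s (4 + p.u) p.L (hL p hp).1.2 (hL p hp).2
    have a1 := tend_pow (K := F) (-1)
    have a2 : Tendsto (fun q : F => (1 - 2 * q⁻¹)) (𝓝[≠] 1) (𝓝 (-1)) := by
      have := (tendsto_const_nhds (x := (1 : F))).sub ((tendsto_const_nhds (x := (2 : F))).mul a1)
      rw [show (1 : F) - 2 * 1 = -1 by norm_num] at this
      refine this.congr fun q => ?_
      rw [zpow_neg_one]
    have a3 : Tendsto (fun q : F => (1 - 3 * q⁻¹)) (𝓝[≠] 1) (𝓝 (-2)) := by
      have := (tendsto_const_nhds (x := (1 : F))).sub ((tendsto_const_nhds (x := (3 : F))).mul a1)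
      rw [show (1 : F) - 3 * 1 = -2 by norm_num] at this
      refine this.congr fun q => ?_
      rw [zpow_neg_one]
    have h3 := ((tendsto_const_nhds (x := (p.m : F))).mul ((a2.pow p.u2).mul (a3.pow p.u3))).mul h2
    have e : (p.m : F) * ((-1) ^ p.u2 * (-2) ^ p.u3) *
        (((((p.L.filter (fun t => t.ds.length == 4 + p.u)).map (Tm.lim s)).sum : ℚ)) : F) =
        ((p.lim s : ℚ) : F) := by
      unfold PB.lim top
      push_cast
      ring
    rw [e] at h3
    refine h3.congr fun q => ?_
    rw [pow_add]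
    ring
  have h2 := tendsto_list_sum L h1
  have e : (L.map (fun p => ((p.lim s : ℚ) : F))).sum = (((L.map (PB.lim s)).sum : ℚ) : F) := by
    have := map_list_sum (Rat.castHom F) (L.map (PB.lim s))
    rw [List.map_map] at this
    exact this.symm
  rw [e] at h2
  refine h2.congr fun q => ?_
  rw [List.sum_map_mul_left]

end Pool.Agent.TH359.TZH
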