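import Pool.Agent.TH32.H.Lim

set_option autoImplicit false

namespace Pool.Agent.TH359.TZH

open Polynomial Pool.Agent.H260TZ Pool.Agent.TH32

/-- the polynomial of a factor -/
noncomputable def fQ (q : ℕ) (d : ℤ × ℤ) : ℚ[X] := 1 - C ((q : ℚ) ^ d.1) * X ^ d.2.toNat

/-- denominator of a term -/
noncomputable def tQ (q : ℕ) (t : Tm) : ℚ[X] := X ^ (-t.f).toNat * (t.ds.map (fQ q)).prod

/-- numerator of a term -/
noncomputable def tP (q : ℕ) (t : Tm) : ℚ[X] := C ((t.c : ℚ) * (q : ℚ) ^ t.e) * X ^ t.f.toNat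

section
variable {K : Type} [Field K] [CharZero K]

lemma aeval_fQ (q : ℕ) {d : ℤ × ℤ} (hd : 0 ≤ d.2) (x : K) :
    aeval x (fQ q d) = 1 - (q : K) ^ d.1 * x ^ d.2 := by
  unfold fQ
  rw [map_sub, map_one, map_mul, aeval_C, map_pow, aeval_X, map_zpow₀, map_natCast,
    ← zpow_natCast x, Int.toNat_of_nonneg hd]

lemma aeval_prod (q : ℕ) {ds : List (ℤ × ℤ)} (hd : ∀ d ∈ ds, 0 ≤ d.2) (x : K) :
    aeval x ((ds.map (fQ q)).prod) = (ds.map (fun d => 1 - (q : K) ^ d.1 * x ^ d.2)).prod := by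
  induction ds with
  | nil => simp
  | cons d ds ih =>
    rw [List.map_cons, List.prod_cons, map_mul, List.map_cons, List.prod_cons,
      aeval_fQ q (hd d List.mem_cons_self), ih (fun d' h => hd d' (List.mem_cons_of_mem _ h))]

lemma term_val (q : ℕ) (t : Tm) (x : K) (hx : x ≠ 0) (hd : ∀ d ∈ t.ds, 0 ≤ d.2)
    (hne : ∀ d ∈ t.ds, 1 - (q : K) ^ d.1 * x ^ d.2 ≠ 0) :
    aeval x (tQ q t) ≠ 0 ∧ aeval x (tP q t) / aeval x (tQ q t) = t.val (q : K) x := by
  have h1 : (t.ds.map (fun d => 1 - (q : K) ^ d.1 * x ^ d.2)).prod ≠ 0 := by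
    rw [Ne, List.prod_eq_zero_iff]
    intro h
    obtain ⟨d, hd1, hd2⟩ := List.mem_map.1 h
    exact hne d hd1 hd2
  have h2 : aeval x (tQ q t) = x ^ (-t.f).toNat *
      (t.ds.map (fun d => 1 - (q : K) ^ d.1 * x ^ d.2)).prod := by
    unfold tQ
    rw [map_mul, map_pow, aeval_X, aeval_prod q hd]
  have h3 : aeval x (tP q t) = (t.c : K) * (q : K) ^ t.e * x ^ t.f.toNat := by
    unfold tP
    rw [map_mul, aeval_C, map_pow, aeval_X, map_mul, map_zpow₀, map_natCast, map_intCast]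
  have h4 : x ^ t.f * x ^ (-t.f).toNat = x ^ t.f.toNat := by
    rw [← zpow_natCast x (-t.f).toNat, ← zpow_natCast x t.f.toNat, ← zpow_add₀ hx]
    congr 1
    omega
  refine ⟨?_, ?_⟩
  · rw [h2]
    exact mul_ne_zero (pow_ne_zero _ hx) h1
  · rw [h2, h3, ← h4]
    unfold Tm.val
    have h5 : x ^ (-t.f).toNat ≠ 0 := pow_ne_zero _ hx
    rw [show (t.c : K) * (q : K) ^ t.e * (x ^ t.f * x ^ (-t.f).toNat) =
      x ^ (-t.f).toNat * ((t.c : K) * (q : K) ^ t.e * x ^ t.f) by ring, mul_div_mul_left _ _ h5]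

end

lemma aev (P : ℚ[X]) (x : ℚ) : @aeval ℚ ℚ _ _ DivisionRing.toRatAlgebra x P = P.eval x := by
  rw [aeval_def, eval₂_eq_eval_map,
    show (@algebraMap ℚ ℚ _ _ DivisionRing.toRatAlgebra) = RingHom.id ℚ from
      Subsingleton.elim _ _, Polynomial.map_id]

lemma okd_nonneg {d : ℤ × ℤ} (h : okd d = true) : 0 ≤ d.2 := by
  unfold okd at h
  simp only [Bool.or_eq_true, Bool.and_eq_true, decide_eq_true_eq] at h
  omega

lemma okd_real {d : ℤ × ℤ} (h : okd d = true) {q : ℕ} (hq : 2 ≤ q) {x : ℝ} (hx : 0 < x)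
    (hx5 : x ≤ ((q : ℝ)⁻¹) ^ 5) : (q : ℝ) ^ d.1 * x ^ d.2 < 1 := by
  have hq1 : (1 : ℝ) < q := by exact_mod_cast (by omega : 1 < q)
  have hq0 : (0 : ℝ) < q := by linarith
  unfold okd at h
  simp only [Bool.or_eq_true, Bool.and_eq_true, decide_eq_true_eq] at h
  rcases h with ⟨h1, h2⟩ | ⟨h1, h2⟩
  · rw [h1, zpow_zero, mul_one]
    exact zpow_lt_one_of_neg₀ hq1 h2
  · have h3 : x ^ d.2 ≤ (((q : ℝ)⁻¹) ^ 5) ^ d.2 := by
      exact zpow_le_zpow_left₀ (by omega) hx.le hx5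
    have h4 : (((q : ℝ)⁻¹) ^ 5) ^ d.2 = (q : ℝ) ^ (-5 * d.2) := by
      rw [← zpow_natCast, inv_zpow', ← zpow_mul]
      rfl
    have h5 : (q : ℝ) ^ d.1 * x ^ d.2 ≤ (q : ℝ) ^ (d.1 + -5 * d.2) := by
      rw [zpow_add₀ hq0.ne', ← h4]
      exact mul_le_mul_of_nonneg_left h3 (zpow_nonneg hq0.le _)
    exact lt_of_le_of_lt h5 (zpow_lt_one_of_neg₀ hq1 (by omega))

theorem rat : RatStmt := by
  intro q s L hq hok hreg
  have hq1 : (1 : ℚ) < q := by exact_mod_cast (by omega : 1 < q)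
  have hq0 : (q : ℚ) ≠ 0 := by
    have : (0 : ℚ) < q := by linarith
    exact this.ne'
  induction L with
  | nil =>
    refine ⟨0, 1, by simp, by simp, fun x _ _ => ⟨by simp, by simp [sv]⟩⟩
  | cons t L ih =>
    obtain ⟨P, Q, h1, h2, h3⟩ := ih (fun t' h' => hok t' (List.mem_cons_of_mem _ h'))
      (fun t' h' => hreg t' (List.mem_cons_of_mem _ h'))
    have hds : ∀ d ∈ t.ds, okd d = true := by
      intro d hd
      exact List.all_eq_true.1 (hok t List.mem_cons_self).2 d hd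
    have hx0 : (q : ℚ) ^ (-s) ≠ 0 := zpow_ne_zero _ hq0
    have hneQ : ∀ d ∈ t.ds, 1 - (q : ℚ) ^ d.1 * ((q : ℚ) ^ (-s)) ^ d.2 ≠ 0 := by
      intro d hd h
      rw [← zpow_mul, ← zpow_add₀ hq0, sub_eq_zero] at h
      have h4 : (q : ℚ) ^ (0 : ℤ) = (q : ℚ) ^ (d.1 + -s * d.2) := by rw [zpow_zero]; exact h
      have h5 := zpow_right_injective₀ (by linarith) hq1.ne' h4
      apply hreg t List.mem_cons_self d hd
      have h6 : d.2 * s - d.1 = 0 := by linarith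
      exact_mod_cast h6
    obtain ⟨a1, a2⟩ := term_val q t ((q : ℚ) ^ (-s)) hx0 (fun d hd => okd_nonneg (hds d hd)) hneQ
    rw [aev] at a1
    rw [aev, aev] at a2
    refine ⟨tP q t * Q + P * tQ q t, tQ q t * Q, ?_, ?_, ?_⟩
    · rw [eval_mul]
      exact mul_ne_zero a1 h1
    · rw [eval_mul, eval_add, eval_mul, eval_mul, List.map_cons, List.sum_cons, ← a2, ← h2,
        div_add_div _ _ a1 h1]
      congr 1
      ring
    · intro x hx hx5
      obtain ⟨b1, b2⟩ := term_val q t x hx.ne' (fun d hd => okd_nonneg (hds d hd))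
        (fun d hd => by
          have := okd_real (hds d hd) hq hx hx5
          linarith)
      obtain ⟨b3, b4⟩ := h3 x hx hx5
      refine ⟨?_, ?_⟩
      · rw [map_mul]
        exact mul_ne_zero b1 b3
      · unfold sv at b4 ⊢
        rw [map_mul, map_add, map_mul, map_mul, List.map_cons, List.sum_cons, ← b2, ← b4,
          div_add_div _ _ b1 b3]
        congr 1
        ring

end Pool.Agent.TH359.TZH
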