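import Pool.Agent.TH32.H.Lim
import Pool.Agent.H260TZ.Lim

set_option autoImplicit false

namespace Pool.Agent.TH359.TZH

open Polynomial Filter Topology Pool.Agent.H260TZ Pool.Agent.TH32

theorem tmLim : TmLimStmt := by
  intro F _ _ s t ht
  have h1 : ∀ d ∈ t.ds, Tendsto (fun q : F => (uu q (d.1 - s * d.2))⁻¹) (𝓝[≠] 1)
      (𝓝 ((((d.2 : ℚ) * s - d.1)⁻¹ : ℚ) : F)) := by
    intro d hd
    have h2 := tend_uu (K := F) (d.1 - s * d.2)
    have h3 : (-((d.1 - s * d.2 : ℤ) : F)) = (((d.2 : ℚ) * s - d.1 : ℚ) : F) := by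
      push_cast
      ring
    rw [h3] at h2
    have h4 : (((d.2 : ℚ) * s - d.1 : ℚ) : F) ≠ 0 := by
      rw [Rat.cast_ne_zero]
      exact ht d hd
    have h5 := h2.inv₀ h4
    rwa [← Rat.cast_inv] at h5
  have h2 := tendsto_list_prod t.ds h1
  have h3 : Tendsto (fun q : F => (t.c : F) * q ^ t.e * (q ^ (-s)) ^ t.f) (𝓝[≠] 1)
      (𝓝 (t.c : F)) := by
    have a1 := tend_pow (K := F) t.e
    have a2 := (tend_pow (K := F) (-s * t.f))
    have a3 := (tendsto_const_nhds (x := (t.c : F))).mul (a1.mul a2)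
    rw [mul_one, mul_one] at a3
    refine a3.congr fun q => ?_
    rw [zpow_mul, mul_assoc]
  have h4 := h3.mul h2
  have h5 : (t.c : F) * (t.ds.map (fun d : ℤ × ℤ => ((((d.2 : ℚ) * s - d.1)⁻¹ : ℚ) : F))).prod =
      ((t.lim s : ℚ) : F) := by
    unfold Tm.lim
    rw [Rat.cast_mul, Rat.cast_intCast]
    congr 1
    have := map_list_prod (Rat.castHom F) (t.ds.map (fun d => ((d.2 : ℚ) * s - d.1)⁻¹))
    rw [List.map_map] at this
    exact this.symm
  rw [h5] at h4
  refine h4.congr' ?_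
  have hq0 : ∀ᶠ q : F in 𝓝[≠] 1, q ≠ 0 :=
    eventually_nhdsWithin_of_eventually_nhds
      (isOpen_ne.mem_nhds (one_ne_zero : (1 : F) ≠ 0))
  filter_upwards [hq0] with q hq
  have key : ∀ ds : List (ℤ × ℤ), (1 - q⁻¹) ^ ds.length /
      (ds.map (fun d => 1 - q ^ d.1 * (q ^ (-s)) ^ d.2)).prod =
      (ds.map (fun d => (uu q (d.1 - s * d.2))⁻¹)).prod := by
    intro ds
    induction ds with
    | nil => simp
    | cons d ds ih =>
      rw [List.map_cons, List.prod_cons, List.map_cons, List.prod_cons, List.length_cons, ← ih,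
        pow_succ', mul_div_mul_comm]
      congr 1
      unfold uu
      rw [inv_div]
      congr 2
      rw [← zpow_mul, ← zpow_add₀ hq]
      congr 1
      ring
  unfold Tm.val
  rw [← key]
  ring

end Pool.Agent.TH359.TZH
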