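import Pool.Agent.TH371.Harm.Defs

/-!
# HARM5: existence of the two masses
(job 2815 of helper371, written by helper359)
-/

set_option autoImplicit false

namespace Pool.Agent.TH359.Harm5

open Complex Filter Topology Set
open Pool.Agent.TH371.Harm hiding U

/-! ### bounds of arctan (1/100) -/

theorem arctan_lo {u : ℝ} (hu : 0 ≤ u) :
    u - u ^ 3 / 3 + u ^ 5 / 5 - u ^ 7 / 7 ≤ Real.arctan u := by
  have hd : ∀ x : ℝ, HasDerivAt (fun x : ℝ => Real.arctan x - (x - x ^ 3 / 3 + x ^ 5 / 5 - x ^ 7 / 7))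
      (1 / (1 + x ^ 2) - (1 - x ^ 2 + x ^ 4 - x ^ 6)) x := by
    intro x
    have h1 := Real.hasDerivAt_arctan x
    have h2 : HasDerivAt (fun x : ℝ => x - x ^ 3 / 3 + x ^ 5 / 5 - x ^ 7 / 7)
        (1 - x ^ 2 + x ^ 4 - x ^ 6) x := by
      have h3 := hasDerivAt_pow 3 x
      have h5 := hasDerivAt_pow 5 x
      have h7 := hasDerivAt_pow 7 x
      have := (((hasDerivAt_id x).sub (h3.div_const 3)).add
        (h5.div_const 5)).sub (h7.div_const 7)
      refine this.congr_deriv ?_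
      push_cast
      ring
    exact h1.sub h2
  have hmono : MonotoneOn (fun x : ℝ => Real.arctan x - (x - x ^ 3 / 3 + x ^ 5 / 5 - x ^ 7 / 7))
      (Ici 0) := by
    refine monotoneOn_of_deriv_nonneg (convex_Ici 0)
      (fun x _ => (hd x).continuousAt.continuousWithinAt)
      (fun x _ => (hd x).differentiableAt.differentiableWithinAt) (fun x _ => ?_)
    rw [(hd x).deriv]
    have e : 1 / (1 + x ^ 2) - (1 - x ^ 2 + x ^ 4 - x ^ 6) = x ^ 8 / (1 + x ^ 2) := by
      field_simp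
      ring
    rw [e]
    positivity
  have h := hmono (mem_Ici.2 le_rfl) (mem_Ici.2 hu) hu
  simp only [Real.arctan_zero] at h
  norm_num at h
  linarith

theorem arctan_hi {u : ℝ} (hu : 0 ≤ u) :
    Real.arctan u ≤ u - u ^ 3 / 3 + u ^ 5 / 5 := by
  have hd : ∀ x : ℝ, HasDerivAt (fun x : ℝ => (x - x ^ 3 / 3 + x ^ 5 / 5) - Real.arctan x)
      ((1 - x ^ 2 + x ^ 4) - 1 / (1 + x ^ 2)) x := by
    intro x
    have h1 := Real.hasDerivAt_arctan x
    have h2 : HasDerivAt (fun x : ℝ => x - x ^ 3 / 3 + x ^ 5 / 5)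
        (1 - x ^ 2 + x ^ 4) x := by
      have h3 := hasDerivAt_pow 3 x
      have h5 := hasDerivAt_pow 5 x
      have := ((hasDerivAt_id x).sub (h3.div_const 3)).add (h5.div_const 5)
      refine this.congr_deriv ?_
      push_cast
      ring
    exact h2.sub h1
  have hmono : MonotoneOn (fun x : ℝ => (x - x ^ 3 / 3 + x ^ 5 / 5) - Real.arctan x)
      (Ici 0) := by
    refine monotoneOn_of_deriv_nonneg (convex_Ici 0)
      (fun x _ => (hd x).continuousAt.continuousWithinAt)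
      (fun x _ => (hd x).differentiableAt.differentiableWithinAt) (fun x _ => ?_)
    rw [(hd x).deriv]
    have e : (1 - x ^ 2 + x ^ 4) - 1 / (1 + x ^ 2) = x ^ 6 / (1 + x ^ 2) := by
      field_simp
      ring
    rw [e]
    positivity
  have h := hmono (mem_Ici.2 le_rfl) (mem_Ici.2 hu) hu
  simp only [Real.arctan_zero] at h
  norm_num at h
  linarith

/-- the angle `arctan (1/100)` -/
noncomputable def th : ℝ := Real.arctan (1 / 100)

theorem th_lo : 1 / 100 - (1 / 100) ^ 3 / 3 + (1 / 100) ^ 5 / 5 - (1 / 100) ^ 7 / 7 ≤ th :=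
  arctan_lo (by norm_num)

theorem th_hi : th ≤ 1 / 100 - (1 / 100) ^ 3 / 3 + (1 / 100) ^ 5 / 5 := arctan_hi (by norm_num)

/-! ### arguments -/

theorem im_log_pos {x : ℝ} (h : 0 ≤ x) : (Complex.log (x : ℂ)).im = 0 := by
  rw [Complex.log_im, Complex.arg_ofReal_of_nonneg h]

theorem im_log_neg {x : ℝ} (h : x < 0) : (Complex.log (x : ℂ)).im = Real.pi := by
  rw [Complex.log_im, Complex.arg_ofReal_of_neg h]

theorem im_log_I {a : ℝ} (h : 0 < a) : (Complex.log (I + (a : ℂ))).im = Real.arctan (1 / a) := by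
  rw [Complex.log_im]
  have hre : (I + (a : ℂ)).re = a := by simp
  have him : (I + (a : ℂ)).im = 1 := by simp
  have h1 : Real.tan (Complex.arg (I + (a : ℂ))) = 1 / a := by
    rw [Complex.tan_arg, hre, him]
  have h2 : |Complex.arg (I + (a : ℂ))| < Real.pi / 2 := by
    rw [Complex.abs_arg_lt_pi_div_two_iff]
    left
    rw [hre]
    exact h
  rw [abs_lt] at h2
  rw [← h1, Real.arctan_tan h2.1 h2.2]

theorem arctan_s : Real.arctan (1 / (99 / 101)) = Real.pi / 4 + th := by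
  unfold th
  rw [← Real.arctan_one, Real.arctan_add (by norm_num)]
  norm_num

/-! ### real and imaginary parts of the maps -/

theorem FF_re (A B : ℝ) (z : ℂ) : (FF A B z).re =
    -(A / 2) * (z ^ 2).re + B * z.re + (Complex.log (z + 1)).re := by
  have : FF A B z = ((-(A / 2) : ℝ) : ℂ) * z ^ 2 + (B : ℂ) * z + Complex.log (z + 1) := by
    unfold FF
    push_cast
    ring
  rw [this, Complex.add_re, Complex.add_re, Complex.re_ofReal_mul, Complex.re_ofReal_mul]

theorem FF_im (A B : ℝ) (z : ℂ) : (FF A B z).im =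
    -(A / 2) * (z ^ 2).im + B * z.im + (Complex.log (z + 1)).im := by
  have : FF A B z = ((-(A / 2) : ℝ) : ℂ) * z ^ 2 + (B : ℂ) * z + Complex.log (z + 1) := by
    unfold FF
    push_cast
    ring
  rw [this, Complex.add_im, Complex.add_im, Complex.im_ofReal_mul, Complex.im_ofReal_mul]

theorem MM_re (A B s : ℝ) (z : ℂ) : (MM A B s z).re =
    -(s * (FF A B z).im + (1 + s ^ 2) * (-A * z.im + (-A * s + B + 1 / (s + 1)) *
      (Complex.log (z - s)).im - 1 / (s + 1) * (Complex.log (z + 1)).im)) := by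
  have : MM A B s z = I * ((s : ℂ) * FF A B z + ((1 + s ^ 2 : ℝ) : ℂ) *
      (((-A : ℝ) : ℂ) * z + ((-A * s + B + 1 / (s + 1) : ℝ) : ℂ) * Complex.log (z - s) -
        ((1 / (s + 1) : ℝ) : ℂ) * Complex.log (z + 1))) := by
    unfold MM
    push_cast
    ring
  rw [this, Complex.I_mul_re, Complex.add_im, Complex.im_ofReal_mul, Complex.im_ofReal_mul,
    Complex.sub_im, Complex.add_im, Complex.im_ofReal_mul, Complex.im_ofReal_mul,
    Complex.im_ofReal_mul]

theorem MA_re (A B : ℝ) (z : ℂ) : (MA A B z).re =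
    -(-(FF A B z).im + 2 * (-A * z.im + (A + B) * (Complex.log (z + 1)).im -
      (1 / (z + 1)).im)) := by
  have : MA A B z = I * (-FF A B z + ((2 : ℝ) : ℂ) *
      (((-A : ℝ) : ℂ) * z + ((A + B : ℝ) : ℂ) * Complex.log (z + 1) - 1 / (z + 1))) := by
    unfold MA
    push_cast
    ring
  rw [this, Complex.I_mul_re, Complex.add_im, Complex.neg_im, Complex.im_ofReal_mul,
    Complex.sub_im, Complex.add_im, Complex.im_ofReal_mul, Complex.im_ofReal_mul]

theorem MB_re (A B : ℝ) (z : ℂ) : (MB A B z).re =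
    -(A / 3) * (z ^ 3).im + B / 2 * (z ^ 2).im + z.im - (Complex.log (z + 1)).im := by
  have : MB A B z = -(I * (((-(A / 3) : ℝ) : ℂ) * z ^ 3 + ((B / 2 : ℝ) : ℂ) * z ^ 2 + z -
      Complex.log (z + 1))) := by
    unfold MB
    push_cast
    ring
  rw [this, Complex.neg_re, Complex.I_mul_re, Complex.sub_im, Complex.add_im, Complex.add_im,
    Complex.im_ofReal_mul, Complex.im_ofReal_mul]
  ring

/-! ### values at real points -/

theorem sq_im (t : ℝ) : ((t : ℂ) ^ 2).im = 0 := by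
  rw [← Complex.ofReal_pow, Complex.ofReal_im]

theorem cu_im (t : ℝ) : ((t : ℂ) ^ 3).im = 0 := by
  rw [← Complex.ofReal_pow, Complex.ofReal_im]

theorem lg_pos {t : ℝ} (h : -1 < t) : (Complex.log ((t : ℂ) + 1)).im = 0 := by
  have : (t : ℂ) + 1 = ((t + 1 : ℝ) : ℂ) := by push_cast; ring
  rw [this]
  exact im_log_pos (by linarith)

theorem lg_neg {t : ℝ} (h : t < -1) : (Complex.log ((t : ℂ) + 1)).im = Real.pi := by
  have : (t : ℂ) + 1 = ((t + 1 : ℝ) : ℂ) := by push_cast; ring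
  rw [this]
  exact im_log_neg (by linarith)

theorem lgs_pos {s t : ℝ} (h : s < t) : (Complex.log ((t : ℂ) - s)).im = 0 := by
  have : (t : ℂ) - s = ((t - s : ℝ) : ℂ) := by push_cast; ring
  rw [this]
  exact im_log_pos (by linarith)

theorem lgs_neg {s t : ℝ} (h : t < s) : (Complex.log ((t : ℂ) - s)).im = Real.pi := by
  have : (t : ℂ) - s = ((t - s : ℝ) : ℂ) := by push_cast; ring
  rw [this]
  exact im_log_neg (by linarith)

theorem inv_im (t : ℝ) : (1 / ((t : ℂ) + 1)).im = 0 := by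
  have : 1 / ((t : ℂ) + 1) = ((1 / (t + 1) : ℝ) : ℂ) := by push_cast; ring
  rw [this, Complex.ofReal_im]

theorem FF_im_pos (A B : ℝ) {t : ℝ} (h : -1 < t) : (FF A B (t : ℂ)).im = 0 := by
  rw [FF_im, sq_im, Complex.ofReal_im, lg_pos h]
  ring

theorem FF_im_neg (A B : ℝ) {t : ℝ} (h : t < -1) : (FF A B (t : ℂ)).im = Real.pi := by
  rw [FF_im, sq_im, Complex.ofReal_im, lg_neg h]
  ring

theorem FF_re_real (A B t : ℝ) : (FF A B (t : ℂ)).re =
    -(A / 2) * t ^ 2 + B * t + Real.log |t + 1| := by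
  rw [FF_re]
  have h1 : ((t : ℂ) ^ 2).re = t ^ 2 := by
    rw [← Complex.ofReal_pow, Complex.ofReal_re]
  have h2 : (Complex.log ((t : ℂ) + 1)).re = Real.log |t + 1| := by
    have : (t : ℂ) + 1 = ((t + 1 : ℝ) : ℂ) := by push_cast; ring
    rw [this, Complex.log_re, Complex.norm_real, Real.norm_eq_abs]
  rw [h1, h2, Complex.ofReal_re]

/-! ### values at `i` -/

theorem lgI : (Complex.log (I + 1)).im = Real.pi / 4 := by
  have := im_log_I (a := 1) one_pos
  rw [Complex.ofReal_one] at this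
  rw [this, div_one, Real.arctan_one]

theorem lgIs : (Complex.log (I - ((-99 / 101 : ℝ) : ℂ))).im = Real.pi / 4 + th := by
  have h := im_log_I (a := 99 / 101) (by norm_num)
  rw [arctan_s] at h
  have e : I - ((-99 / 101 : ℝ) : ℂ) = I + ((99 / 101 : ℝ) : ℂ) := by
    push_cast
    ring
  rw [e, h]

theorem lgIS : (Complex.log (I - ((-100 : ℝ) : ℂ))).im = th := by
  have h := im_log_I (a := 100) (by norm_num)
  have e : I - ((-100 : ℝ) : ℂ) = I + ((100 : ℝ) : ℂ) := by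
    push_cast
    ring
  rw [e, h]
  rfl

theorem FF_im_I (A B : ℝ) : (FF A B I).im = B + Real.pi / 4 := by
  rw [FF_im, lgI, Complex.I_sq]
  simp

theorem FF_re_I (A B : ℝ) : (FF A B I).re = A / 2 + (Complex.log (I + 1)).re := by
  rw [FF_re, Complex.I_sq]
  simp

theorem invI : (1 / (I + 1)).im = -1 / 2 := by
  rw [one_div, Complex.inv_im]
  simp [Complex.normSq_apply]
  norm_num

/-! ### the coefficients -/

/-- coefficients at a point where the argument of `t + 1` is 0 -/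
theorem coef1 {t r : ℝ} (ht : 0 < t) (hr : 0 < r) :
    (MM A1 BB (-99 / 101) (t : ℂ)).re - (MM A1 BB (-99 / 101) I).re -
      ((MA A2 BB (r : ℂ)).re - (MA A2 BB I).re) =
      -299130298 / 101979397 - 193990201 / 10299919097 * Real.pi +
        3078899849199 / 10299919097 * th := by
  rw [MM_re, MM_re, MA_re, MA_re, FF_im_pos _ _ (by linarith : -1 < t), FF_im_I, FF_im_I,
    FF_im_pos _ _ (by linarith : -1 < r), lgI, lgIs, lg_pos (by linarith : -1 < t),
    lg_pos (by linarith : -1 < r), lgs_pos (by linarith : (-99 / 101 : ℝ) < t), inv_im, invI,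
    Complex.ofReal_im, Complex.ofReal_im, Complex.I_im]
  unfold A1 A2 BB
  ring

theorem coef1' {t r : ℝ} (ht : 0 < t) (hr : 0 < r) :
    (MM A1 BB (-100) (t : ℂ)).re - (MM A1 BB (-100) I).re -
      ((MB A2 BB (r : ℂ)).re - (MB A2 BB I).re) =
      -1048465462 / 29991 + 1 / 198 * Real.pi + 6920099970803 / 1979406 * th := by
  have hI3 : (I ^ 3).im = -1 := by
    rw [Complex.I_pow_three]
    simp
  have hI2 : (I ^ 2).im = 0 := by
    rw [Complex.I_sq]
    simp
  rw [MM_re, MM_re, MB_re, MB_re, FF_im_pos _ _ (by linarith : -1 < t), FF_im_I,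
    lgI, lgIS, lg_pos (by linarith : -1 < t), hI2, hI3,
    lg_pos (by linarith : -1 < r), lgs_pos (by linarith : (-100 : ℝ) < t),
    sq_im, cu_im, Complex.ofReal_im, Complex.ofReal_im, Complex.I_im]
  unfold A1 A2 BB
  ring

theorem coef2 {t r : ℝ} (ht : t < -1) (hr : r < -1) :
    (MM A1 BB (-99 / 101) (t : ℂ)).re - (MM A1 BB (-99 / 101) I).re -
      ((MA A2 BB (r : ℂ)).re - (MA A2 BB I).re) =
      -299130298 / 101979397 + 581970603 / 10299919097 * Real.pi +
        3078899849199 / 10299919097 * th := by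
  rw [MM_re, MM_re, MA_re, MA_re, FF_im_neg _ _ ht, FF_im_I, FF_im_I,
    FF_im_neg _ _ hr, lgI, lgIs, lg_neg ht,
    lg_neg hr, lgs_neg (by linarith : t < (-99 / 101 : ℝ)), inv_im, invI,
    Complex.ofReal_im, Complex.ofReal_im, Complex.I_im]
  unfold A1 A2 BB
  ring

theorem coef2' {t r : ℝ} (ht : t < -1) (ht2 : -2 < t) (hr : r < -1) :
    (MM A1 BB (-100) (t : ℂ)).re - (MM A1 BB (-100) I).re -
      ((MB A2 BB (r : ℂ)).re - (MB A2 BB I).re) =
      -1048465462 / 29991 - 1 / 66 * Real.pi + 6920099970803 / 1979406 * th := by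
  have hI3 : (I ^ 3).im = -1 := by
    rw [Complex.I_pow_three]
    simp
  have hI2 : (I ^ 2).im = 0 := by
    rw [Complex.I_sq]
    simp
  rw [MM_re, MM_re, MB_re, MB_re, FF_im_neg _ _ ht, FF_im_I,
    lgI, lgIS, lg_neg ht, hI2, hI3,
    lg_neg hr, lgs_pos (by linarith : (-100 : ℝ) < t),
    sq_im, cu_im, Complex.ofReal_im, Complex.ofReal_im, Complex.I_im]
  unfold A1 A2 BB
  ring

/-! ### Cramer -/

theorem cramer {p1 p2 f1 f2 u1 u2 : ℝ} (h1 : -0.0034 ≤ p1) (h1' : p1 ≤ -0.003)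
    (h2 : 0.23 ≤ p2) (h3 : 0.002 ≤ f1) (h3' : f1 ≤ 0.0021) (h4 : -0.062 ≤ f2) (h4' : f2 ≤ -0.061)
    (h5 : u1 ≤ -7000) (h6 : -1000 ≤ u2) (h7 : u2 ≤ 1000) :
    ∃ m1 m2 : ℝ, 0 < m1 ∧ 0 < m2 ∧ u1 + m1 * p1 + m2 * f1 = 0 ∧ u2 + m1 * p2 + m2 * f2 = 0 := by
  obtain ⟨D, hDe⟩ : ∃ D, D = p1 * f2 - p2 * f1 := ⟨_, rfl⟩
  have hD : D < 0 := by nlinarith
  refine ⟨-(u1 * f2 - u2 * f1) / D, -(p1 * u2 - p2 * u1) / D, ?_, ?_, ?_, ?_⟩
  · apply div_pos_of_neg_of_neg _ hD
    have e1 : 427 ≤ u1 * f2 := by nlinarith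
    have e2 : u2 * f1 ≤ 3 := by nlinarith
    linarith
  · apply div_pos_of_neg_of_neg _ hD
    have e1 : 1000 ≤ -(p2 * u1) := by nlinarith
    have e2 : -4 ≤ p1 * u2 := by nlinarith
    linarith
  · have hD' := hD.ne
    field_simp
    rw [hDe]
    ring
  · have hD' := hD.ne
    field_simp
    rw [hDe]
    ring

/-! ### roots -/

theorem root_dec {A B a b : ℝ} (hab : a < b) (ha : 0 < (-A * a + B) * (a + 1) + 1)
    (hb : (-A * b + B) * (b + 1) + 1 < 0) :
    ∃ t, a < t ∧ t < b ∧ (-A * t + B) * (t + 1) + 1 = 0 := by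
  have hc : ContinuousOn (fun t : ℝ => (-A * t + B) * (t + 1) + 1) (Icc a b) := by
    apply Continuous.continuousOn
    fun_prop
  obtain ⟨t, ht, h⟩ := intermediate_value_Ioo' hab.le hc ⟨hb, ha⟩
  exact ⟨t, ht.1, ht.2, h⟩

theorem root_inc {A B a b : ℝ} (hab : a < b) (ha : (-A * a + B) * (a + 1) + 1 < 0)
    (hb : 0 < (-A * b + B) * (b + 1) + 1) :
    ∃ t, a < t ∧ t < b ∧ (-A * t + B) * (t + 1) + 1 = 0 := by
  have hc : ContinuousOn (fun t : ℝ => (-A * t + B) * (t + 1) + 1) (Icc a b) := by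
    apply Continuous.continuousOn
    fun_prop
  obtain ⟨t, ht, h⟩ := intermediate_value_Ioo hab.le hc ⟨ha, hb⟩
  exact ⟨t, ht.1, ht.2, h⟩

theorem root_eq {A B t : ℝ} (ht : t + 1 ≠ 0) (h : (-A * t + B) * (t + 1) + 1 = 0) :
    -A * t + B + 1 / (t + 1) = 0 := by
  field_simp
  linarith

/-- bounds of the real part of `FF` at the negative critical point -/
theorem FF_neg_bd {A : ℝ} (hA0 : 0 ≤ A) (hA : A ≤ 3) {t : ℝ} (h1 : -2 < t) (h2 : t < -1)
    (h : (-A * t + BB) * (t + 1) + 1 = 0) :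
    -320 ≤ (FF A BB (t : ℂ)).re ∧ (FF A BB (t : ℂ)).re ≤ 0 := by
  rw [FF_re_real]
  have hB : BB = 199 / 2 := rfl
  rw [hB] at h ⊢
  have h3 : |t + 1| = -(t + 1) := abs_of_neg (by linarith)
  rw [h3]
  have h4 : 0 < -(t + 1) := by linarith
  have h5 : -(t + 1) ≤ 1 := by linarith
  have h6 : Real.log (-(t + 1)) ≤ 0 := Real.log_nonpos h4.le h5
  have h7 : 1 - (-(t + 1))⁻¹ ≤ Real.log (-(t + 1)) := Real.one_sub_inv_le_log_of_pos h4
  have h8 : (-(t + 1))⁻¹ = -A * t + 199 / 2 := by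
    rw [inv_eq_one_div, div_eq_iff h4.ne']
    linarith
  rw [h8] at h7
  have h9 : 0 ≤ A * t ^ 2 := by positivity
  have h10 : A * t ^ 2 ≤ 3 * 4 := by
    have : t ^ 2 ≤ 4 := by nlinarith
    nlinarith
  constructor
  · nlinarith
  · nlinarith

theorem exists_masses : ∃ m1 m2 t1 t2 r1 r2 : ℝ, 0 < m1 ∧ 0 < m2 ∧
    0 < t1 ∧ -2 < t2 ∧ t2 < -1 ∧ 0 < r1 ∧ -2 < r2 ∧ r2 < -1 ∧
    -A1 * t1 + BB + 1 / (t1 + 1) = 0 ∧ -A1 * t2 + BB + 1 / (t2 + 1) = 0 ∧
    -A2 * r1 + BB + 1 / (r1 + 1) = 0 ∧ -A2 * r2 + BB + 1 / (r2 + 1) = 0 ∧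
    (Phi1 m1 m2 t1).re - (Phi1 m1 m2 I).re = (Phi2 m1 m2 r1).re - (Phi2 m1 m2 I).re ∧
    (Phi1 m1 m2 t2).re - (Phi1 m1 m2 I).re = (Phi2 m1 m2 r2).re - (Phi2 m1 m2 I).re := by
  obtain ⟨t1, ht1, ht1', et1⟩ := root_dec (A := A1) (B := BB) (a := 39) (b := 40) (by norm_num)
    (by unfold A1 BB; norm_num) (by unfold A1 BB; norm_num)
  obtain ⟨t2, ht2, ht2', et2⟩ := root_inc (A := A1) (B := BB) (a := -2) (b := -1) (by norm_num)
    (by unfold A1 BB; norm_num) (by unfold A1 BB; norm_num)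
  obtain ⟨r1, hr1, hr1', er1⟩ := root_dec (A := A2) (B := BB) (a := 199) (b := 200) (by norm_num)
    (by unfold A2 BB; norm_num) (by unfold A2 BB; norm_num)
  obtain ⟨r2, hr2, hr2', er2⟩ := root_inc (A := A2) (B := BB) (a := -2) (b := -1) (by norm_num)
    (by unfold A2 BB; norm_num) (by unfold A2 BB; norm_num)
  have hp1 := Real.pi_gt_d20
  have hp2 := Real.pi_lt_d20
  have htl := th_lo
  have hth := th_hi
  have c1 := coef1 (t := t1) (r := r1) (by linarith) (by linarith)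
  have c1' := coef1' (t := t1) (r := r1) (by linarith) (by linarith)
  have c2 := coef2 (t := t2) (r := r2) ht2' hr2'
  have c2' := coef2' (t := t2) (r := r2) ht2' ht2 hr2'
  -- the constant terms
  have hB : BB = 199 / 2 := rfl
  have hA2 : A2 = 1 / 2 := rfl
  have hA1 : A1 = 50001 / 19994 := rfl
  have hu1 : (FF A1 BB (t1 : ℂ)).re - (FF A1 BB I).re -
      ((FF A2 BB (r1 : ℂ)).re - (FF A2 BB I).re) ≤ -7000 := by
    rw [FF_re_real, FF_re_real, FF_re_I, FF_re_I, hB, hA1, hA2]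
    have h1 : |t1 + 1| = t1 + 1 := abs_of_pos (by linarith)
    have h2 : |r1 + 1| = r1 + 1 := abs_of_pos (by linarith)
    rw [h1, h2]
    have h3 : Real.log (t1 + 1) ≤ t1 + 1 - 1 := Real.log_le_sub_one_of_pos (by linarith)
    have h4 : 0 ≤ Real.log (r1 + 1) := Real.log_nonneg (by linarith)
    nlinarith [sq_nonneg (t1 - 40), sq_nonneg (r1 - 199)]
  obtain ⟨b1, b2⟩ := FF_neg_bd (A := A1) (by rw [hA1]; norm_num) (by rw [hA1]; norm_num) ht2 ht2'
    et2
  obtain ⟨b3, b4⟩ := FF_neg_bd (A := A2) (by rw [hA2]; norm_num) (by rw [hA2]; norm_num) hr2 hr2'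
    er2
  have e1 := FF_re_I A1 BB
  have e2 := FF_re_I A2 BB
  have hu2 : -1000 ≤ (FF A1 BB (t2 : ℂ)).re - (FF A1 BB I).re -
      ((FF A2 BB (r2 : ℂ)).re - (FF A2 BB I).re) := by
    rw [e1, e2, hA1, hA2] at *
    linarith
  have hu2' : (FF A1 BB (t2 : ℂ)).re - (FF A1 BB I).re -
      ((FF A2 BB (r2 : ℂ)).re - (FF A2 BB I).re) ≤ 1000 := by
    rw [e1, e2, hA1, hA2] at *
    linarith
  obtain ⟨m1, m2, hm1, hm2, E1, E2⟩ := cramer
    (p1 := -299130298 / 101979397 - 193990201 / 10299919097 * Real.pi +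
        3078899849199 / 10299919097 * th)
    (p2 := -299130298 / 101979397 + 581970603 / 10299919097 * Real.pi +
        3078899849199 / 10299919097 * th)
    (f1 := -1048465462 / 29991 + 1 / 198 * Real.pi + 6920099970803 / 1979406 * th)
    (f2 := -1048465462 / 29991 - 1 / 66 * Real.pi + 6920099970803 / 1979406 * th)
    (by norm_num at *; linarith) (by norm_num at *; linarith) (by norm_num at *; linarith)
    (by norm_num at *; linarith) (by norm_num at *; linarith) (by norm_num at *; linarith)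
    (by norm_num at *; linarith) hu1 hu2 hu2'
  refine ⟨m1, m2, t1, t2, r1, r2, hm1, hm2, by linarith, ht2, ht2', by linarith, hr2, hr2',
    root_eq (by linarith : (0 : ℝ) < t1 + 1).ne' et1, root_eq (by linarith : t2 + 1 < (0 : ℝ)).ne et2,
    root_eq (by linarith : (0 : ℝ) < r1 + 1).ne' er1, root_eq (by linarith : r2 + 1 < (0 : ℝ)).ne er2,
    ?_, ?_⟩
  · rw [← c1, ← c1'] at E1
    unfold Phi1 Phi2
    simp only [Complex.add_re, Complex.re_ofReal_mul]
    linarith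
  · rw [← c2, ← c2'] at E2
    unfold Phi1 Phi2
    simp only [Complex.add_re, Complex.re_ofReal_mul]
    linarith

end Pool.Agent.TH359.Harm5
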