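import Mathlib

set_option autoImplicit false

namespace Pool.Agent.TH359.J2161

open Pointwise

theorem neumann {F : Type*} [Group F] {X : Type*} [MulAction F X] (A B : Set X) (hA : A.Finite)
    (hB : B.Finite) (h : ∀ p ∈ A, (MulAction.orbit F p).Infinite) :
    ∃ g : F, ∀ p ∈ A, g • p ∉ B := by
  classical
  by_contra hcon
  push Not at hcon
  set s : Finset (X × X) := (hA.toFinset ×ˢ hB.toFinset).filter (fun i => ∃ g : F, g • i.1 = i.2)
    with hs
  have hex : ∀ i : X × X, ∃ g : F, i ∈ s → g • i.1 = i.2 := by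
    intro i
    by_cases hi : i ∈ s
    · obtain ⟨g, hg⟩ := (Finset.mem_filter.1 hi).2
      exact ⟨g, fun _ => hg⟩
    · exact ⟨1, fun h => absurd h hi⟩
  choose γ hγ using hex
  have hcov : ⋃ i ∈ s, γ i • (MulAction.stabilizer F i.1 : Set F) = Set.univ := by
    rw [Set.eq_univ_iff_forall]
    intro g
    obtain ⟨p, hp, hq⟩ := hcon g
    have hi : (p, g • p) ∈ s := by
      rw [hs, Finset.mem_filter, Finset.mem_product]
      exact ⟨⟨hA.mem_toFinset.2 hp, hB.mem_toFinset.2 hq⟩, g, rfl⟩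
    rw [Set.mem_iUnion₂]
    refine ⟨(p, g • p), hi, ?_⟩
    rw [mem_leftCoset_iff, SetLike.mem_coe, MulAction.mem_stabilizer_iff]
    have h1 : γ (p, g • p) • p = g • p := hγ (p, g • p) hi
    show ((γ (p, g • p))⁻¹ * g) • p = p
    rw [mul_smul, inv_smul_eq_iff, h1]
  obtain ⟨i, hi, hfi⟩ := Subgroup.exists_finiteIndex_of_leftCoset_cover hcov
  have hp : i.1 ∈ A := by
    have := (Finset.mem_product.1 (Finset.mem_filter.1 hi).1).1
    exact hA.mem_toFinset.1 this
  apply h i.1 hp
  have : Finite (F ⧸ MulAction.stabilizer F i.1) := Subgroup.finite_quotient_of_finiteIndex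
  have h2 : Finite (MulAction.orbit F i.1) :=
    Finite.of_equiv _ (MulAction.orbitEquivQuotientStabilizer F i.1).symm
  exact Set.toFinite _

end Pool.Agent.TH359.J2161
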