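import Pool.Agent.TH359.TDBoth

set_option autoImplicit false

namespace Pool.Agent.TH359.J2320

open Pool.Agent.TH64 Pool.Agent.TH714.TD Pool.Agent.TH359.TDBoth

section gam
variable {G : Type*} [Group G] {H : Hyp G} {x : G} (A : Ax H x)

theorem s_seg (u : G) (j : ℤ) : A.s u u (u * x ^ j) = j := by
  rw [A.s_line, inv_mul_cancel, A.κ_one, sub_zero]

theorem e_f (c : G) (n i : ℕ) : (c * x ^ n) ^ (i + 1) = (c * x ^ n) ^ i * c * x ^ (n : ℤ) := by
  rw [pow_succ, zpow_natCast, mul_assoc]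

theorem gam_chain (c : G) (hc : c ∉ Subgroup.zpowers x) : ∃ B : ℤ, 0 ≤ B ∧ ∀ n : ℕ, ∀ R : ℕ, 0 < R →
    Chn A n B (fun i => (c * x ^ n) ^ i * c) (fun i => (c * x ^ n) ^ (i + 1)) R 1
      ((c * x ^ n) ^ R) := by
  refine ⟨A.c * H.len c + A.c * A.c + A.c, by positivity, fun n R hR => ?_⟩
  refine ⟨hR, ?_, ?_, ?_, ?_, ?_, ?_⟩
  · intro i _
    try simp only
    rw [e_f, inv_mul_cancel_left]
    exact Subgroup.zpow_mem_zpowers x n
  · intro i _
    try simp only
    rw [e_f, s_seg]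
    exact le_abs_self _
  · intro i _ hmem
    try simp only at hmem
    have e1 : ((c * x ^ n) ^ i * c)⁻¹ * ((c * x ^ n) ^ (i + 1) * c) = x ^ (n : ℤ) * c := by
      rw [e_f]
      group
    rw [e1] at hmem
    apply hc
    have := (Subgroup.zpowers x).mul_mem
      ((Subgroup.zpowers x).inv_mem (Subgroup.zpow_mem_zpowers x (n : ℤ))) hmem
    rwa [inv_mul_cancel_left] at this
  · intro i _ u
    refine lip_le A u _ _ ?_
    have : H.d ((c * x ^ n) ^ (i + 1)) ((c * x ^ n) ^ (i + 1) * c) = H.len c := by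
      unfold Hyp.d
      rw [inv_mul_cancel_left]
    exact this.le
  · intro u
    refine lip_le A u _ _ ?_
    simp only [pow_zero, one_mul]
    exact (H.d_one c).le
  · intro u
    try simp only
    rw [show R - 1 + 1 = R by omega, A.s_self, abs_zero]
    positivity

include A in
theorem gam_inf (c : G) (hc : c ∉ Subgroup.zpowers x) :
    ∃ n0 : ℕ, ∀ n ≥ n0, ¬ IsOfFinOrder (c * x ^ n) := by
  obtain ⟨B, hB0, hB⟩ := gam_chain A c hc
  refine ⟨(2 * B + 4 * A.th + 4 * A.c).toNat + 1, fun n hn hfin => ?_⟩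
  have hn' : 2 * B + 4 * A.th + 4 * A.c < (n : ℤ) := by omega
  obtain ⟨m, hm, hgm⟩ := isOfFinOrder_iff_pow_eq_one.1 hfin
  have h1 := (hB n m hm).val_ge hn' 0 hm
  rw [hgm, A.s_self, abs_zero] at h1
  omega

theorem gam_root : GamRoot A := by
  intro c hc
  obtain ⟨B, hB0, hB⟩ := gam_chain A c hc
  obtain ⟨n1, hn1⟩ := gam_inf A c hc
  refine ⟨max n1 ((3 * B + 6 * A.th + 6 * A.c).toNat + 1), fun n hn w j hw => ?_⟩
  have hn' : 3 * B + 6 * A.th + 6 * A.c < (n : ℤ) := by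
    have := (le_max_right _ _).trans hn
    omega
  have hinf := hn1 n ((le_max_left _ _).trans hn)
  set g := c * x ^ n with hg
  have hcomm : Commute w g := by
    rw [← hw]
    exact (Commute.refl w).zpow_right j
  obtain ⟨K, hK⟩ := both A 1 w⁻¹
  have hch := hB n (2 * K + 1) (by omega)
  rw [← hg] at hch
  have hth := th_pos A
  obtain ⟨i, hi, hi1, hi2⟩ := hK (Finset.range (2 * K + 1)) (fun i => g ^ i * c)
    (g ^ (2 * K + 1)) (fun i hi j hj hij =>
      hch.inj' (by omega) i j hij (Finset.mem_range.1 hi) (Finset.mem_range.1 hj))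
    (by rw [Finset.card_range]; omega)
  try simp only at hi1 hi2
  have hv := hch.val_ge (by omega) i (Finset.mem_range.1 hi)
  try simp only at hv
  rw [mul_one, ← ((hcomm.inv_left).pow_right (2 * K + 1)).eq] at hi2
  have hbig : 2 * A.th + B + A.c < |A.s (w * (g ^ i * c)) 1 (g ^ (2 * K + 1))| := by
    have h1 := A.s_mul w (g ^ i * c) w⁻¹ (w⁻¹ * g ^ (2 * K + 1))
    rw [mul_inv_cancel, mul_inv_cancel_left] at h1
    rw [h1]
    have h2 := abs_tri A (g ^ i * c) 1 w⁻¹ (g ^ (2 * K + 1))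
    have h3 := abs_tri A (g ^ i * c) w⁻¹ (w⁻¹ * g ^ (2 * K + 1)) (g ^ (2 * K + 1))
    rw [abs_s_symm A _ (g ^ (2 * K + 1)) (w⁻¹ * g ^ (2 * K + 1))] at h3
    omega
  have hex : ∃ i' < 2 * K + 1, (g ^ i' * c)⁻¹ * (w * (g ^ i * c)) ∈ Subgroup.zpowers x := by
    by_contra hcon
    push Not at hcon
    have := hch.out (by omega) (w * (g ^ i * c)) hcon
    omega
  obtain ⟨i', _, s, hs⟩ := hex
  have hs' : x ^ s = (g ^ i' * c)⁻¹ * (w * (g ^ i * c)) := hs
  -- `w = g ^ i' * c * x ^ s * c⁻¹ * g ^ (-i)`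
  have hw1 : w * g ^ i = g ^ i' * (c * x ^ s * c⁻¹) := by
    rw [hs']
    group
  have hcx : c * x ^ s * c⁻¹ = (g ^ i')⁻¹ * w * g ^ i := by
    rw [mul_assoc (g ^ i')⁻¹ w, hw1, inv_mul_cancel_left]
  have hcomm2 : Commute (c * x ^ s * c⁻¹) g := by
    rw [hcx]
    exact (((Commute.refl g).pow_left i').inv_left.mul_left hcomm).mul_left
      ((Commute.refl g).pow_left i)
  have hxs : c * x ^ s * c⁻¹ = x ^ s := by
    have h1 : c * x ^ s * c⁻¹ * (c * x ^ n) = (c * x ^ n) * (c * x ^ s * c⁻¹) := hcomm2.eq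
    have h2 : c * (x ^ n * x ^ s) = c * (x ^ n * (c * x ^ s * c⁻¹)) := by
      have e1 : c * x ^ s * c⁻¹ * (c * x ^ n) = c * (x ^ s * x ^ n) := by group
      have e2 : x ^ s * x ^ n = x ^ n * x ^ s :=
        (((Commute.refl x).zpow_left s).pow_right n).eq
      rw [← e2, ← e1, h1, mul_assoc]
    exact (mul_left_cancel (mul_left_cancel h2)).symm
  have hs0 : s = 0 := by
    by_contra hs0
    exact hc (A.elem hs0 hxs)
  rw [hs0, zpow_zero, mul_one, mul_inv_cancel, mul_one] at hw1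
  have hwg : w = g ^ ((i' : ℤ) - i) := by
    rw [zpow_sub, zpow_natCast, zpow_natCast, ← hw1, mul_inv_cancel_right]
  have hgg : g ^ (((i' : ℤ) - i) * j) = g ^ (1 : ℤ) := by
    rw [zpow_mul, ← hwg, hw, zpow_one]
  have hone : ((i' : ℤ) - i) * j = 1 := by
    have hinj := injective_zpow_iff_not_isOfFinOrder.2 hinf
    exact hinj hgg
  have := Int.isUnit_iff.1 (IsUnit.of_mul_eq_one ((i' : ℤ) - i) (by rw [mul_comm]; exact hone) :
    IsUnit j)
  exact this

theorem gam_fix (L : Subgroup G) (hpig : PigL A.toPAx L) : GamFix A L := by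
  intro c hc
  obtain ⟨B, hB0, hB⟩ := gam_chain A c hc
  obtain ⟨θ, hθ⟩ := hpig
  refine ⟨(3 * B + 6 * A.th + 6 * A.c + θ).toNat + 1, fun n hn h => ?_⟩
  have hn' : 3 * B + 6 * A.th + 6 * A.c + θ < (n : ℤ) := by omega
  set g := c * x ^ n with hg
  have hth := th_pos A
  obtain ⟨K, hK⟩ := both A 1 h
  -- positive powers
  have pos : ∀ m : ℕ, 0 < m → h⁻¹ * g ^ m * h ∈ L →
      ∃ t : ℤ, t ≠ 0 ∧ h⁻¹ * (c * x ^ t * c⁻¹) * h ∈ L := by
    intro m hm hmem
    have hpw : ∀ q : ℕ, h⁻¹ * g ^ (m * q) * h ∈ L := by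
      intro q
      have e1 : h⁻¹ * g ^ (m * q) * h = (h⁻¹ * g ^ m * h) ^ q := by
        rw [pow_mul]
        have := conj_pow (i := q) (a := h⁻¹) (b := g ^ m)
        rw [inv_inv] at this
        exact this.symm
      rw [e1]
      exact L.pow_mem hmem q
    have hR : 0 < m * (2 * K + 1) := by positivity
    have hch := hB n (m * (2 * K + 1)) hR
    rw [← hg] at hch
    have hlt : ∀ q < 2 * K + 1, m * q < m * (2 * K + 1) := fun q hq =>
      Nat.mul_lt_mul_of_pos_left hq hm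
    obtain ⟨i, hi, hi1, hi2⟩ := hK (Finset.range (2 * K + 1)) (fun q => g ^ (m * q) * c)
      (g ^ (m * (2 * K + 1))) (fun i hi j hj hij =>
        hch.inj' (by omega) (m * i) (m * j)
          (fun h => hij (Nat.eq_of_mul_eq_mul_left hm h)) (hlt i (Finset.mem_range.1 hi))
          (hlt j (Finset.mem_range.1 hj)))
      (by rw [Finset.card_range]; omega)
    try simp only at hi1 hi2
    have hv := hch.val_ge (by omega) (m * i) (hlt i (Finset.mem_range.1 hi))
    try simp only at hv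
    rw [mul_one] at hi2
    set e := g ^ (m * i) * c with he
    set T := g ^ (m * (2 * K + 1)) with hT
    have h1 := A.s_mul h⁻¹ e h (T * h)
    have e3 : h⁻¹ * (T * h) = h⁻¹ * T * h := (mul_assoc _ _ _).symm
    rw [inv_mul_cancel, e3] at h1
    have h2 : (θ : ℤ) < |A.s (h⁻¹ * e) 1 (h⁻¹ * T * h)| := by
      rw [h1]
      have h3 := abs_tri A e 1 h T
      have h4 := abs_tri A e h (T * h) T
      rw [abs_s_symm A e T (T * h)] at h4
      omega
    obtain ⟨t, ht, htL⟩ := hθ (h⁻¹ * e) 1 L.one_mem _ (hpw (2 * K + 1)) h2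
    refine ⟨t, ht, ?_⟩
    have h5 := hpw i
    have h6 := L.mul_mem (L.mul_mem (L.inv_mem h5) htL) h5
    have e2 : (h⁻¹ * g ^ (m * i) * h)⁻¹ * (h⁻¹ * e * x ^ t * (h⁻¹ * e)⁻¹) *
        (h⁻¹ * g ^ (m * i) * h) = h⁻¹ * (c * x ^ t * c⁻¹) * h := by
      rw [he]
      group
    rwa [e2] at h6
  intro m hm hmem
  rcases lt_or_gt_of_ne hm with h0 | h0
  · have h1 := L.inv_mem hmem
    have e1 : (h⁻¹ * g ^ m * h)⁻¹ = h⁻¹ * g ^ (m.natAbs) * h := by
      have : g ^ (m.natAbs) = (g ^ m)⁻¹ := by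
        rw [← zpow_neg, ← zpow_natCast]
        congr 1
        omega
      rw [this]
      group
    rw [e1] at h1
    exact pos m.natAbs (by omega) h1
  · have e1 : g ^ m = g ^ (m.natAbs) := by
      rw [← zpow_natCast]
      congr 1
      omega
    rw [e1] at hmem
    exact pos m.natAbs (by omega) hmem

theorem gam_sep (c : G) (hc : c ∉ Subgroup.zpowers x) (L : Subgroup G)
    (hpig : PigL A.toPAx L) (hfree : Free L x) (Z : Set G) (hZ : Z.Finite) :
    ∃ n0 : ℕ, ∀ n ≥ n0, ∀ a ∈ Z, ∀ b ∈ Z, ∀ t : ℤ, t ≠ 0 →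
      b⁻¹ * (c * x ^ n) ^ t * a ∉ L := by
  obtain ⟨B, hB0, hB⟩ := gam_chain A c hc
  obtain ⟨θ, hθ⟩ := hpig
  obtain ⟨C0, hC0⟩ := len_bdd H hZ
  obtain ⟨C, hC⟩ : ∃ C : ℤ, C = A.c * C0 + A.c * A.c + A.c := ⟨_, rfl⟩
  refine ⟨(3 * B + 6 * A.th + 6 * A.c + θ + 2 * C).toNat + 1, fun n hn => ?_⟩
  have hn' : 3 * B + 6 * A.th + 6 * A.c + θ + 2 * C < (n : ℤ) := by omega
  have hCnn : 0 ≤ C := by rw [hC]; positivity
  set g := c * x ^ n with hg
  have hth := th_pos A
  have pos : ∀ a ∈ Z, ∀ b ∈ Z, ∀ t : ℕ, 0 < t → b⁻¹ * g ^ t * a ∉ L := by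
    intro a ha b hb t ht hmem
    have hch := hB n t ht
    rw [← hg] at hch
    have hv := hch.val_ge (by omega) 0 ht
    try simp only at hv
    set e := g ^ 0 * c with he
    have h1 := A.s_mul b⁻¹ e b (g ^ t * a)
    have e3 : b⁻¹ * (g ^ t * a) = b⁻¹ * g ^ t * a := (mul_assoc _ _ _).symm
    rw [inv_mul_cancel, e3] at h1
    have d1 : |A.s e b 1| ≤ C := by
      rw [hC]
      exact lip_le A e _ _ (by rw [H.d_one']; exact hC0 b hb)
    have d2 : |A.s e (g ^ t) (g ^ t * a)| ≤ C := by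
      rw [hC]
      refine lip_le A e _ _ ?_
      have : H.d (g ^ t) (g ^ t * a) = H.len a := by
        unfold Hyp.d
        rw [inv_mul_cancel_left]
      rw [this]
      exact hC0 a ha
    have h2 : (θ : ℤ) < |A.s (b⁻¹ * e) 1 (b⁻¹ * g ^ t * a)| := by
      rw [h1]
      have h3 := abs_tri A e 1 b (g ^ t)
      have h4 := abs_tri A e b (g ^ t * a) (g ^ t)
      rw [abs_s_symm A e (g ^ t) (g ^ t * a)] at h4
      rw [abs_s_symm A e b 1] at h3
      omega
    obtain ⟨t', ht', htL⟩ := hθ (b⁻¹ * e) 1 L.one_mem _ hmem h2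
    exact hfree _ t' ht' htL
  intro a ha b hb t ht hmem
  rcases lt_or_gt_of_ne ht with h0 | h0
  · have h1 := L.inv_mem hmem
    have e1 : (b⁻¹ * g ^ t * a)⁻¹ = a⁻¹ * g ^ (t.natAbs) * b := by
      have : g ^ (t.natAbs) = (g ^ t)⁻¹ := by
        rw [← zpow_neg, ← zpow_natCast]
        congr 1
        omega
      rw [this]
      group
    rw [e1] at h1
    exact pos b hb a ha t.natAbs (by omega) h1
  · have e1 : g ^ t = g ^ (t.natAbs) := by
      rw [← zpow_natCast]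
      congr 1
      omega
    rw [e1] at hmem
    exact pos a ha b hb t.natAbs (by omega) hmem

end gam

end Pool.Agent.TH359.J2320
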