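import Pool.Agent.TH359.TDBoth

set_option autoImplicit false

namespace Pool.Agent.TH359.J2322

open Pool.Agent.TH64 Pool.Agent.TH714.TD Pool.Agent.TH359.TDBoth

theorem lx_out {G : Type*} [Group G] {H : Hyp G} {x : G} (A : Ax H x) {k : ℕ} (L : Subgroup G)
    (c : G) (a b : Fin k → G) (hch : WdChain A L c a b) (hwd : ExWd x L c a b)
    (Z : Set G) (hZ : Z.Finite) (hZL : ∀ z ∈ Z, z ∉ L) :
    ∃ n0 : ℕ, ∀ n ≥ n0, ∀ z ∈ Z, z ∉ Lx L x c n a b := by
  obtain ⟨B, hB0, hB⟩ := hch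
  obtain ⟨C0, hC0⟩ := len_bdd H hZ
  obtain ⟨C, hC⟩ : ∃ C : ℤ, C = A.c * C0 + A.c * A.c + A.c := ⟨_, rfl⟩
  have hCnn : 0 ≤ C := by rw [hC]; positivity
  refine ⟨(2 * B + 4 * A.th + 4 * A.c + C).toNat + 1, fun n hn z hz hmem => ?_⟩
  have hn' : 2 * B + 4 * A.th + 4 * A.c + C < (n : ℤ) := by omega
  have hth := th_pos A
  obtain ⟨R, P, w, l, h0, hW, hR⟩ := hwd n z hmem
  rcases Nat.eq_zero_or_pos R with h | h
  · rw [h] at hR
    rw [hR] at h0
    exact hZL z hz h0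
  · have h1 := hB n R P w l h hW 1 z (by simpa using h0) (by rw [hR]; simp)
    have h2 := h1.val_ge (by omega) 0 (by omega)
    have h3 : |A.s (we x c n a b P w 0) 1 z| ≤ C := by
      rw [hC]
      exact lip_le A _ _ _ (by rw [H.d_one]; exact hC0 z hz)
    omega

theorem no_mix {G : Type*} [Group G] {H : Hyp G} {x : G} (A : Ax H x) {k : ℕ} (L : Subgroup G)
    (c : G) (a b : Fin k → G) (hch : WdChain A L c a b) (hpig : PigL A.toPAx L)
    (hfree : Free L x) : ∃ n0 : ℕ, ∀ n ≥ n0, ∀ (σ : G) (R : ℕ) (P : ℕ → G)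
      (w : ℕ → Bool × Fin k) (l : ℕ → G), 0 < R →
      (∀ r, Wd L x c n a b r P w l) → (∀ i, P (i + R) = σ * P i) → (∀ i, w (i + R) = w i) →
      ∀ h : G, h⁻¹ * σ * h ∉ L := by
  obtain ⟨B, hB0, hB⟩ := hch
  obtain ⟨θ, hθ⟩ := hpig
  refine ⟨(2 * B + 4 * A.th + 4 * A.c + θ).toNat + 1, fun n hn σ R P w l hR hW hP hw h hmem => ?_⟩
  have hn' : 2 * B + 4 * A.th + 4 * A.c + θ < (n : ℤ) := by omega
  have hth := th_pos A
  have hPm : ∀ m : ℕ, P (m * R) = σ ^ m * P 0 := by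
    intro m
    induction m with
    | zero => simp
    | succ m ih => rw [Nat.succ_mul, hP, ih, pow_succ', mul_assoc]
  obtain ⟨K, hK⟩ := both A (P 0) h
  obtain ⟨m, hm⟩ : ∃ m, m = 2 * K + 1 := ⟨_, rfl⟩
  have hmR : 0 < m * R := by rw [hm]; positivity
  have hc := hB n (m * R) P w l hmR (hW _) (P 0) (P (m * R)) (by simp)
    (by simp)
  have h1 : h⁻¹ * σ ^ m * h ∈ L := by
    have e1 : h⁻¹ * σ ^ m * h = (h⁻¹ * σ * h) ^ m := by
      have := conj_pow (i := m) (a := h⁻¹) (b := σ)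
      rw [inv_inv] at this
      exact this.symm
    rw [e1]
    exact L.pow_mem hmem m
  have hbd : ∀ u : G, |A.s u h (σ ^ m * h)| ≤ θ := by
    intro u
    by_contra hcon
    push Not at hcon
    have h2 := A.s_mul h⁻¹ u h (σ ^ m * h)
    have e3 : h⁻¹ * (σ ^ m * h) = h⁻¹ * σ ^ m * h := (mul_assoc _ _ _).symm
    rw [inv_mul_cancel, e3] at h2
    rw [← h2] at hcon
    obtain ⟨t, ht, htL⟩ := hθ (h⁻¹ * u) 1 L.one_mem _ h1 hcon
    exact hfree _ t ht htL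
  obtain ⟨i, hi, hi1, hi2⟩ := hK (Finset.range (3 * (m * R))) (we x c n a b P w) (σ ^ m)
    (fun i hi j hj hij =>
      hc.inj' (by omega) i j hij (Finset.mem_range.1 hi) (Finset.mem_range.1 hj))
    (by
      rw [Finset.card_range, hm]
      have : 2 * K + 1 ≤ (2 * K + 1) * R := Nat.le_mul_of_pos_right _ hR
      omega)
  have hv := hc.val_ge (by omega) i (Finset.mem_range.1 hi)
  rw [hPm] at hv
  set e := we x c n a b P w i with he
  have h3 := abs_tri A e (P 0) h (σ ^ m * P 0)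
  have h4 := abs_tri A e h (σ ^ m * h) (σ ^ m * P 0)
  rw [abs_s_symm A e (σ ^ m * P 0) (σ ^ m * h)] at h4
  have h5 := hbd e
  omega

end Pool.Agent.TH359.J2322
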