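import Pool.Agent.TH359.TDBoth

set_option autoImplicit false

namespace Pool.Agent.TH359.J2323

open Pool.Agent.TH64 Pool.Agent.TH714.TD Pool.Agent.TH359.TDBoth

section aux
variable {G : Type*} [Group G]

/-- points almost on a geodesic: the middle one is almost between the outer ones -/
theorem middle (H : Hyp G) {g X Y v : G} {e : ℕ} (hX : H.d 1 X + H.d X g ≤ H.d 1 g + e)
    (hY : H.d 1 Y + H.d Y g ≤ H.d 1 g + e) (hv : H.d 1 v + H.d v g = H.d 1 g)
    (h1 : H.d 1 X ≤ H.d 1 v) (h2 : H.d 1 v ≤ H.d 1 Y) :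
    H.d X v + H.d v Y ≤ H.d X Y + (2 * e + 2 * H.D) := by
  have a1 := H.fp X v 1 g
  have a2 := H.fp v Y 1 g
  have a3 := H.d_tri 1 X Y
  rw [H.d_comm X 1, H.d_comm v 1] at a1
  rw [H.d_comm v 1, H.d_comm Y 1] at a2
  omega

/-- a point of the line with small displacement from `1` is almost between `1` and `g` -/
theorem entry {H : Hyp G} {x : G} (A : Ax H x) {E g : G} {β : ℕ} (h1 : |A.s E 1 E| ≤ β)
    (h2 : (A.c : ℤ) < |A.s E 1 g|) :
    H.d 1 E + H.d E g ≤ H.d 1 g + (A.c + 2 * (β * H.len x)) := by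
  have a1 := A.pr_between E 1 g h2
  have a2 := A.d_pr_pr E 1 E
  have a3 : A.pr E E = E := by
    unfold PAx.pr
    rw [inv_mul_cancel, A.κ_one, zpow_zero, mul_one]
  rw [a3] at a2
  have a4 := Close.len_zpow_le' H x (A.s E 1 E) β h1
  have a5 := H.d_tri 1 (A.pr E 1) E
  have a6 := H.d_tri E (A.pr E 1) g
  rw [H.d_comm E (A.pr E 1)] at a6
  omega

theorem near_L {H : Hyp G} {L : Subgroup G} {k0 : ℕ} (hL : H.QC (L : Set G) k0) {l v : G} {e : ℕ}
    (hl : l ∈ L) (h : H.d 1 v + H.d v l ≤ H.d 1 l + e) : ∃ q ∈ L, H.d v q ≤ e + H.D + k0 := by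
  obtain ⟨w, hw, hwv⟩ := Close.near_pt H h
  obtain ⟨q, hq, hwq⟩ := hL 1 L.one_mem l hl w hw
  refine ⟨q, hq, ?_⟩
  have := H.d_tri v w q
  rw [H.d_comm v w] at this
  omega

variable {k : ℕ} {L : Subgroup G} {x c : G} {n : ℕ} {a b : Fin k → G}

theorem ss_mem (s : Bool × Fin k) : ss x c n a b s ∈ Lx L x c n a b := by
  have h1 : (b s.2)⁻¹ * tt x c n * a s.2 ∈ Lx L x c n a b :=
    Subgroup.subset_closure (Or.inr ⟨s.2, rfl⟩)
  unfold ss
  split_ifs
  · exact h1
  · have h2 := (Lx L x c n a b).inv_mem h1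
    have e : ((b s.2)⁻¹ * tt x c n * a s.2)⁻¹ = (a s.2)⁻¹ * (tt x c n)⁻¹ * b s.2 := by group
    rwa [e] at h2

theorem L_le : L ≤ Lx L x c n a b := fun _ h => Subgroup.subset_closure (Or.inl h)

theorem we_zero (P : ℕ → G) (w : ℕ → Bool × Fin k) (i : ℕ) :
    we x c n a b P w (3 * i) = P i * (pp a b (w i))⁻¹ := by
  unfold we
  have e1 : 3 * i / 3 = i := by omega
  have e2 : 3 * i % 3 = 0 := by omega
  rw [e1, e2]
  unfold so
  simp

end aux

theorem lx_QC {G : Type*} [Group G] {H : Hyp G} {x : G} (A : Ax H x) {k : ℕ} (L : Subgroup G)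
    (k0 : ℕ) (hL : H.QC (L : Set G) k0) (c : G) (a b : Fin k → G) (hch : WdChain A L c a b)
    (hwd : ExWd x L c a b) : ∃ n0 : ℕ, ∀ n ≥ n0, ∃ k1 : ℕ,
      H.QC (Lx L x c n a b : Set G) k1 := by
  obtain ⟨B, hB0, hB⟩ := hch
  refine ⟨(2 * B + 4 * A.th + 4 * A.c).toNat + 1, fun n hn => ?_⟩
  have hn' : 2 * B + 4 * A.th + 4 * A.c < (n : ℤ) := by omega
  have hth := th_pos A
  -- constants
  obtain ⟨β, hβ⟩ : ∃ β : ℕ, (β : ℤ) = B + A.th := ⟨(B + A.th).toNat, by omega⟩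
  obtain ⟨ca, hca⟩ := len_bdd H (Set.finite_range (fun s : Bool × Fin k => pp a b s))
  obtain ⟨S, hS⟩ := len_bdd H (Set.finite_range (fun s : Bool × Fin k => ss x c n a b s))
  obtain ⟨e0, he0⟩ : ∃ e0 : ℕ, e0 = A.c + 2 * (β * H.len x) + 2 * ca := ⟨_, rfl⟩
  obtain ⟨k1, hk1⟩ : ∃ k1 : ℕ, k1 = 2 * e0 + 3 * H.D + 2 * S + k0 := ⟨_, rfl⟩
  have main : ∀ g ∈ Lx L x c n a b, ∀ v, H.d 1 v + H.d v g = H.d 1 g →
      ∃ q ∈ Lx L x c n a b, H.d v q ≤ k1 := by
    intro g hg v hv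
    obtain ⟨R, P, w, l, h0, hW, hR⟩ := hwd n g hg
    rcases Nat.eq_zero_or_pos R with hR0 | hR0
    · rw [hR0] at hR
      rw [hR] at h0
      obtain ⟨q, hq, hq2⟩ := hL 1 L.one_mem g h0 v hv
      exact ⟨q, L_le hq, by omega⟩
    have hc := hB n R P w l hR0 hW 1 g (by simpa using h0) (by rw [hR]; simp)
    have hPmem : ∀ i ≤ R, P i ∈ Lx L x c n a b := by
      intro i
      induction i with
      | zero => exact fun _ => L_le h0
      | succ i ih =>
        intro hi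
        rw [hW.step i (by omega)]
        exact (Lx L x c n a b).mul_mem ((Lx L x c n a b).mul_mem (ih (by omega)) (ss_mem _))
          (L_le (hW.mem i (by omega)))
    have halm : ∀ i ≤ R, H.d 1 (P i) + H.d (P i) g ≤ H.d 1 g + e0 := by
      intro i hi
      rcases Nat.lt_or_ge i R with hiR | hiR
      · have h1 := hc.left hn' (3 * i) (by omega)
        have h2 := hc.val_ge hn' (3 * i) (by omega)
        rw [we_zero] at h1 h2
        have h3 := entry A (β := β) (by rw [hβ]; exact h1) (by omega) (g := g)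
        have h4 : H.d (P i) (P i * (pp a b (w i))⁻¹) ≤ ca := by
          unfold Hyp.d
          rw [inv_mul_cancel_left, H.len_inv]
          exact hca _ ⟨w i, rfl⟩
        have h5 := H.d_tri 1 (P i * (pp a b (w i))⁻¹) (P i)
        have h6 := H.d_tri (P i) (P i * (pp a b (w i))⁻¹) g
        rw [H.d_comm (P i * (pp a b (w i))⁻¹) (P i)] at h5
        omega
      · have : i = R := by omega
        rw [this, hR, H.d_self]
        omega
    by_cases hA : H.d 1 v ≤ H.d 1 (P 0)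
    · have h1 := middle H (X := 1) (Y := P 0) (g := g) (v := v) (e := e0)
        (by rw [H.d_self]; omega) (halm 0 (by omega)) hv (by rw [H.d_self]; omega) hA
      obtain ⟨q, hq, hq2⟩ := near_L hL h0 h1
      exact ⟨q, L_le hq, by omega⟩
    · push Not at hA
      classical
      have hex : ∃ j, j ≤ R ∧ H.d 1 v ≤ H.d 1 (P j) := ⟨R, le_rfl, by rw [hR]; omega⟩
      obtain ⟨j, hj, hmin⟩ : ∃ j, (j ≤ R ∧ H.d 1 v ≤ H.d 1 (P j)) ∧
          ∀ i < j, ¬ (i ≤ R ∧ H.d 1 v ≤ H.d 1 (P i)) :=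
        ⟨Nat.find hex, Nat.find_spec hex, fun i hi => Nat.find_min hex hi⟩
      have hj0 : j ≠ 0 := by
        rintro rfl
        omega
      obtain ⟨i, rfl⟩ := Nat.exists_eq_succ_of_ne_zero hj0
      have hi : H.d 1 (P i) < H.d 1 v := by
        by_contra hcon
        push Not at hcon
        exact hmin i (Nat.lt_succ_self i) ⟨by omega, hcon⟩
      have hiR : i < R := by
        have := hj.1
        omega
      have h1 := middle H (X := P i) (Y := P (i + 1)) (g := g) (v := v) (e := e0)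
        (halm i (by omega)) (halm (i + 1) (by omega)) hv hi.le hj.2
      obtain ⟨Q, hQ⟩ : ∃ Q, Q = P i * ss x c n a b (w i) := ⟨_, rfl⟩
      have hQd : H.d (P i) Q ≤ S := by
        unfold Hyp.d
        rw [hQ, inv_mul_cancel_left]
        exact hS _ ⟨w i, rfl⟩
      have hstep : P (i + 1) = Q * l i := by rw [hQ]; exact hW.step i hiR
      have t1 := H.d_tri Q (P i) v
      have t2 := H.d_tri (P i) Q (P (i + 1))
      rw [H.d_comm Q (P i)] at t1
      have h2 : H.d 1 (Q⁻¹ * v) + H.d (Q⁻¹ * v) (l i) ≤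
          H.d 1 (l i) + (2 * e0 + 2 * H.D + 2 * S) := by
        have e1 := H.d_mul Q 1 (Q⁻¹ * v)
        have e2 := H.d_mul Q (Q⁻¹ * v) (l i)
        have e3 := H.d_mul Q 1 (l i)
        rw [mul_one, mul_inv_cancel_left] at e1
        rw [mul_inv_cancel_left, ← hstep] at e2
        rw [mul_one, ← hstep] at e3
        omega
      obtain ⟨q, hq, hq2⟩ := near_L hL (hW.mem i hiR) h2
      refine ⟨Q * q, ?_, ?_⟩
      · rw [hQ]
        exact (Lx L x c n a b).mul_mem ((Lx L x c n a b).mul_mem (hPmem i (by omega)) (ss_mem _))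
          (L_le hq)
      · have e1 := H.d_mul Q (Q⁻¹ * v) q
        rw [mul_inv_cancel_left] at e1
        omega
  refine ⟨k1, fun g hg g' hg' p hp => ?_⟩
  have h1 : H.d 1 (g⁻¹ * p) + H.d (g⁻¹ * p) (g⁻¹ * g') = H.d 1 (g⁻¹ * g') := by
    have e1 := H.d_mul g 1 (g⁻¹ * p)
    have e2 := H.d_mul g (g⁻¹ * p) (g⁻¹ * g')
    have e3 := H.d_mul g 1 (g⁻¹ * g')
    rw [mul_one, mul_inv_cancel_left] at e1 e3
    rw [mul_inv_cancel_left, mul_inv_cancel_left] at e2
    omega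
  obtain ⟨q, hq, hq2⟩ := main (g⁻¹ * g')
    ((Lx L x c n a b).mul_mem ((Lx L x c n a b).inv_mem hg) hg') (g⁻¹ * p) h1
  refine ⟨g * q, (Lx L x c n a b).mul_mem hg hq, ?_⟩
  have e1 := H.d_mul g (g⁻¹ * p) q
  rw [mul_inv_cancel_left] at e1
  omega

end Pool.Agent.TH359.J2323
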