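import Pool.Agent.TH714.TD.Base

set_option autoImplicit false

namespace Pool.Agent.TH359.TDBoth

open Pool.Agent.TH64 Pool.Agent.TH714.TD

/-- most lines separate neither `h, h'` nor `τ h, τ h'` -/
theorem both {G : Type*} [Group G] {H : Hyp G} {x : G} (A : Ax H x) (h h' : G) :
    ∃ K : ℕ, ∀ (I : Finset ℕ) (e : ℕ → G) (τ : G),
      (∀ i ∈ I, ∀ j ∈ I, i ≠ j → (e i)⁻¹ * e j ∉ Subgroup.zpowers x) → 2 * K < I.card →
      ∃ i ∈ I, |A.s (e i) h h'| ≤ A.c ∧ |A.s (e i) (τ * h) (τ * h')| ≤ A.c := by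
  classical
  obtain ⟨K, hK⟩ := far_count A h h'
  refine ⟨K, fun I e τ hd hc => ?_⟩
  by_contra hcon
  push Not at hcon
  set I1 := I.filter (fun i => (A.c : ℤ) < |A.s (e i) h h'|) with hI1
  set I2 := I.filter (fun i => (A.c : ℤ) < |A.s (e i) (τ * h) (τ * h')|) with hI2
  have h1 : I1.card ≤ K := hK I1 e
    (fun i hi j hj hij => hd i (Finset.mem_filter.1 hi).1 j (Finset.mem_filter.1 hj).1 hij)
    (fun i hi => (Finset.mem_filter.1 hi).2)
  have h2 : I2.card ≤ K := by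
    refine hK I2 (fun i => τ⁻¹ * e i) ?_ ?_
    · intro i hi j hj hij
      have e1 : (τ⁻¹ * e i)⁻¹ * (τ⁻¹ * e j) = (e i)⁻¹ * e j := by group
      rw [e1]
      exact hd i (Finset.mem_filter.1 hi).1 j (Finset.mem_filter.1 hj).1 hij
    · intro i hi
      have h3 := (Finset.mem_filter.1 hi).2
      have h4 := A.s_mul τ (τ⁻¹ * e i) h h'
      rw [mul_inv_cancel_left] at h4
      rwa [← h4]
  have h3 : I ⊆ I1 ∪ I2 := by
    intro i hi
    rw [Finset.mem_union]
    by_cases h4 : |A.s (e i) h h'| ≤ A.c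
    · right
      exact Finset.mem_filter.2 ⟨hi, hcon i hi h4⟩
    · left
      push Not at h4
      exact Finset.mem_filter.2 ⟨hi, h4⟩
  have h4 := (Finset.card_le_card h3).trans (Finset.card_union_le _ _)
  omega

/-- lengths of the elements of a finite set are bounded -/
theorem len_bdd {G : Type*} [Group G] (H : Hyp G) {Z : Set G} (hZ : Z.Finite) :
    ∃ C : ℕ, ∀ z ∈ Z, H.len z ≤ C := by
  obtain ⟨C, hC⟩ := (hZ.image H.len).bddAbove
  exact ⟨C, fun z hz => hC ⟨z, hz, rfl⟩⟩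

theorem lip_le {G : Type*} [Group G] {H : Hyp G} {x : G} (A : Ax H x) {m : ℕ} (u p q : G)
    (h : H.d p q ≤ m) : |A.s u p q| ≤ A.c * m + A.c * A.c + A.c := by
  have h1 := A.lip_s u p q
  have h2 : (A.c : ℤ) * (H.d p q : ℤ) ≤ A.c * m :=
    mul_le_mul_of_nonneg_left (by exact_mod_cast h) (by positivity)
  omega

end Pool.Agent.TH359.TDBoth
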