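import Pool.Agent.TH32.H.Stmts

set_option autoImplicit false

namespace Pool.Agent.TH359.TZH

open Pool.Agent.H260TZ Pool.Agent.TH32

variable {R : Type} [CommRing R] [IsDomain R] (D : DV R)

lemma tp_dvd_tp {a b : ℕ} : D.t ^ a ∣ D.t ^ b ↔ a ≤ b :=
  pow_dvd_pow_iff D.t_ne D.nu

lemma mem_NN {m k n : ℕ} {z τ₁ τ₂ x y a : R} :
    (((x, y), a) : MR R) ∈ NN D m k z n τ₁ τ₂ ↔
      ∃ e1 e2 e3 : R, x = -(D.t ^ m * z) * e1 + D.t ^ (m + k) * e2 ∧ y = D.t ^ m * e1 ∧
        a = e1 * τ₁ + e2 * τ₂ + D.t ^ n * e3 := by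
  unfold NN
  rw [Submodule.mem_span_triple]
  constructor
  · rintro ⟨e1, e2, e3, h⟩
    refine ⟨e1, e2, e3, ?_, ?_, ?_⟩
    · have := congrArg (fun p : MR R => p.1.1) h
      simp at this
      rw [← this]
      ring
    · have := congrArg (fun p : MR R => p.1.2) h
      simp at this
      rw [← this]
      ring
    · have := congrArg (fun p : MR R => p.2) h
      simp at this
      rw [← this]
      ring
  · rintro ⟨e1, e2, e3, h1, h2, h3⟩
    refine ⟨e1, e2, e3, ?_⟩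
    refine Prod.ext (Prod.ext ?_ ?_) ?_
    · simp
      rw [h1]
      ring
    · simp
      rw [h2]
      ring
    · simp
      rw [h3]
      ring

lemma n1_mem (m k n : ℕ) (z τ₁ τ₂ : R) :
    (((-(D.t ^ m * z), D.t ^ m), τ₁) : MR R) ∈ NN D m k z n τ₁ τ₂ := by
  rw [mem_NN]
  exact ⟨1, 0, 0, by ring, by ring, by ring⟩

lemma n2_mem (m k n : ℕ) (z τ₁ τ₂ : R) :
    (((D.t ^ (m + k), 0), τ₂) : MR R) ∈ NN D m k z n τ₁ τ₂ := by
  rw [mem_NN]
  exact ⟨0, 1, 0, by ring, by ring, by ring⟩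

lemma n3_mem (m k n : ℕ) (z τ₁ τ₂ : R) :
    (((0, 0), D.t ^ n) : MR R) ∈ NN D m k z n τ₁ τ₂ := by
  rw [mem_NN]
  exact ⟨0, 0, 1, by ring, by ring, by ring⟩

/-- membership of vectors with second coordinate zero -/
lemma mem_c {m k n : ℕ} {z τ₁ τ₂ x a : R} :
    (((x, 0), a) : MR R) ∈ NN D m k z n τ₁ τ₂ ↔
      ∃ e : R, x = D.t ^ (m + k) * e ∧ D.t ^ n ∣ a - e * τ₂ := by
  rw [mem_NN]
  constructor
  · rintro ⟨e1, e2, e3, h1, h2, h3⟩
    have he1 : e1 = 0 := by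
      rcases mul_eq_zero.1 h2.symm with h | h
      · exact absurd h (D.tpow_ne m)
      · exact h
    subst he1
    exact ⟨e2, by rw [h1]; ring, e3, by rw [h3]; ring⟩
  · rintro ⟨e, h1, e3, h3⟩
    exact ⟨0, e, e3, by rw [h1]; ring, by ring, by linear_combination h3⟩

/-- membership of vectors with both coordinates zero -/
lemma mem_0 {m k n : ℕ} {z τ₁ τ₂ a : R} :
    (((0, 0), a) : MR R) ∈ NN D m k z n τ₁ τ₂ ↔ D.t ^ n ∣ a := by
  rw [mem_c]
  constructor
  · rintro ⟨e, h1, h2⟩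
    have he : e = 0 := by
      rcases mul_eq_zero.1 h1.symm with h | h
      · exact absurd h (D.tpow_ne _)
      · exact h
    subst he
    simpa using h2
  · intro h
    exact ⟨0, by ring, by simpa using h⟩

/-- membership of vectors with first coordinate zero -/
lemma mem_d {m k n : ℕ} {z τ₁ τ₂ x a : R} {l : ℕ} {z₁ : R} (hl : l ≤ k)
    (hz : z = D.t ^ l * z₁) (hu : l < k → IsUnit z₁) :
    (((0, x), a) : MR R) ∈ NN D m k z n τ₁ τ₂ ↔
      ∃ e : R, x = D.t ^ (m + k - l) * e ∧ D.t ^ n ∣ a - e * (D.t ^ (k - l) * τ₁ + z₁ * τ₂) := by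
  have ek : D.t ^ (m + k) = D.t ^ m * D.t ^ l * D.t ^ (k - l) := by
    rw [← pow_add, ← pow_add]
    congr 1
    omega
  have ekl : D.t ^ (m + k - l) = D.t ^ m * D.t ^ (k - l) := by
    rw [← pow_add]
    congr 1
    omega
  rw [mem_NN]
  constructor
  · rintro ⟨e1, e2, e3, h1, h2, h3⟩
    have h4 : z₁ * e1 = D.t ^ (k - l) * e2 := by
      have h5 : D.t ^ m * D.t ^ l * (z₁ * e1) = D.t ^ m * D.t ^ l * (D.t ^ (k - l) * e2) := by
        rw [hz, ek] at h1
        linear_combination h1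
      exact mul_left_cancel₀ (mul_ne_zero (D.tpow_ne m) (D.tpow_ne l)) h5
    rcases Nat.lt_or_ge l k with hlk | hlk
    · obtain ⟨u, hu⟩ := hu hlk
      have hui : (u : R) * (↑u⁻¹ : R) = 1 := Units.mul_inv u
      have e1e : e1 = D.t ^ (k - l) * ((↑u⁻¹ : R) * e2) := by
        rw [← hu] at h4
        linear_combination (↑u⁻¹ : R) * h4 - e1 * hui
      refine ⟨(↑u⁻¹ : R) * e2, ?_, e3, ?_⟩
      · rw [h2, ekl, e1e]
        ring
      · rw [h3, ← hu]
        linear_combination τ₁ * e1e - e2 * τ₂ * hui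
    · have hkl : k - l = 0 := by omega
      rw [hkl, pow_zero, one_mul] at h4
      refine ⟨e1, ?_, e3, ?_⟩
      · rw [h2, ekl, hkl, pow_zero]
        ring
      · rw [h3, hkl, pow_zero]
        linear_combination -τ₂ * h4
  · rintro ⟨e, h1, e3, h3⟩
    refine ⟨D.t ^ (k - l) * e, z₁ * e, e3, ?_, ?_, ?_⟩
    · rw [hz, ek]
      ring
    · rw [h1, ekl]
      ring
    · linear_combination h3

lemma lev_iff {n j : ℕ} {a : R} {c : ℕ} (hc : c = D.lev n a) (hj : j ≤ n) :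
    D.t ^ j ∣ a ↔ j ≤ c := by
  rw [hc]
  exact D.dvd_iff_lev hj a

lemma lev_unique {n : ℕ} {a : R} {c : ℕ} (hc : c ≤ n) (h : ∀ j ≤ n, (D.t ^ j ∣ a ↔ j ≤ c)) :
    D.lev n a = c := by
  apply le_antisymm
  · exact (h _ (D.lev_le n a)).1 (D.lev_dvd n a)
  · exact (D.dvd_iff_lev hc a).1 ((h c hc).2 le_rfl)

lemma lev_small {n μ : ℕ} (hμ : μ ≤ n) (a : R) : D.lev μ a = min μ (D.lev n a) := by
  apply lev_unique D (min_le_left _ _)
  intro j hj
  rw [D.dvd_iff_lev (hj.trans hμ)]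
  omega

/-- the main divisibility lemma -/
lemma L1 {n b M A c μ : ℕ} {τ e a : R} (hA : A = D.lev n τ) (hc : c = D.lev n a)
    (he : D.t ^ b * τ = D.t ^ M * e) (hM : M ≤ b + A) (hM' : M ≤ b + c) (hμ : μ ≤ n) :
    D.t ^ μ ∣ e * a ↔ μ + M ≤ b + A + c := by
  have hAn : A ≤ n := hA ▸ D.lev_le n τ
  rw [mul_comm, D.dvd_mul_iff μ, lev_small D hμ a, ← hc]
  rw [← mul_dvd_mul_iff_left (D.tpow_ne M), ← he, ← pow_add]
  set r := M + (μ - min μ c) with hr
  have h1 : D.t ^ r ∣ D.t ^ b * τ ↔ D.t ^ (r - b) ∣ τ := by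
    rcases Nat.lt_or_ge r b with hb | hb
    · have : r - b = 0 := by omega
      rw [this, pow_zero]
      simp only [one_dvd, iff_true]
      exact Dvd.dvd.mul_right (pow_dvd_pow _ hb.le) _
    · have e : D.t ^ r = D.t ^ b * D.t ^ (r - b) := by
        rw [← pow_add]
        congr 1
        omega
      rw [e, mul_dvd_mul_iff_left (D.tpow_ne b)]
  rw [h1, lev_iff D hA (by omega)]
  omega

lemma dvd_tb {n b M A : ℕ} {τ : R} (hA : A = D.lev n τ) (hM : M ≤ b + n) :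
    (∃ e, D.t ^ b * τ = D.t ^ M * e) ↔ M ≤ b + A := by
  rcases Nat.lt_or_ge M b with hb | hb
  · constructor
    · intro _
      omega
    · intro _
      exact ⟨D.t ^ (b - M) * τ, by rw [← mul_assoc, ← pow_add]; congr 2; omega⟩
  · have e : D.t ^ M = D.t ^ b * D.t ^ (M - b) := by
      rw [← pow_add]
      congr 1
      omega
    have h1 : (∃ e, D.t ^ b * τ = D.t ^ M * e) ↔ D.t ^ (M - b) ∣ τ := by
      constructor
      · rintro ⟨f, hf⟩
        refine ⟨f, ?_⟩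
        rw [e, mul_assoc] at hf
        exact mul_left_cancel₀ (D.tpow_ne b) hf
      · rintro ⟨f, hf⟩
        exact ⟨f, by rw [hf, e]; ring⟩
    rw [h1, lev_iff D hA (by omega)]
    omega

omit [IsDomain R] in
lemma dvd_sub_iff_dvd_iff {d x y : R} (h : d ∣ x - y) : d ∣ x ↔ d ∣ y := by
  constructor
  · intro hx
    have := dvd_sub hx h
    rwa [sub_sub_cancel] at this
  · intro hy
    have := dvd_add h hy
    rwa [sub_add_cancel] at this

/-- a single congruence -/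
lemma FL {n mc M B : ℕ} {v r : R} (hv : IsUnit v)
    (K : ∀ μ ≤ n, (D.t ^ μ ∣ r ↔ μ + M ≤ B)) :
    ((∃ w, D.t ^ n ∣ D.t ^ mc * v * w - r) ↔ min mc n + M ≤ B) ∧
    (∀ w₀, D.t ^ n ∣ D.t ^ mc * v * w₀ - r →
      (∀ w, D.t ^ n ∣ D.t ^ mc * v * w - r ↔ D.t ^ (n - mc) ∣ w - w₀) ∧
      D.lev (n - mc) w₀ = if n + M ≤ B then n - mc else B - M - mc) := by
  obtain ⟨u, rfl⟩ := hv
  have hu : (u : R) * (↑u⁻¹ : R) = 1 := Units.mul_inv u
  have ex : (∃ w, D.t ^ n ∣ D.t ^ mc * (u : R) * w - r) ↔ min mc n + M ≤ B := by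
    rw [← K _ (min_le_right _ _)]
    constructor
    · rintro ⟨w, hw⟩
      have h1 : D.t ^ (min mc n) ∣ D.t ^ mc * (u : R) * w := by
        rw [mul_assoc]
        exact Dvd.dvd.mul_right (pow_dvd_pow _ (min_le_left _ _)) _
      have h2 : D.t ^ (min mc n) ∣ D.t ^ mc * (u : R) * w - r :=
        (pow_dvd_pow _ (min_le_right _ _)).trans hw
      have h3 := dvd_sub h1 h2
      rwa [sub_sub_cancel] at h3
    · intro h
      rcases Nat.lt_or_ge n mc with hn | hn
      · rw [min_eq_right hn.le] at h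
        refine ⟨0, ?_⟩
        rw [mul_zero, zero_sub, dvd_neg]
        exact h
      · rw [min_eq_left hn] at h
        obtain ⟨c, hc⟩ := h
        refine ⟨(↑u⁻¹ : R) * c, 0, ?_⟩
        rw [hc]
        linear_combination (D.t ^ mc * c) * hu
  refine ⟨ex, fun w₀ h0 => ⟨fun w => ?_, ?_⟩⟩
  · have h1 : D.t ^ n ∣ D.t ^ mc * (u : R) * w - r ↔ D.t ^ n ∣ D.t ^ mc * (w - w₀) := by
      have e : D.t ^ mc * (u : R) * w - r = (u : R) * (D.t ^ mc * (w - w₀)) +
          (D.t ^ mc * (u : R) * w₀ - r) := by ring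
      rw [e, dvd_add_left h0, Units.dvd_mul_left]
    rw [h1, D.dvd_mul_iff n]
    have h2 : D.lev n (D.t ^ mc) = min n mc := by
      apply lev_unique D (min_le_left _ _)
      intro j hj
      rw [tp_dvd_tp]
      omega
    rw [h2]
    have h3 : n - min n mc = n - mc := by omega
    rw [h3]
  · have hB := ex.1 ⟨w₀, h0⟩
    apply lev_unique D
    · split_ifs <;> omega
    · intro j hj
      rcases Nat.lt_or_ge mc n with hn | hn
      · have h1 : D.t ^ j ∣ w₀ ↔ D.t ^ (j + mc) ∣ r := by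
          have e : D.t ^ (j + mc) = D.t ^ mc * D.t ^ j := by rw [← pow_add, add_comm]
          have h2 : D.t ^ j ∣ w₀ ↔ D.t ^ (j + mc) ∣ D.t ^ mc * (u : R) * w₀ := by
            rw [e, mul_assoc, mul_dvd_mul_iff_left (D.tpow_ne mc), Units.dvd_mul_left]
          rw [h2]
          have h3 : D.t ^ (j + mc) ∣ D.t ^ mc * (u : R) * w₀ - r :=
            (pow_dvd_pow _ (by omega)).trans h0
          exact (dvd_sub_iff_dvd_iff h3)
        rw [h1, K _ (by omega)]
        split_ifs <;> omega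
      · have hj0 : j = 0 := by omega
        subst hj0
        simp

end Pool.Agent.TH359.TZH
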