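import Pool.Agent.TH359.TZH_Base

set_option autoImplicit false

namespace Pool.Agent.TH359.TZH

open Pool.Agent.H260TZ Pool.Agent.TH32

theorem lp1 : LP1Stmt := by
  intro R _ _ D m k z n τ₁ τ₂ l z₁ hl hz hu
  constructor
  · intro h
    have h1 := h _ (n1_mem D m k n z τ₁ τ₂) _ (n1_mem D m k n z τ₁ τ₂)
    have h2 := h _ (n2_mem D m k n z τ₁ τ₂) _ (n1_mem D m k n z τ₁ τ₂)
    rw [mem_0] at h1 h2
    simp only at h1 h2
    rcases Nat.lt_or_ge l k with hlk | hlk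
    · obtain ⟨u, hu⟩ := hu hlk
      have e : -(D.t ^ m * z) * D.t ^ m = -((u : R) * D.t ^ (2 * m + l)) := by
        rw [hz, ← hu, pow_add, pow_mul']
        ring
      rw [e, dvd_neg, Units.dvd_mul_left, tp_dvd_tp] at h1
      exact h1
    · rw [← pow_add, tp_dvd_tp] at h2
      omega
  · rintro h ⟨⟨x, y⟩, a⟩ hu' ⟨⟨x', y'⟩, a'⟩ hv
    rw [mem_NN] at hu' hv
    obtain ⟨e1, e2, e3, h1, h2, h3⟩ := hu'
    obtain ⟨f1, f2, f3, g1, g2, g3⟩ := hv
    rw [mem_0]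
    simp only
    rw [h1, g2]
    have e : (-(D.t ^ m * z) * e1 + D.t ^ (m + k) * e2) * (D.t ^ m * f1) =
        D.t ^ (2 * m + l) * ((-z₁ * e1 + D.t ^ (k - l) * e2) * f1) := by
      have ek : D.t ^ (m + k) = D.t ^ m * D.t ^ l * D.t ^ (k - l) := by
        rw [← pow_add, ← pow_add]
        congr 1
        omega
      rw [hz, ek, pow_add, pow_mul']
      ring
    rw [e]
    exact Dvd.dvd.mul_right (pow_dvd_pow _ h) _

end Pool.Agent.TH359.TZH
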